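import Pool.Agent.Work.MP_88ec28_an.Alg4

/-!
# The module structure given by an action
-/

namespace Pool.Agent.Work.MP_88ec28_an

open scoped TensorProduct CStarAlgebra
open CQG

variable {G : CQG} {S : Set G.Irr}

namespace QAction

variable {A : Type} [CStarAlgebra A] (a : QAction G S A)

/-- `x ◁ h` for `x` in `A` and `h` in `H` (with the projection of `h` to the Hopf *-algebra of
the quantum subgroup). -/
noncomputable def act : A →ₗ[ℂ] G.H →ₗ[ℂ] A where
  toFun x := G.lin S fun γ i j => a.comp γ x i j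
  map_add' x y := by
    refine hom_ext fun γ i j => ?_
    rw [LinearMap.add_apply]
    by_cases hγ : γ ∈ S
    · simp only [G.lin_u S _ ⟨γ, hγ⟩]
      rw [map_add]
      rfl
    · simp only [G.lin_u_not S _ hγ, add_zero]
  map_smul' c x := by
    refine hom_ext fun γ i j => ?_
    rw [LinearMap.smul_apply]
    by_cases hγ : γ ∈ S
    · simp only [G.lin_u S _ ⟨γ, hγ⟩]
      rw [map_smul]
      rfl
    · simp only [G.lin_u_not S _ hγ, smul_zero]

lemma act_def (x : A) : a.act x = G.lin S fun γ i j => a.comp γ x i j := rfl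

lemma act_u (x : A) (γ : S) (i j : Fin (G.dim γ)) : a.act x (G.u γ i j) = a.comp γ x i j := by
  rw [act_def, G.lin_u S (fun γ i j => a.comp γ x i j) γ i j]

lemma act_u_not (x : A) {γ : G.Irr} (hγ : γ ∉ S) (i j : Fin (G.dim γ)) :
    a.act x (G.u γ i j) = 0 := by
  rw [act_def, G.lin_u_not S (fun γ i j => a.comp γ x i j) hγ i j]

lemma act_proj (x : A) (h : G.H) : a.act x (G.proj S h) = a.act x h := by
  rw [act_def, lin_proj (fun γ i j => a.comp γ x i j) h]

lemma act_one_right (hS : G.IsQuantumSubgroup S) (x : A) : a.act x 1 = x := by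
  have h := G.u_one ⟨0, G.dim_pos _⟩ ⟨0, G.dim_pos _⟩
  rw [← h, a.act_u x ⟨G.one, hS.one_mem⟩, a.counit _ rfl]

lemma act_act (x : A) {h h' : G.H} (hh : h ∈ G.coeff S) (hh' : h' ∈ G.coeff S) :
    a.act (a.act x h) h' = a.act x (h * h') := by
  refine coeff_induction (p := fun h => a.act (a.act x h) h' = a.act x (h * h'))
    ?_ ?_ ?_ ?_ hh
  · intro γ hγ i j
    refine coeff_induction
      (p := fun h' => a.act (a.act x (G.u γ i j)) h' = a.act x (G.u γ i j * h'))
      ?_ ?_ ?_ ?_ hh'
    · intro γ' hγ' k l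
      rw [a.act_u _ ⟨γ', hγ'⟩, a.act_u _ ⟨γ, hγ⟩, a.coassoc]
      rfl
    · simp
    · intro y z hy hz
      rw [map_add, mul_add, map_add, hy, hz]
    · intro c y hy
      rw [map_smul, mul_smul_comm, map_smul, hy]
  · simp
  · intro y z hy hz
    rw [map_add, map_add, add_mul, map_add, ← hy, ← hz]
    rfl
  · intro c y hy
    rw [map_smul, map_smul, smul_mul_assoc, map_smul, ← hy]
    rfl

lemma act_mul (hS : G.IsQuantumSubgroup S) (x : A) {l : G.H} (hl : l ∈ G.coeff S) (h : G.H) :
    a.act x (l * h) = a.act (a.act x l) h := by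
  rw [← a.act_proj x (l * h), proj_mul hS hl, ← a.act_act x hl (proj_mem h),
    a.act_proj]

/-- Multiplicativity. -/
lemma act_alg_mul (x y : A) {N : Type} [Fintype N] {U : N → N → G.H} (hU : IsCorep U)
    (p q : N) : a.act (x * y) (U p q) = ∑ r, a.act x (U p r) * a.act y (U r q) := by
  have : a.act (x * y) =
      cut ((LinearMap.mul ℂ A).compl₁₂ (a.act x) (a.act y)) := by
    refine hom_ext fun γ i j => ?_
    rw [cut_corep _ (isCorep_u γ)]
    simp only [LinearMap.compl₁₂_apply, LinearMap.mul_apply']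
    by_cases hγ : γ ∈ S
    · simp only [a.act_u _ ⟨γ, hγ⟩, map_mul]
      rfl
    · simp only [a.act_u_not _ hγ]
      simp
  rw [this, cut_corep _ hU]
  simp only [LinearMap.compl₁₂_apply, LinearMap.mul_apply']

lemma act_one (h : G.H) : a.act 1 h = G.eps S h • (1 : A) := by
  have : a.act 1 = (G.eps S).smulRight (1 : A) := by
    refine hom_ext fun γ i j => ?_
    rw [LinearMap.smulRight_apply]
    by_cases hγ : γ ∈ S
    · rw [a.act_u _ ⟨γ, hγ⟩, map_one, eps_u hγ, CStarMatrix.one_apply]
      split_ifs <;> simp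
    · rw [a.act_u_not _ hγ, eps_u_not hγ, zero_smul]
  rw [this, LinearMap.smulRight_apply]

lemma act_star (x : A) (h : G.H) : a.act (star x) h = star (a.act x (dag h)) := by
  refine induction_u (p := fun h => a.act (star x) h = star (a.act x (dag h))) ?_ ?_ ?_ ?_ h
  · intro γ i j
    rw [dag_u]
    by_cases hγ : γ ∈ S
    · rw [a.act_u _ ⟨γ, hγ⟩, a.act_u _ ⟨γ, hγ⟩, map_star, CStarMatrix.star_apply]
    · rw [a.act_u_not _ hγ, a.act_u_not _ hγ, star_zero]
  · simp [dag]
  · intro y z hy hz
    rw [dag_add, map_add, map_add, hy, hz, star_add]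
  · intro c y hy
    rw [dag_smul, map_smul, map_smul, hy, star_smul, star_star]

lemma act_star_corep (x : A) {N : Type} [Fintype N] {U : N → N → G.H} (hU : IsUCorep U)
    (p q : N) : a.act (star x) (U p q) = star (a.act x (U q p)) := by
  rw [act_star, hU.dag_eq]

/-- Equivariance in terms of the module structure. -/
lemma _root_.Pool.Agent.Work.MP_88ec28_an.IsEquivariant.map_act {B : Type} [CStarAlgebra B]
    {a : QAction G S A} {b : QAction G S B} {φ : A →ₗ[ℂ] B} (hφ : IsEquivariant a b φ)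
    (x : A) (h : G.H) : φ (a.act x h) = b.act (φ x) h := by
  have : φ ∘ₗ a.act x = b.act (φ x) := by
    refine hom_ext fun γ i j => ?_
    rw [LinearMap.comp_apply]
    by_cases hγ : γ ∈ S
    · rw [a.act_u _ ⟨γ, hγ⟩, b.act_u _ ⟨γ, hγ⟩]
      exact hφ _ _ _ _
    · rw [a.act_u_not _ hγ, b.act_u_not _ hγ, map_zero]
  exact LinearMap.congr_fun this h

end QAction

end Pool.Agent.Work.MP_88ec28_an
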