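import Pool.Agent.Work.MP_88ec28_an.Defs

/-!
# Algebra in the Hopf *-algebra of a compact quantum group
-/

namespace Pool.Agent.Work.MP_88ec28_an

open scoped TensorProduct CStarAlgebra

namespace CQG

variable (G : CQG)

lemma basis_apply (p : Σ γ : G.Irr, Fin (G.dim γ) × Fin (G.dim γ)) :
    G.basis p = G.u p.1 p.2.1 p.2.2 := Module.Basis.mk_apply _ _ _

lemma lin_u (S : Set G.Irr) {A : Type} [AddCommGroup A] [Module ℂ A]
    (X : (γ : S) → Fin (G.dim γ) → Fin (G.dim γ) → A) (γ : S) (i j : Fin (G.dim γ)) :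
    G.lin S X (G.u γ i j) = X γ i j := by
  classical
  have h := G.basis.constr_basis ℂ (fun p : (Σ γ : G.Irr, Fin (G.dim γ) × Fin (G.dim γ)) =>
    if h : p.1 ∈ S then X ⟨p.1, h⟩ p.2.1 p.2.2 else 0) ⟨γ, (i, j)⟩
  rw [basis_apply] at h
  rw [lin, h]
  simp

lemma lin_u_not (S : Set G.Irr) {A : Type} [AddCommGroup A] [Module ℂ A]
    (X : (γ : S) → Fin (G.dim γ) → Fin (G.dim γ) → A) {γ : G.Irr} (hγ : γ ∉ S)
    (i j : Fin (G.dim γ)) :
    G.lin S X (G.u γ i j) = 0 := by
  classical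
  have h := G.basis.constr_basis ℂ (fun p : (Σ γ : G.Irr, Fin (G.dim γ) × Fin (G.dim γ)) =>
    if h : p.1 ∈ S then X ⟨p.1, h⟩ p.2.1 p.2.2 else 0) ⟨γ, (i, j)⟩
  rw [basis_apply] at h
  rw [lin, h]
  simp [hγ]

variable {G}

lemma hom_ext {A : Type} [AddCommGroup A] [Module ℂ A] {f g : G.H →ₗ[ℂ] A}
    (h : ∀ γ i j, f (G.u γ i j) = g (G.u γ i j)) : f = g := by
  refine G.basis.ext fun p => ?_
  rw [basis_apply]
  exact h _ _ _

lemma coord_u (γ : G.Irr) (i j k l : Fin (G.dim γ)) :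
    G.basis.coord ⟨γ, (i, j)⟩ (G.u γ k l) = if i = k ∧ j = l then 1 else 0 := by
  classical
  have h1 : G.u γ k l = G.basis ⟨γ, (k, l)⟩ := (G.basis_apply ⟨γ, (k, l)⟩).symm
  rw [h1, Module.Basis.coord_apply, Module.Basis.repr_self, Finsupp.single_apply]
  by_cases h : k = i ∧ l = j
  · obtain ⟨rfl, rfl⟩ := h
    simp
  · rw [if_neg, if_neg]
    · rintro ⟨rfl, rfl⟩
      exact h ⟨rfl, rfl⟩
    · intro hh
      apply h
      simpa using hh

lemma coord_u_ne {γ γ' : G.Irr} (h : γ ≠ γ') (i j : Fin (G.dim γ)) (k l : Fin (G.dim γ')) :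
    G.basis.coord ⟨γ, (i, j)⟩ (G.u γ' k l) = 0 := by
  classical
  have h1 : G.u γ' k l = G.basis ⟨γ', (k, l)⟩ := (G.basis_apply ⟨γ', (k, l)⟩).symm
  rw [h1, Module.Basis.coord_apply, Module.Basis.repr_self, Finsupp.single_apply, if_neg]
  intro hh
  exact h (congrArg Sigma.fst hh).symm

/-- Evaluation of a bilinear map on the coproduct. -/
noncomputable def cut {M : Type} [AddCommGroup M] [Module ℂ M]
    (B : G.H →ₗ[ℂ] G.H →ₗ[ℂ] M) : G.H →ₗ[ℂ] M :=
  TensorProduct.lift B ∘ₗ Coalgebra.comul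

/-- `U` is the matrix of a corepresentation. -/
def IsCorep {N : Type} [Fintype N] (U : N → N → G.H) : Prop :=
  ∀ p q, Coalgebra.comul (R := ℂ) (U p q) = ∑ r, U p r ⊗ₜ[ℂ] U r q

lemma cut_corep {M : Type} [AddCommGroup M] [Module ℂ M]
    (B : G.H →ₗ[ℂ] G.H →ₗ[ℂ] M) {N : Type} [Fintype N] {U : N → N → G.H} (hU : IsCorep U)
    (p q : N) : cut B (U p q) = ∑ r, B (U p r) (U r q) := by
  simp [cut, hU p q]

lemma isCorep_u (γ : G.Irr) : IsCorep (G.u γ) := G.comul_u γ

lemma isCorep_tens {N N' : Type} [Fintype N] [Fintype N'] {U : N → N → G.H}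
    {U' : N' → N' → G.H} (hU : IsCorep U) (hU' : IsCorep U') : IsCorep (G.tens U U') := by
  rintro ⟨p, p'⟩ ⟨q, q'⟩
  simp only [tens, Bialgebra.comul_mul, hU p q, hU' p' q', Finset.sum_mul_sum,
    Algebra.TensorProduct.tmul_mul_tmul, Fintype.sum_prod_type]

lemma counit_u (γ : G.Irr) (i j : Fin (G.dim γ)) :
    Coalgebra.counit (R := ℂ) (G.u γ i j) = if i = j then 1 else 0 := by
  have h1 := Coalgebra.rTensor_counit_comul (R := ℂ) (G.u γ i j)
  rw [G.comul_u] at h1
  have h2 : ∑ k, Coalgebra.counit (R := ℂ) (G.u γ i k) • G.u γ k j = G.u γ i j := by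
    have := congrArg (TensorProduct.lid ℂ G.H) h1
    simpa using this
  have h3 := congrArg (G.basis.coord ⟨γ, (j, j)⟩) h2
  simp only [map_sum, map_smul, coord_u, smul_eq_mul] at h3
  simpa [eq_comm] using h3

lemma sum_u_mul_star (γ : G.Irr) (i j : Fin (G.dim γ)) :
    ∑ k, G.u γ i k * star (G.u γ j k) = if i = j then 1 else 0 := by
  have h := HopfAlgebra.mul_antipode_lTensor_comul_apply (R := ℂ) (G.u γ i j)
  rw [G.comul_u, counit_u] at h
  simp only [map_sum, LinearMap.lTensor_tmul, LinearMap.mul'_apply, G.antipode_u] at h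
  rw [h]
  split_ifs <;> simp

lemma sum_star_mul_u (γ : G.Irr) (i j : Fin (G.dim γ)) :
    ∑ k, star (G.u γ k i) * G.u γ k j = if i = j then 1 else 0 := by
  have h := HopfAlgebra.mul_antipode_rTensor_comul_apply (R := ℂ) (G.u γ i j)
  rw [G.comul_u, counit_u] at h
  simp only [map_sum, LinearMap.rTensor_tmul, LinearMap.mul'_apply, G.antipode_u] at h
  rw [h]
  split_ifs <;> simp

/-- The antilinear multiplicative involution `h ↦ S(h)*`. -/
noncomputable def dag (h : G.H) : G.H := star (HopfAlgebra.antipode ℂ h)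

lemma dag_u (γ : G.Irr) (i j : Fin (G.dim γ)) : dag (G.u γ i j) = G.u γ j i := by
  rw [dag, G.antipode_u, star_star]

lemma dag_mul (h h' : G.H) : dag (h * h') = dag h * dag h' := by
  rw [dag, HopfAlgebra.antipode_mul_antidistrib, star_mul]
  rfl

lemma dag_add (h h' : G.H) : dag (h + h') = dag h + dag h' := by
  simp [dag]

lemma dag_smul (c : ℂ) (h : G.H) : dag (c • h) = star c • dag h := by
  simp [dag]

/-- The slice of the coproduct by a coordinate functional. -/
lemma cut_coord (δ : G.Irr) (m n : Fin (G.dim δ)) (h : G.H) :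
    cut (G := G) (LinearMap.lsmul ℂ G.H ∘ₗ G.basis.coord ⟨δ, (m, n)⟩).flip h =
      ∑ a, G.basis.coord ⟨δ, (a, n)⟩ h • G.u δ a m := by
  classical
  have key : cut (G := G) (LinearMap.lsmul ℂ G.H ∘ₗ G.basis.coord ⟨δ, (m, n)⟩).flip =
      ∑ a, (G.basis.coord ⟨δ, (a, n)⟩).smulRight (G.u δ a m) := by
    refine hom_ext fun γ i j => ?_
    rw [cut_corep _ (isCorep_u γ)]
    simp only [LinearMap.flip_apply, LinearMap.comp_apply, LinearMap.lsmul_apply,
      LinearMap.sum_apply, LinearMap.smulRight_apply]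
    by_cases hγ : δ = γ
    · subst hγ
      simp only [coord_u]
      by_cases hn : n = j
      · subst hn
        simp
      · simp [hn]
    · simp only [coord_u_ne hγ]
      simp
  rw [key]
  simp

/-- If all irreducible subobjects of `U` are in `S` then the coefficients of `U` are in the span
of the coefficients of the elements of `S`. -/
lemma mem_coeff_of_isSub {S : Set G.Irr} {N : Type} [Fintype N] {U : N → N → G.H}
    (hU : IsCorep U) (hS : ∀ δ, G.IsSub δ U → δ ∈ S) (p q : N) : U p q ∈ G.coeff S := by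
  classical
  rw [← G.basis.linearCombination_repr (U p q), Finsupp.linearCombination_apply, Finsupp.sum]
  refine Submodule.sum_mem _ fun x hx => Submodule.smul_mem _ _ ?_
  obtain ⟨δ, m₀, n₀⟩ := x
  have hne : G.basis.coord ⟨δ, (m₀, n₀)⟩ (U p q) ≠ 0 := by
    rw [Module.Basis.coord_apply]
    exact Finsupp.mem_support_iff.1 hx
  have hδ : δ ∈ S := by
    refine hS δ ⟨fun r m => G.basis.coord ⟨δ, (m, n₀)⟩ (U r q), ?_, ?_⟩
    · intro h0
      apply hne
      exact congrFun (congrFun h0 p) m₀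
    · intro p' m
      have h1 := cut_coord δ m n₀ (U p' q)
      rw [cut_corep _ hU] at h1
      simpa using h1
  rw [basis_apply]
  exact Submodule.subset_span ⟨δ, hδ, _, _, rfl⟩

end CQG

end Pool.Agent.Work.MP_88ec28_an
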