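import Pool.Agent.Work.MP_88ec28_an.Alg

/-!
# Conjugates, quantum subgroups, projection onto the Hopf algebra of a quantum subgroup
-/

namespace Pool.Agent.Work.MP_88ec28_an

open scoped TensorProduct CStarAlgebra

namespace CQG

variable {G : CQG}

/-- The data of a conjugate of an irreducible representation. -/
structure Conj (G : CQG) (α : G.Irr) where
  β : G.Irr
  F : Fin (G.dim β) → Fin (G.dim α) → ℂ
  F' : Fin (G.dim α) → Fin (G.dim β) → ℂ
  FF' : ∀ p q, ∑ k, F p k * F' k q = if p = q then 1 else 0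
  F'F : ∀ k l, ∑ p, F' k p * F p l = if k = l then 1 else 0
  u_eq : ∀ p q, G.u β p q = ∑ k, ∑ l, (F p k * F' l q) • star (G.u α k l)

/-- A choice of conjugates. -/
noncomputable def conj (G : CQG) (α : G.Irr) : Conj G α :=
  Classical.choice (by
    obtain ⟨β, F, F', h1, h2, h3⟩ := G.exists_conj α
    exact ⟨⟨β, F, F', h1, h2, h3⟩⟩)

namespace Conj

variable {α : G.Irr} (c : Conj G α)

lemma u_F (p : Fin (G.dim c.β)) (j : Fin (G.dim α)) :
    ∑ q, c.F q j • G.u c.β p q = ∑ k, c.F p k • star (G.u α k j) := by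
  calc ∑ q, c.F q j • G.u c.β p q
      = ∑ k, ∑ l, ((∑ q, c.F' l q * c.F q j) * c.F p k) • star (G.u α k l) := by
        simp only [c.u_eq, Finset.smul_sum, smul_smul, Finset.sum_mul, Finset.sum_smul]
        rw [Finset.sum_comm]
        refine Finset.sum_congr rfl fun k _ => ?_
        rw [Finset.sum_comm]
        refine Finset.sum_congr rfl fun l _ => Finset.sum_congr rfl fun q _ => ?_
        congr 1
        ring
    _ = ∑ k, c.F p k • star (G.u α k j) := by
        simp [c.F'F]

lemma F'_u (i : Fin (G.dim α)) (q : Fin (G.dim c.β)) :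
    ∑ p, c.F' i p • G.u c.β p q = ∑ l, c.F' l q • star (G.u α i l) := by
  calc ∑ p, c.F' i p • G.u c.β p q
      = ∑ k, ∑ l, ((∑ p, c.F' i p * c.F p k) * c.F' l q) • star (G.u α k l) := by
        simp only [c.u_eq, Finset.smul_sum, smul_smul, Finset.sum_mul, Finset.sum_smul]
        rw [Finset.sum_comm]
        refine Finset.sum_congr rfl fun k _ => ?_
        rw [Finset.sum_comm]
        refine Finset.sum_congr rfl fun l _ => Finset.sum_congr rfl fun q _ => ?_
        congr 1
        ring
    _ = ∑ l, c.F' l q • star (G.u α i l) := by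
        simp [c.F'F]

lemma star_u (k l : Fin (G.dim α)) :
    star (G.u α k l) = ∑ p, ∑ q, (c.F' k p * c.F q l) • G.u c.β p q := by
  calc star (G.u α k l) = ∑ m, (∑ p, c.F' k p * c.F p m) • star (G.u α m l) := by
        simp [c.F'F]
    _ = ∑ p, c.F' k p • ∑ m, c.F p m • star (G.u α m l) := by
        simp only [Finset.smul_sum, smul_smul, Finset.sum_smul]
        rw [Finset.sum_comm]
    _ = ∑ p, c.F' k p • ∑ q, c.F q l • G.u c.β p q := by
        simp only [c.u_F]
    _ = _ := by
        simp only [Finset.smul_sum, smul_smul]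

lemma isCorep_bar (c : Conj G α) : IsCorep (G.bar (G.u α)) := by
  intro k l
  simp only [bar]
  have h1 : ∀ r, star (G.u α k r) ⊗ₜ[ℂ] star (G.u α r l) =
      ∑ p, ∑ q, (c.F' k p * c.F q l) •
        ∑ m, ∑ n, ((c.F m r * c.F' r n)) • (G.u c.β p m ⊗ₜ[ℂ] G.u c.β n q) := by
    intro r
    rw [c.star_u k r, c.star_u r l]
    simp only [TensorProduct.sum_tmul, TensorProduct.tmul_sum, TensorProduct.smul_tmul_smul,
      Finset.smul_sum, smul_smul]
    have hcomm : ∀ f : Fin (G.dim c.β) → Fin (G.dim c.β) → Fin (G.dim c.β) → Fin (G.dim c.β) →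
        G.H ⊗[ℂ] G.H, ∑ n, ∑ q, ∑ p, ∑ m, f n q p m = ∑ p, ∑ q, ∑ m, ∑ n, f n q p m := by
      intro f
      calc ∑ n, ∑ q, ∑ p, ∑ m, f n q p m = ∑ n, ∑ p, ∑ q, ∑ m, f n q p m :=
            Finset.sum_congr rfl fun n _ => Finset.sum_comm
        _ = ∑ p, ∑ n, ∑ q, ∑ m, f n q p m := Finset.sum_comm
        _ = ∑ p, ∑ q, ∑ n, ∑ m, f n q p m := Finset.sum_congr rfl fun p _ => Finset.sum_comm
        _ = ∑ p, ∑ q, ∑ m, ∑ n, f n q p m :=
            Finset.sum_congr rfl fun p _ => Finset.sum_congr rfl fun q _ => Finset.sum_comm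
    rw [hcomm]
    refine Finset.sum_congr rfl fun p _ => Finset.sum_congr rfl fun q _ =>
      Finset.sum_congr rfl fun m _ => Finset.sum_congr rfl fun n _ => ?_
    congr 1
    ring
  have h2 : ∑ r, star (G.u α k r) ⊗ₜ[ℂ] star (G.u α r l) =
      ∑ p, ∑ q, (c.F' k p * c.F q l) •
        ∑ m, ∑ n, (∑ r, (c.F m r * c.F' r n)) • (G.u c.β p m ⊗ₜ[ℂ] G.u c.β n q) := by
    simp only [h1]
    rw [Finset.sum_comm]
    refine Finset.sum_congr rfl fun p _ => ?_
    rw [Finset.sum_comm]
    refine Finset.sum_congr rfl fun q _ => ?_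
    rw [← Finset.smul_sum]
    congr 1
    rw [Finset.sum_comm]
    refine Finset.sum_congr rfl fun m _ => ?_
    rw [Finset.sum_comm]
    refine Finset.sum_congr rfl fun n _ => ?_
    rw [Finset.sum_smul]
  rw [h2, c.star_u k l]
  simp only [map_sum, map_smul, G.comul_u, c.FF']
  simp

/-- The matrix of the invariant functional on the matrices of the conjugate. -/
noncomputable def ρ (q p : Fin (G.dim c.β)) : ℂ := ∑ k, c.F' k p * star (c.F' k q)

lemma sum_F'_u_u (r : Fin (G.dim c.β)) (j : Fin (G.dim α)) :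
    ∑ i, ∑ p, c.F' i p • (G.u c.β p r * G.u α i j) = c.F' j r • 1 := by
  calc ∑ i, ∑ p, c.F' i p • (G.u c.β p r * G.u α i j)
      = ∑ i, (∑ p, c.F' i p • G.u c.β p r) * G.u α i j := by
        simp only [Finset.sum_mul, smul_mul_assoc]
    _ = ∑ i, (∑ l, c.F' l r • star (G.u α i l)) * G.u α i j := by
        simp only [c.F'_u]
    _ = ∑ l, c.F' l r • ∑ i, star (G.u α i l) * G.u α i j := by
        simp only [Finset.sum_mul, smul_mul_assoc, Finset.smul_sum]
        rw [Finset.sum_comm]
    _ = _ := by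
        simp [sum_star_mul_u]

lemma sum_ρ_F (p : Fin (G.dim c.β)) (k : Fin (G.dim α)) :
    ∑ q, c.ρ q p * star (c.F q k) = c.F' k p := by
  calc ∑ q, c.ρ q p * star (c.F q k)
      = ∑ m, c.F' m p * star (∑ q, c.F' m q * c.F q k) := by
        simp only [ρ, Finset.sum_mul, star_sum, Finset.mul_sum, star_mul']
        rw [Finset.sum_comm]
        refine Finset.sum_congr rfl fun m _ => Finset.sum_congr rfl fun q _ => ?_
        ring
    _ = _ := by
        simp [c.F'F]

/-- Invariance of the functional `ρ`. -/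
lemma sum_ρ (r s : Fin (G.dim c.β)) :
    ∑ p, ∑ q, c.ρ q p • (G.u c.β p r * star (G.u c.β q s)) = c.ρ s r • 1 := by
  have h1 : ∀ q, star (G.u c.β q s) = ∑ k, ∑ l, (star (c.F q k) * star (c.F' l s)) •
      G.u α k l := by
    intro q
    rw [c.u_eq]
    simp [star_sum, star_smul]
  calc ∑ p, ∑ q, c.ρ q p • (G.u c.β p r * star (G.u c.β q s))
      = ∑ p, ∑ k, ∑ l, ((∑ q, c.ρ q p * star (c.F q k)) * star (c.F' l s)) •
          (G.u c.β p r * G.u α k l) := by
        refine Finset.sum_congr rfl fun p _ => ?_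
        simp only [h1, Finset.mul_sum, mul_smul_comm, Finset.smul_sum, smul_smul,
          Finset.sum_mul, Finset.sum_smul]
        rw [Finset.sum_comm]
        refine Finset.sum_congr rfl fun k _ => ?_
        rw [Finset.sum_comm]
        refine Finset.sum_congr rfl fun l _ => Finset.sum_congr rfl fun q _ => ?_
        congr 1
        ring
    _ = ∑ l, star (c.F' l s) • ∑ k, ∑ p, c.F' k p • (G.u c.β p r * G.u α k l) := by
        simp only [c.sum_ρ_F, Finset.smul_sum, smul_smul]
        calc _ = ∑ p, ∑ l, ∑ k, (c.F' k p * star (c.F' l s)) • (G.u c.β p r * G.u α k l) :=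
              Finset.sum_congr rfl fun p _ => Finset.sum_comm
          _ = ∑ l, ∑ p, ∑ k, (c.F' k p * star (c.F' l s)) • (G.u c.β p r * G.u α k l) :=
              Finset.sum_comm
          _ = _ := by
              refine Finset.sum_congr rfl fun l _ => ?_
              rw [Finset.sum_comm]
              refine Finset.sum_congr rfl fun k _ => Finset.sum_congr rfl fun p _ => ?_
              congr 1
              ring
    _ = _ := by
        simp only [c.sum_F'_u_u, smul_smul, ρ, Finset.sum_smul]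
        refine Finset.sum_congr rfl fun l _ => ?_
        congr 1
        ring

end Conj

end CQG

end Pool.Agent.Work.MP_88ec28_an
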