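import Pool.Agent.Work.MP_88ec28_an.Alg2

/-!
# The Hopf *-algebra of a quantum subgroup
-/

namespace Pool.Agent.Work.MP_88ec28_an

open scoped TensorProduct CStarAlgebra

namespace CQG

variable {G : CQG} {S : Set G.Irr}

lemma u_mem_coeff {γ : G.Irr} (hγ : γ ∈ S) (i j : Fin (G.dim γ)) : G.u γ i j ∈ G.coeff S :=
  Submodule.subset_span ⟨γ, hγ, i, j, rfl⟩

lemma coeff_induction {p : G.H → Prop} (hu : ∀ γ ∈ S, ∀ i j, p (G.u γ i j)) (h0 : p 0)
    (hadd : ∀ x y, p x → p y → p (x + y)) (hsmul : ∀ (c : ℂ) x, p x → p (c • x))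
    {h : G.H} (hh : h ∈ G.coeff S) : p h := by
  refine Submodule.span_induction (p := fun x _ => p x) ?_ h0 (fun x y _ _ => hadd x y)
    (fun c x _ => hsmul c x) hh
  rintro x ⟨γ, hγ, i, j, rfl⟩
  exact hu γ hγ i j

lemma one_mem_coeff (hS : G.IsQuantumSubgroup S) : (1 : G.H) ∈ G.coeff S := by
  have h := G.u_one ⟨0, G.dim_pos _⟩ ⟨0, G.dim_pos _⟩
  rw [← h]
  exact u_mem_coeff hS.one_mem _ _

lemma conj_mem (hS : G.IsQuantumSubgroup S) {α : G.Irr} (hα : α ∈ S) (c : Conj G α) :
    c.β ∈ S := by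
  refine hS.conj_mem α hα c.β ⟨fun r m => c.F' r m, ?_, ?_⟩
  · intro h0
    have h1 := c.F'F ⟨0, G.dim_pos _⟩ ⟨0, G.dim_pos _⟩
    have h2 : ∀ k p, c.F' k p = 0 := fun k p => congrFun (congrFun h0 k) p
    simp [h2] at h1
  · intro p m
    simp only [bar]
    exact (c.F'_u p m).symm

lemma star_mem_coeff (hS : G.IsQuantumSubgroup S) {h : G.H} (hh : h ∈ G.coeff S) :
    star h ∈ G.coeff S := by
  refine coeff_induction (p := fun h => star h ∈ G.coeff S) ?_ ?_ ?_ ?_ hh
  · intro γ hγ i j
    rw [(G.conj γ).star_u]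
    exact Submodule.sum_mem _ fun p _ => Submodule.sum_mem _ fun q _ =>
      Submodule.smul_mem _ _ (u_mem_coeff (conj_mem hS hγ _) _ _)
  · simp
  · intro x y hx hy
    rw [star_add]
    exact Submodule.add_mem _ hx hy
  · intro c x hx
    rw [star_smul]
    exact Submodule.smul_mem _ _ hx

lemma mul_mem_coeff (hS : G.IsQuantumSubgroup S) {h h' : G.H} (hh : h ∈ G.coeff S)
    (hh' : h' ∈ G.coeff S) : h * h' ∈ G.coeff S := by
  refine coeff_induction (p := fun h => h * h' ∈ G.coeff S) ?_ ?_ ?_ ?_ hh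
  · intro γ hγ i j
    refine coeff_induction (p := fun h' => G.u γ i j * h' ∈ G.coeff S) ?_ ?_ ?_ ?_ hh'
    · intro γ' hγ' k l
      have := mem_coeff_of_isSub (isCorep_tens (isCorep_u γ) (isCorep_u γ'))
        (hS.tens_mem γ hγ γ' hγ') (i, k) (j, l)
      exact this
    · simp
    · intro x y hx hy
      rw [mul_add]
      exact Submodule.add_mem _ hx hy
    · intro c x hx
      rw [mul_smul_comm]
      exact Submodule.smul_mem _ _ hx
  · simp
  · intro x y hx hy
    rw [add_mul]
    exact Submodule.add_mem _ hx hy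
  · intro c x hx
    rw [smul_mul_assoc]
    exact Submodule.smul_mem _ _ hx

/-- Normality in the sense of the problem implies normality in the usual sense. -/
lemma isAdInvariant_of_isConjInvariant
    (hN : G.IsConjInvariant S) : G.IsAdInvariant S := by
  have key : ∀ (α : G.Irr) (l : G.H), l ∈ G.coeff S → ∀ i j i' j',
      star (G.u α i j) * l * G.u α i' j' ∈ G.coeff S := by
    intro α l hl i j i' j'
    refine coeff_induction (p := fun l => star (G.u α i j) * l * G.u α i' j' ∈ G.coeff S)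
      ?_ ?_ ?_ ?_ hl
    · intro β hβ k m
      have := mem_coeff_of_isSub (isCorep_tens (G.conj α).isCorep_bar
        (isCorep_tens (isCorep_u β) (isCorep_u α))) (hN α β hβ) (i, (k, i')) (j, (m, j'))
      simp only [tens, bar] at this
      rw [mul_assoc]
      exact this
    · simp
    · intro x y hx hy
      rw [mul_add, add_mul]
      exact Submodule.add_mem _ hx hy
    · intro c x hx
      rw [mul_smul_comm, smul_mul_assoc]
      exact Submodule.smul_mem _ _ hx
  intro α i j l hl
  refine ⟨Submodule.sum_mem _ fun k _ => key α l hl _ _ _ _, Submodule.sum_mem _ fun k _ => ?_⟩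
  set c := G.conj α
  have h1 : G.u α i k = ∑ p, ∑ q, (star (c.F' i p) * star (c.F q k)) • star (G.u c.β p q) := by
    have := congrArg star (c.star_u i k)
    rw [star_star] at this
    rw [this]
    simp [star_sum, star_smul]
  rw [h1, c.star_u j k]
  simp only [Finset.sum_mul, Finset.mul_sum]
  refine Submodule.sum_mem _ fun p _ => Submodule.sum_mem _ fun q _ =>
    Submodule.sum_mem _ fun p' _ => Submodule.sum_mem _ fun q' _ => ?_
  rw [smul_mul_assoc, smul_mul_assoc, mul_smul_comm]
  exact Submodule.smul_mem _ _ (Submodule.smul_mem _ _ (key c.β l hl _ _ _ _))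

/-- The projection of `H` onto the Hopf *-algebra of the quantum subgroup. -/
noncomputable def proj (G : CQG) (S : Set G.Irr) : G.H →ₗ[ℂ] G.H :=
  G.lin S fun γ i j => G.u γ i j

/-- The counit on the Hopf *-algebra of the quantum subgroup, extended by zero. -/
noncomputable def eps (G : CQG) (S : Set G.Irr) : G.H →ₗ[ℂ] ℂ :=
  G.lin S fun _ i j => if i = j then 1 else 0

lemma lin_proj {A : Type} [AddCommGroup A] [Module ℂ A]
    (X : (γ : S) → Fin (G.dim γ) → Fin (G.dim γ) → A) (h : G.H) :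
    G.lin S X (G.proj S h) = G.lin S X h := by
  have : G.lin S X ∘ₗ G.proj S = G.lin S X := by
    refine hom_ext fun γ i j => ?_
    rw [LinearMap.comp_apply]
    by_cases hγ : γ ∈ S
    · rw [proj, G.lin_u S _ ⟨γ, hγ⟩]
    · rw [proj, G.lin_u_not S _ hγ, G.lin_u_not S _ hγ, map_zero]
  exact LinearMap.congr_fun this h

lemma proj_mem (h : G.H) : G.proj S h ∈ G.coeff S := by
  have : ∀ h ∈ G.coeff Set.univ, G.proj S h ∈ G.coeff S := by
    intro h hh
    refine coeff_induction (p := fun h => G.proj S h ∈ G.coeff S) ?_ ?_ ?_ ?_ hh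
    · intro γ _ i j
      by_cases hγ : γ ∈ S
      · rw [proj, G.lin_u S _ ⟨γ, hγ⟩]
        exact u_mem_coeff hγ _ _
      · rw [proj, G.lin_u_not S _ hγ]
        exact Submodule.zero_mem _
    · simp
    · intro x y hx hy
      rw [map_add]
      exact Submodule.add_mem _ hx hy
    · intro c x hx
      rw [map_smul]
      exact Submodule.smul_mem _ _ hx
  refine this h ?_
  have h2 : (⊤ : Submodule ℂ G.H) ≤ G.coeff Set.univ := by
    rw [← G.span_u]
    refine Submodule.span_mono ?_
    rintro _ ⟨p, rfl⟩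
    exact ⟨p.1, trivial, _, _, rfl⟩
  exact h2 trivial

lemma proj_of_mem {h : G.H} (hh : h ∈ G.coeff S) : G.proj S h = h := by
  refine coeff_induction (p := fun h => G.proj S h = h) ?_ ?_ ?_ ?_ hh
  · intro γ hγ i j
    rw [proj, G.lin_u S _ ⟨γ, hγ⟩]
  · simp
  · intro x y hx hy
    rw [map_add, hx, hy]
  · intro c x hx
    rw [map_smul, hx]

lemma proj_corep_right {N : Type} [Fintype N] {U : N → N → G.H} (hU : IsCorep U) (p q : N) :
    G.proj S (U p q) = ∑ r, G.eps S (U r q) • U p r := by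
  have : G.proj S = cut (LinearMap.lsmul ℂ G.H ∘ₗ G.eps S).flip := by
    refine hom_ext fun γ i j => ?_
    rw [cut_corep _ (isCorep_u γ)]
    simp only [LinearMap.flip_apply, LinearMap.comp_apply, LinearMap.lsmul_apply]
    by_cases hγ : γ ∈ S
    · rw [proj, G.lin_u S _ ⟨γ, hγ⟩]
      have : ∀ k, G.eps S (G.u γ k j) = if k = j then 1 else 0 := fun k =>
        G.lin_u S _ ⟨γ, hγ⟩ k j
      simp [this]
    · rw [proj, G.lin_u_not S _ hγ]
      have : ∀ k, G.eps S (G.u γ k j) = 0 := fun k => G.lin_u_not S _ hγ k j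
      simp [this]
  rw [this, cut_corep _ hU]
  simp

lemma proj_corep_left {N : Type} [Fintype N] {U : N → N → G.H} (hU : IsCorep U) (p q : N) :
    G.proj S (U p q) = ∑ r, G.eps S (U p r) • U r q := by
  have : G.proj S = cut (LinearMap.lsmul ℂ G.H ∘ₗ G.eps S) := by
    refine hom_ext fun γ i j => ?_
    rw [cut_corep _ (isCorep_u γ)]
    simp only [LinearMap.comp_apply, LinearMap.lsmul_apply]
    by_cases hγ : γ ∈ S
    · rw [proj, G.lin_u S _ ⟨γ, hγ⟩]
      have : ∀ k, G.eps S (G.u γ i k) = if i = k then 1 else 0 := fun k =>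
        G.lin_u S _ ⟨γ, hγ⟩ i k
      simp [this]
    · rw [proj, G.lin_u_not S _ hγ]
      have : ∀ k, G.eps S (G.u γ i k) = 0 := fun k => G.lin_u_not S _ hγ i k
      simp [this]
  rw [this, cut_corep _ hU]
  simp

lemma coord_eq_zero_of_mem {γ : G.Irr} (hγ : γ ∉ S) {h : G.H} (hh : h ∈ G.coeff S)
    (i j : Fin (G.dim γ)) : G.basis.coord ⟨γ, (i, j)⟩ h = 0 := by
  refine coeff_induction (p := fun h => G.basis.coord ⟨γ, (i, j)⟩ h = 0) ?_ ?_ ?_ ?_ hh
  · intro γ' hγ' k l
    exact coord_u_ne (fun h : γ = γ' => hγ (by rw [h]; exact hγ')) _ _ _ _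
  · simp
  · intro x y hx hy
    rw [map_add, hx, hy, add_zero]
  · intro c x hx
    rw [map_smul, hx, smul_zero]

/-- The coefficients of `λ ⊗ γ` have no component in `S` if `λ ∈ S` and `γ ∉ S`. -/
lemma eps_mul_u (hS : G.IsQuantumSubgroup S) {l γ : G.Irr} (hl : l ∈ S) (hγ : γ ∉ S)
    (d : Fin (G.dim l)) (k : Fin (G.dim γ)) (q : Fin (G.dim l) × Fin (G.dim γ)) :
    G.eps S (G.tens (G.u l) (G.u γ) (d, k) q) = 0 := by
  set U := G.tens (G.u l) (G.u γ) with hUdef
  have hU : IsCorep U := isCorep_tens (isCorep_u l) (isCorep_u γ)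
  -- the element of the coefficient algebra
  have h1 : ∀ i : Fin (G.dim γ), ∑ a, star (G.u l a d) * G.proj S (U (a, i) q) =
      ∑ k', G.eps S (U (d, k') q) • G.u γ i k' := by
    intro i
    calc ∑ a, star (G.u l a d) * G.proj S (U (a, i) q)
        = ∑ a, ∑ c, ∑ k', G.eps S (U (c, k') q) • ((star (G.u l a d) * G.u l a c) *
            G.u γ i k') := by
          refine Finset.sum_congr rfl fun a _ => ?_
          rw [proj_corep_right hU, Fintype.sum_prod_type, Finset.mul_sum]
          refine Finset.sum_congr rfl fun c _ => ?_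
          rw [Finset.mul_sum]
          refine Finset.sum_congr rfl fun k' _ => ?_
          rw [mul_smul_comm]
          simp only [hUdef, tens, mul_assoc]
      _ = ∑ c, ∑ k', G.eps S (U (c, k') q) • ((∑ a, star (G.u l a d) * G.u l a c) *
            G.u γ i k') := by
          rw [Finset.sum_comm]
          refine Finset.sum_congr rfl fun c _ => ?_
          rw [Finset.sum_comm]
          refine Finset.sum_congr rfl fun k' _ => ?_
          rw [Finset.sum_mul, Finset.smul_sum]
      _ = _ := by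
          simp [sum_star_mul_u]
  have h2 : ∑ a, star (G.u l a d) * G.proj S (U (a, k) q) ∈ G.coeff S :=
    Submodule.sum_mem _ fun a _ => mul_mem_coeff hS
      (star_mem_coeff hS (u_mem_coeff hl _ _)) (proj_mem _)
  have h3 := coord_eq_zero_of_mem hγ h2 k k
  rw [h1] at h3
  simp only [map_sum, map_smul, coord_u, smul_eq_mul] at h3
  simpa [eq_comm] using h3

/-- The projection is left linear over the Hopf *-algebra of the quantum subgroup. -/
lemma proj_mul (hS : G.IsQuantumSubgroup S) {l : G.H} (hl : l ∈ G.coeff S) (h : G.H) :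
    G.proj S (l * h) = l * G.proj S h := by
  have key : ∀ l ∈ G.coeff S, G.proj S ∘ₗ LinearMap.mulLeft ℂ l =
      LinearMap.mulLeft ℂ l ∘ₗ G.proj S := by
    intro l hl
    refine hom_ext fun γ i j => ?_
    simp only [LinearMap.comp_apply, LinearMap.mulLeft_apply]
    by_cases hγ : γ ∈ S
    · rw [proj_of_mem (u_mem_coeff hγ _ _),
        proj_of_mem (mul_mem_coeff hS hl (u_mem_coeff hγ _ _))]
    · have h0 : G.proj S (G.u γ i j) = 0 := G.lin_u_not S _ hγ _ _
      rw [h0, mul_zero]
      refine coeff_induction (p := fun l => G.proj S (l * G.u γ i j) = 0) ?_ ?_ ?_ ?_ hl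
      · intro l' hl' a b
        have hU := isCorep_tens (isCorep_u l') (isCorep_u γ)
        have h1 := proj_corep_right (S := S) hU (a, i) (b, j)
        have h2 : G.tens (G.u l') (G.u γ) (a, i) (b, j) = G.u l' a b * G.u γ i j := rfl
        rw [← h2, h1]
        refine Finset.sum_eq_zero fun r _ => ?_
        rw [eps_mul_u hS hl' hγ, zero_smul]
      · simp
      · intro x y hx hy
        rw [add_mul, map_add, hx, hy, add_zero]
      · intro c x hx
        rw [smul_mul_assoc, map_smul, hx, smul_zero]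
  exact LinearMap.congr_fun (key l hl) h

lemma eps_eq (h : G.H) : G.eps S h = Coalgebra.counit (R := ℂ) (G.proj S h) := by
  have : G.eps S = Coalgebra.counit ∘ₗ G.proj S := by
    refine hom_ext fun γ i j => ?_
    rw [LinearMap.comp_apply]
    by_cases hγ : γ ∈ S
    · rw [proj_of_mem (u_mem_coeff hγ _ _), counit_u]
      exact G.lin_u S _ ⟨γ, hγ⟩ i j
    · rw [proj, G.lin_u_not S _ hγ, map_zero]
      exact G.lin_u_not S _ hγ i j
  exact LinearMap.congr_fun this h

lemma eps_mul (hS : G.IsQuantumSubgroup S) {l : G.H} (hl : l ∈ G.coeff S) (h : G.H) :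
    G.eps S (l * h) = Coalgebra.counit (R := ℂ) l * G.eps S h := by
  rw [eps_eq, proj_mul hS hl, eps_eq, Bialgebra.counit_mul]

end CQG

end Pool.Agent.Work.MP_88ec28_an
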