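import Pool.Agent.Work.MP_88ec28_an.Alg3

/-!
# The normalising scalars
-/

namespace Pool.Agent.Work.MP_88ec28_an

open scoped TensorProduct CStarAlgebra

namespace CQG

variable {G : CQG} {S : Set G.Irr}

lemma Conj.sum_F_u_u {α : G.Irr} (c : Conj G α) (i : Fin (G.dim α)) (p : Fin (G.dim c.β)) :
    ∑ j, ∑ q, c.F q j • (G.u α i j * G.u c.β p q) = c.F p i • 1 := by
  calc ∑ j, ∑ q, c.F q j • (G.u α i j * G.u c.β p q)
      = ∑ j, G.u α i j * (∑ q, c.F q j • G.u c.β p q) := by
        simp only [Finset.mul_sum, mul_smul_comm]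
    _ = ∑ j, G.u α i j * (∑ k, c.F p k • star (G.u α k j)) := by
        simp only [c.u_F]
    _ = ∑ k, c.F p k • ∑ j, G.u α i j * star (G.u α k j) := by
        simp only [Finset.mul_sum, mul_smul_comm, Finset.smul_sum]
        rw [Finset.sum_comm]
    _ = _ := by
        simp [sum_u_mul_star]

/-- The functional `h ↦ ∑ ρ eps (h u)`. -/
noncomputable def cf (S : Set G.Irr) {α : G.Irr} (c : Conj G α) : G.H →ₗ[ℂ] ℂ :=
  ∑ p, ∑ q, c.ρ q p • (G.eps S ∘ₗ LinearMap.mulRight ℂ (G.u c.β p q))

lemma cf_apply {α : G.Irr} (c : Conj G α) (h : G.H) :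
    cf S c h = ∑ p, ∑ q, c.ρ q p * G.eps S (h * G.u c.β p q) := by
  simp [cf]

lemma cf_comm {α : G.Irr} (c : Conj G α) (γ : G.Irr) (i j : Fin (G.dim γ)) :
    ∑ m, cf S c (G.u γ i m) • G.u γ m j = ∑ m, cf S c (G.u γ m j) • G.u γ i m := by
  set U := G.tens (G.u γ) (G.u c.β) with hUdef
  have hU : IsCorep U := isCorep_tens (isCorep_u γ) (isCorep_u c.β)
  have hL : ∀ p s, ∑ q, G.proj S (U (i, p) (j, q)) * star (G.u c.β s q) =
      ∑ m, G.eps S (U (i, p) (m, s)) • G.u γ m j := by
    intro p s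
    calc ∑ q, G.proj S (U (i, p) (j, q)) * star (G.u c.β s q)
        = ∑ q, ∑ m, ∑ r, G.eps S (U (i, p) (m, r)) •
            (G.u γ m j * (G.u c.β r q * star (G.u c.β s q))) := by
          refine Finset.sum_congr rfl fun q _ => ?_
          rw [proj_corep_left hU, Fintype.sum_prod_type, Finset.sum_mul]
          refine Finset.sum_congr rfl fun m _ => ?_
          rw [Finset.sum_mul]
          refine Finset.sum_congr rfl fun r _ => ?_
          rw [smul_mul_assoc]
          simp only [hUdef, tens, mul_assoc]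
      _ = ∑ m, ∑ r, G.eps S (U (i, p) (m, r)) •
            (G.u γ m j * ∑ q, G.u c.β r q * star (G.u c.β s q)) := by
          rw [Finset.sum_comm]
          refine Finset.sum_congr rfl fun m _ => ?_
          rw [Finset.sum_comm]
          refine Finset.sum_congr rfl fun r _ => ?_
          rw [Finset.mul_sum, Finset.smul_sum]
      _ = _ := by
          simp [sum_u_mul_star]
  have hR : ∀ p s, ∑ q, G.proj S (U (i, p) (j, q)) * star (G.u c.β s q) =
      ∑ m, ∑ r, ∑ q, G.eps S (U (m, r) (j, q)) •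
        (G.u γ i m * (G.u c.β p r * star (G.u c.β s q))) := by
    intro p s
    calc ∑ q, G.proj S (U (i, p) (j, q)) * star (G.u c.β s q)
        = ∑ q, ∑ m, ∑ r, G.eps S (U (m, r) (j, q)) •
            (G.u γ i m * (G.u c.β p r * star (G.u c.β s q))) := by
          refine Finset.sum_congr rfl fun q _ => ?_
          rw [proj_corep_right hU, Fintype.sum_prod_type, Finset.sum_mul]
          refine Finset.sum_congr rfl fun m _ => ?_
          rw [Finset.sum_mul]
          refine Finset.sum_congr rfl fun r _ => ?_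
          rw [smul_mul_assoc]
          simp only [hUdef, tens, mul_assoc]
      _ = _ := by
          rw [Finset.sum_comm]
          refine Finset.sum_congr rfl fun m _ => ?_
          rw [Finset.sum_comm]
  have hLL : ∑ m, cf S c (G.u γ i m) • G.u γ m j =
      ∑ p, ∑ s, c.ρ s p • ∑ q, G.proj S (U (i, p) (j, q)) * star (G.u c.β s q) := by
    simp only [hL, cf_apply, Finset.smul_sum, Finset.sum_smul, smul_smul]
    rw [Finset.sum_comm]
    refine Finset.sum_congr rfl fun p _ => ?_
    rw [Finset.sum_comm]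
    rfl
  have hRR : ∑ p, ∑ s, c.ρ s p • ∑ q, G.proj S (U (i, p) (j, q)) * star (G.u c.β s q) =
      ∑ m, cf S c (G.u γ m j) • G.u γ i m := by
    calc _ = ∑ m, ∑ r, ∑ q, G.eps S (U (m, r) (j, q)) •
          (G.u γ i m * ∑ p, ∑ s, c.ρ s p • (G.u c.β p r * star (G.u c.β s q))) := by
          simp only [hR, Finset.smul_sum, Finset.mul_sum, mul_smul_comm, smul_smul]
          calc _ = ∑ p, ∑ m, ∑ s, ∑ r, ∑ q, (c.ρ s p * G.eps S (U (m, r) (j, q))) •
                (G.u γ i m * (G.u c.β p r * star (G.u c.β s q))) :=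
                Finset.sum_congr rfl fun p _ => Finset.sum_comm
            _ = ∑ m, ∑ p, ∑ s, ∑ r, ∑ q, (c.ρ s p * G.eps S (U (m, r) (j, q))) •
                (G.u γ i m * (G.u c.β p r * star (G.u c.β s q))) := Finset.sum_comm
            _ = _ := by
                refine Finset.sum_congr rfl fun m _ => ?_
                calc _ = ∑ p, ∑ r, ∑ s, ∑ q, (c.ρ s p * G.eps S (U (m, r) (j, q))) •
                      (G.u γ i m * (G.u c.β p r * star (G.u c.β s q))) :=
                      Finset.sum_congr rfl fun p _ => Finset.sum_comm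
                  _ = ∑ r, ∑ p, ∑ s, ∑ q, (c.ρ s p * G.eps S (U (m, r) (j, q))) •
                      (G.u γ i m * (G.u c.β p r * star (G.u c.β s q))) := Finset.sum_comm
                  _ = _ := by
                      refine Finset.sum_congr rfl fun r _ => ?_
                      calc _ = ∑ p, ∑ q, ∑ s, (c.ρ s p * G.eps S (U (m, r) (j, q))) •
                            (G.u γ i m * (G.u c.β p r * star (G.u c.β s q))) :=
                            Finset.sum_congr rfl fun p _ => Finset.sum_comm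
                        _ = ∑ q, ∑ p, ∑ s, (c.ρ s p * G.eps S (U (m, r) (j, q))) •
                            (G.u γ i m * (G.u c.β p r * star (G.u c.β s q))) :=
                            Finset.sum_comm
                        _ = _ := by
                            refine Finset.sum_congr rfl fun q _ =>
                              Finset.sum_congr rfl fun p _ => Finset.sum_congr rfl fun s _ => ?_
                            rw [mul_comm]
      _ = _ := by
          simp only [c.sum_ρ, mul_smul_comm, mul_one, smul_smul, cf_apply, Finset.sum_smul]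
          refine Finset.sum_congr rfl fun m _ => Finset.sum_congr rfl fun r _ =>
            Finset.sum_congr rfl fun q _ => ?_
          rw [mul_comm]
          rfl
  rw [hLL, hRR]

/-- The scalar by which `cf` acts on the coefficients of `γ`. -/
noncomputable def kap (S : Set G.Irr) {α : G.Irr} (c : Conj G α) (γ : G.Irr) : ℂ :=
  cf S c (G.u γ ⟨0, G.dim_pos γ⟩ ⟨0, G.dim_pos γ⟩)

lemma cf_u {α : G.Irr} (c : Conj G α) (γ : G.Irr) (i j : Fin (G.dim γ)) :
    cf S c (G.u γ i j) = if i = j then kap S c γ else 0 := by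
  have key : ∀ i a k : Fin (G.dim γ), cf S c (G.u γ i a) =
      if a = i then cf S c (G.u γ k k) else 0 := by
    intro i a k
    have h := congrArg (G.basis.coord ⟨γ, (a, k)⟩) (cf_comm (S := S) c γ i k)
    simp only [map_sum, map_smul, coord_u, smul_eq_mul] at h
    by_cases ha : a = i
    · subst ha
      simpa [eq_comm] using h
    · simpa [ha, eq_comm] using h
  rw [key i j ⟨0, G.dim_pos γ⟩]
  by_cases h : i = j
  · simp [h, kap]
  · simp [h, Ne.symm h]

lemma eps_u {γ : G.Irr} (hγ : γ ∈ S) (i j : Fin (G.dim γ)) :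
    G.eps S (G.u γ i j) = if i = j then 1 else 0 := G.lin_u S _ ⟨γ, hγ⟩ i j

lemma eps_u_not {γ : G.Irr} (hγ : γ ∉ S) (i j : Fin (G.dim γ)) :
    G.eps S (G.u γ i j) = 0 := G.lin_u_not S _ hγ i j

lemma mem_coeff_univ (h : G.H) : h ∈ G.coeff Set.univ := by
  have h2 : (⊤ : Submodule ℂ G.H) ≤ G.coeff Set.univ := by
    rw [← G.span_u]
    refine Submodule.span_mono ?_
    rintro _ ⟨p, rfl⟩
    exact ⟨p.1, trivial, _, _, rfl⟩
  exact h2 trivial

/-- Induction on the basis of matrix coefficients. -/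
lemma induction_u {p : G.H → Prop} (hu : ∀ γ i j, p (G.u γ i j)) (h0 : p 0)
    (hadd : ∀ x y, p x → p y → p (x + y)) (hsmul : ∀ (c : ℂ) x, p x → p (c • x))
    (h : G.H) : p h :=
  coeff_induction (fun γ _ i j => hu γ i j) h0 hadd hsmul (mem_coeff_univ h)

lemma eps_dag (h : G.H) : G.eps S (dag h) = star (G.eps S h) := by
  refine induction_u (p := fun h => G.eps S (dag h) = star (G.eps S h)) ?_ ?_ ?_ ?_ h
  · intro γ i j
    rw [dag_u]
    by_cases hγ : γ ∈ S
    · rw [eps_u hγ, eps_u hγ]
      by_cases hij : i = j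
      · simp [hij]
      · simp [hij, Ne.symm hij]
    · rw [eps_u_not hγ, eps_u_not hγ, star_zero]
  · simp [dag]
  · intro x y hx hy
    rw [dag_add, map_add, map_add, hx, hy, star_add]
  · intro c x hx
    rw [dag_smul, map_smul, map_smul, hx, smul_eq_mul, smul_eq_mul, star_mul']

/-- `U` is the matrix of a unitary corepresentation. -/
structure IsUCorep {N : Type} [Fintype N] (U : N → N → G.H) : Prop where
  corep : IsCorep U
  dag_eq : ∀ p q, dag (U p q) = U q p

lemma isUCorep_u (γ : G.Irr) : IsUCorep (G.u γ) := ⟨isCorep_u γ, dag_u γ⟩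

lemma isUCorep_tens {N N' : Type} [Fintype N] [Fintype N'] {U : N → N → G.H}
    {U' : N' → N' → G.H} (hU : IsUCorep U) (hU' : IsUCorep U') : IsUCorep (G.tens U U') :=
  ⟨isCorep_tens hU.corep hU'.corep, fun p q => by
    rw [tens, dag_mul, hU.dag_eq, hU'.dag_eq]
    rfl⟩

lemma eps_star {N : Type} [Fintype N] {U : N → N → G.H} (hU : IsUCorep U) (p q : N) :
    star (G.eps S (U p q)) = G.eps S (U q p) := by
  rw [← eps_dag, hU.dag_eq]

lemma eps_idem {N : Type} [Fintype N] {U : N → N → G.H} (hU : IsCorep U) (p q : N) :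
    G.eps S (U p q) = ∑ r, G.eps S (U p r) * G.eps S (U r q) := by
  have h1 : G.eps S (G.proj S (U p q)) = G.eps S (U p q) := lin_proj _ _
  rw [← h1, proj_corep_right hU]
  simp only [map_sum, map_smul, smul_eq_mul]
  refine Finset.sum_congr rfl fun r _ => mul_comm _ _

lemma eps_one (hS : G.IsQuantumSubgroup S) : G.eps S (1 : G.H) = 1 := by
  rw [eps_eq, proj_of_mem (one_mem_coeff hS), Bialgebra.counit_one]

lemma kap_eq {α : G.Irr} (c : Conj G α) (γ : G.Irr) (j : Fin (G.dim γ)) :
    kap S c γ = ∑ k, ∑ r, (((‖∑ q, star (c.F' k q) *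
      G.eps S (G.tens (G.u γ) (G.u c.β) r (j, q))‖ ^ 2 : ℝ)) : ℂ) := by
  set U := G.tens (G.u γ) (G.u c.β) with hUdef
  have hU : IsUCorep U := isUCorep_tens (isUCorep_u γ) (isUCorep_u c.β)
  have h1 : kap S c γ = cf S c (G.u γ j j) := by rw [cf_u, if_pos rfl]
  rw [h1, cf_apply]
  have h2 : ∀ p q, G.eps S (G.u γ j j * G.u c.β p q) =
      ∑ r, G.eps S (U (j, p) r) * G.eps S (U r (j, q)) := fun p q =>
    eps_idem hU.corep (j, p) (j, q)
  have h3 : ∀ k r, (((‖∑ q, star (c.F' k q) * G.eps S (U r (j, q))‖ ^ 2 : ℝ)) : ℂ) =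
      (∑ p, c.F' k p * G.eps S (U (j, p) r)) * ∑ q, star (c.F' k q) * G.eps S (U r (j, q)) := by
    intro k r
    have h4 : (∑ p, c.F' k p * G.eps S (U (j, p) r)) =
        star (∑ q, star (c.F' k q) * G.eps S (U r (j, q))) := by
      simp only [star_sum, star_mul', star_star, eps_star hU]
    rw [h4]
    push_cast
    rw [← Complex.conj_mul']
    rfl
  simp only [h2, h3, Conj.ρ]
  simp only [Finset.sum_mul, Finset.mul_sum]
  calc _ = ∑ p, ∑ q, ∑ r, ∑ k, (c.F' k p * star (c.F' k q)) *
        (G.eps S (U (j, p) r) * G.eps S (U r (j, q))) := by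
        rfl
    _ = ∑ p, ∑ q, ∑ k, ∑ r, (c.F' k p * star (c.F' k q)) *
        (G.eps S (U (j, p) r) * G.eps S (U r (j, q))) :=
        Finset.sum_congr rfl fun p _ => Finset.sum_congr rfl fun q _ => Finset.sum_comm
    _ = ∑ p, ∑ k, ∑ q, ∑ r, (c.F' k p * star (c.F' k q)) *
        (G.eps S (U (j, p) r) * G.eps S (U r (j, q))) :=
        Finset.sum_congr rfl fun p _ => Finset.sum_comm
    _ = ∑ k, ∑ p, ∑ q, ∑ r, (c.F' k p * star (c.F' k q)) *
        (G.eps S (U (j, p) r) * G.eps S (U r (j, q))) := Finset.sum_comm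
    _ = ∑ k, ∑ p, ∑ r, ∑ q, (c.F' k p * star (c.F' k q)) *
        (G.eps S (U (j, p) r) * G.eps S (U r (j, q))) :=
        Finset.sum_congr rfl fun k _ => Finset.sum_congr rfl fun p _ => Finset.sum_comm
    _ = ∑ k, ∑ r, ∑ p, ∑ q, (c.F' k p * star (c.F' k q)) *
        (G.eps S (U (j, p) r) * G.eps S (U r (j, q))) :=
        Finset.sum_congr rfl fun k _ => Finset.sum_comm
    _ = _ := by
        refine Finset.sum_congr rfl fun k _ => Finset.sum_congr rfl fun r _ => ?_
        rw [Finset.sum_comm]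
        refine Finset.sum_congr rfl fun q _ => Finset.sum_congr rfl fun p _ => ?_
        ring

lemma kap_nonneg {α : G.Irr} (c : Conj G α) (γ : G.Irr) :
    ∃ t : ℝ, 0 ≤ t ∧ kap S c γ = t := by
  refine ⟨∑ k, ∑ r, (‖∑ q, star (c.F' k q) *
      G.eps S (G.tens (G.u γ) (G.u c.β) r (⟨0, G.dim_pos γ⟩, q))‖ ^ 2 : ℝ), ?_,
      (kap_eq c γ ⟨0, G.dim_pos γ⟩).trans ?_⟩
  · positivity
  · push_cast
    rfl

lemma kap_self_ne (hS : G.IsQuantumSubgroup S) {α : G.Irr} (c : Conj G α) :
    kap S c α ≠ 0 := by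
  intro h0
  have h1 : ∀ j k r, ∑ q, star (c.F' k q) *
      G.eps S (G.tens (G.u α) (G.u c.β) r (j, q)) = 0 := by
    intro j
    have h2 := kap_eq (S := S) c α j
    rw [h0] at h2
    have h3 : (0 : ℝ) = ∑ k, ∑ r, (‖∑ q, star (c.F' k q) *
      G.eps S (G.tens (G.u α) (G.u c.β) r (j, q))‖ ^ 2 : ℝ) := by exact_mod_cast h2
    have h4 := (Finset.sum_eq_zero_iff_of_nonneg (fun k _ => by positivity)).1 h3.symm
    intro k r
    have h5 := (Finset.sum_eq_zero_iff_of_nonneg (fun r _ => by positivity)).1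
      (h4 k (Finset.mem_univ _)) r (Finset.mem_univ _)
    simpa using h5
  have h2 : ∀ r j q, G.eps S (G.tens (G.u α) (G.u c.β) r (j, q)) = 0 := by
    intro r j q'
    calc G.eps S (G.tens (G.u α) (G.u c.β) r (j, q'))
        = ∑ q, star (∑ k, c.F q' k * c.F' k q) *
            G.eps S (G.tens (G.u α) (G.u c.β) r (j, q)) := by
          simp [c.FF']
      _ = ∑ k, star (c.F q' k) * ∑ q, star (c.F' k q) *
            G.eps S (G.tens (G.u α) (G.u c.β) r (j, q)) := by
          simp only [star_sum, Finset.sum_mul, Finset.mul_sum, star_mul']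
          rw [Finset.sum_comm]
          refine Finset.sum_congr rfl fun k _ => Finset.sum_congr rfl fun q _ => ?_
          ring
      _ = 0 := Finset.sum_eq_zero fun k _ => by rw [h1, mul_zero]
  have h3 : ∀ p i, c.F p i = 0 := by
    intro p i
    have h4 := congrArg (G.eps S) (c.sum_F_u_u i p)
    simp only [map_sum, map_smul, eps_one hS, smul_eq_mul, mul_one] at h4
    rw [← h4]
    refine Finset.sum_eq_zero fun j _ => Finset.sum_eq_zero fun q _ => ?_
    have h5 := h2 (i, p) j q
    simp only [tens] at h5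
    rw [h5, mul_zero]
  have h6 := c.FF' ⟨0, G.dim_pos _⟩ ⟨0, G.dim_pos _⟩
  simp [h3] at h6

lemma cf_mul (hS : G.IsQuantumSubgroup S) {α : G.Irr} (c : Conj G α) {l : G.H}
    (hl : l ∈ G.coeff S) (h : G.H) :
    cf S c (l * h) = Coalgebra.counit (R := ℂ) l * cf S c h := by
  simp only [cf_apply, mul_assoc l, eps_mul hS hl, Finset.mul_sum]
  refine Finset.sum_congr rfl fun p _ => Finset.sum_congr rfl fun q _ => ?_
  ring

/-- The scalars are constant along the left cosets of the quantum subgroup. -/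
lemma kap_coset (hS : G.IsQuantumSubgroup S) {α : G.Irr} (c : Conj G α) {l : G.H}
    (hl : l ∈ G.coeff S) (γ : G.Irr) (i j : Fin (G.dim γ)) (γ' : G.Irr)
    (m n : Fin (G.dim γ')) (hne : G.basis.coord ⟨γ', (m, n)⟩ (l * G.u γ i j) ≠ 0) :
    kap S c γ' = kap S c γ := by
  set D : G.H →ₗ[ℂ] G.H := cut (LinearMap.lsmul ℂ G.H ∘ₗ cf S c) with hD
  have h1 : ∀ h : G.H, G.basis.coord ⟨γ', (m, n)⟩ (D h) =
      kap S c γ' * G.basis.coord ⟨γ', (m, n)⟩ h := by
    have : G.basis.coord ⟨γ', (m, n)⟩ ∘ₗ D = kap S c γ' • G.basis.coord ⟨γ', (m, n)⟩ := by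
      refine hom_ext fun δ a b => ?_
      rw [LinearMap.comp_apply, hD, cut_corep _ (isCorep_u δ)]
      simp only [LinearMap.comp_apply, LinearMap.lsmul_apply, cf_u, map_sum, map_smul,
        LinearMap.smul_apply, smul_eq_mul]
      by_cases hδ : γ' = δ
      · subst hδ
        simp
      · simp [coord_u_ne hδ]
    intro h
    simpa using LinearMap.congr_fun this h
  have h2 : D (l * G.u γ i j) = kap S c γ • (l * G.u γ i j) := by
    refine coeff_induction
      (p := fun l => D (l * G.u γ i j) = kap S c γ • (l * G.u γ i j)) ?_ ?_ ?_ ?_ hl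
    · intro l' hl' a b
      have hU := isCorep_tens (isCorep_u l') (isCorep_u γ)
      have h3 : D (G.tens (G.u l') (G.u γ) (a, i) (b, j)) =
          ∑ r, cf S c (G.tens (G.u l') (G.u γ) (a, i) r) •
            G.tens (G.u l') (G.u γ) r (b, j) := by
        rw [hD, cut_corep _ hU]
        simp
      have h4 : G.tens (G.u l') (G.u γ) (a, i) (b, j) = G.u l' a b * G.u γ i j := rfl
      rw [← h4, h3, Fintype.sum_prod_type]
      simp only [tens, cf_mul hS c (u_mem_coeff hl' _ _), counit_u, cf_u]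
      simp
    · simp
    · intro x y hx hy
      rw [add_mul, map_add, hx, hy, smul_add]
    · intro t x hx
      rw [smul_mul_assoc, map_smul, hx, smul_comm]
  have h3 := h1 (l * G.u γ i j)
  rw [h2, map_smul, smul_eq_mul] at h3
  exact (mul_right_cancel₀ hne h3).symm

end CQG

end Pool.Agent.Work.MP_88ec28_an
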