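import Mathlib

/-!
# Discrete quantum groups, their actions and boundaries

A discrete quantum group `Γ` is the dual of a compact quantum group `Γ^`.  The compact quantum
group is given by its Hopf *-algebra `H` (a CQG algebra): a Hopf *-algebra with a linear basis
formed by the matrix coefficients `u γ i j` of a complete family of irreducible unitary
corepresentations `u γ`, `γ ∈ Irr`.

The algebra `M(c₀(Γ) ⊗ A)` is the algebra of bounded families `(X γ)` with `X γ` in
`M_{dim γ}(A)`; such a family is the same thing as a linear map `X : H → A`,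
`X (u γ i j) = (X γ) i j`, and the dual coproduct is dual to the product of `H`.
-/

namespace Pool.Agent.Work.MP_88ec28_an

open scoped TensorProduct CStarAlgebra

/-- A compact quantum group, given by its Hopf *-algebra `H` and by a complete family `u` of
pairwise inequivalent irreducible unitary corepresentations (so the coefficients form a basis). -/
structure CQG where
  /-- the Hopf *-algebra of matrix coefficients -/
  H : Type
  [ring : Ring H]
  [hopf : HopfAlgebra ℂ H]
  [starRing : StarRing H]
  [starModule : StarModule ℂ H]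
  /-- the set of classes of irreducible representations -/
  Irr : Type
  /-- the dimension of an irreducible representation -/
  dim : Irr → ℕ
  /-- the matrix coefficients of the irreducible representations -/
  u : (γ : Irr) → Fin (dim γ) → Fin (dim γ) → H
  dim_pos : ∀ γ, 0 < dim γ
  comul_u : ∀ γ i j, Coalgebra.comul (R := ℂ) (u γ i j) = ∑ k, u γ i k ⊗ₜ[ℂ] u γ k j
  antipode_u : ∀ γ i j, HopfAlgebra.antipode ℂ (u γ i j) = star (u γ j i)
  linearIndependent_u : LinearIndependent ℂ
    (fun p : (Σ γ : Irr, Fin (dim γ) × Fin (dim γ)) => u p.1 p.2.1 p.2.2)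
  span_u : Submodule.span ℂ
    (Set.range fun p : (Σ γ : Irr, Fin (dim γ) × Fin (dim γ)) => u p.1 p.2.1 p.2.2) = ⊤
  /-- the trivial representation -/
  one : Irr
  dim_one : dim one = 1
  u_one : ∀ i j, u one i j = 1
  /-- every irreducible representation has a conjugate in the family -/
  exists_conj : ∀ γ, ∃ (γ' : Irr) (F : Fin (dim γ') → Fin (dim γ) → ℂ)
    (F' : Fin (dim γ) → Fin (dim γ') → ℂ),
    (∀ p q, ∑ k, F p k * F' k q = if p = q then 1 else 0) ∧
    (∀ k l, ∑ p, F' k p * F p l = if k = l then 1 else 0) ∧
    (∀ p q, u γ' p q = ∑ k, ∑ l, (F p k * F' l q) • star (u γ k l))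

attribute [instance] CQG.ring CQG.hopf CQG.starRing CQG.starModule

namespace CQG

variable (G : CQG)

/-- The basis of matrix coefficients. -/
noncomputable def basis :
    Module.Basis (Σ γ : G.Irr, Fin (G.dim γ) × Fin (G.dim γ)) ℂ G.H :=
  Module.Basis.mk G.linearIndependent_u G.span_u.ge

/-- The linear map `H → A` given by a family of matrices over `A`, indexed by a subset `S` of
`Irr` (and extended by zero to the other irreducible representations). -/
noncomputable def lin (S : Set G.Irr) {A : Type} [AddCommGroup A] [Module ℂ A]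
    (X : (γ : S) → Fin (G.dim γ) → Fin (G.dim γ) → A) : G.H →ₗ[ℂ] A :=
  open Classical in
  G.basis.constr ℂ fun p => if h : p.1 ∈ S then X ⟨p.1, h⟩ p.2.1 p.2.2 else 0

/-- `δ` is (equivalent to) a subrepresentation of the representation with matrix `U`. -/
def IsSub (δ : G.Irr) {N : Type} [Fintype N] (U : N → N → G.H) : Prop :=
  ∃ V : N → Fin (G.dim δ) → ℂ, V ≠ 0 ∧
    ∀ p m, ∑ r, V r m • U p r = ∑ a, V p a • G.u δ a m

/-- The matrix of the tensor product of two representations. -/
def tens {N N' : Type} (U : N → N → G.H) (U' : N' → N' → G.H) : N × N' → N × N' → G.H :=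
  fun p q => U p.1 q.1 * U' p.2 q.2

/-- The matrix of the conjugate representation (not unitary in general). -/
def bar {N : Type} (U : N → N → G.H) : N → N → G.H := fun p q => star (U p q)

/-- The set `S` of irreducible representations defines a quantum subgroup `Λ` of the discrete
quantum group `Γ`: it contains the trivial class and is closed under conjugates and under
irreducible subobjects of tensor products. -/
structure IsQuantumSubgroup (S : Set G.Irr) : Prop where
  one_mem : G.one ∈ S
  conj_mem : ∀ α ∈ S, ∀ δ, G.IsSub δ (G.bar (G.u α)) → δ ∈ S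
  tens_mem : ∀ α ∈ S, ∀ β ∈ S, ∀ δ, G.IsSub δ (G.tens (G.u α) (G.u β)) → δ ∈ S

/-- Normality as in the problem: all irreducible subrepresentations of `ᾱ ⊗ β ⊗ α` are in `S`
for `β` in `S`. -/
def IsConjInvariant (S : Set G.Irr) : Prop :=
  ∀ α, ∀ β ∈ S, ∀ δ, G.IsSub δ (G.tens (G.bar (G.u α)) (G.tens (G.u β) (G.u α))) → δ ∈ S

/-- The span of the coefficients of the representations in `S`: the Hopf *-algebra of the dual
of `Λ`. -/
def coeff (S : Set G.Irr) : Submodule ℂ G.H :=
  Submodule.span ℂ {h | ∃ γ ∈ S, ∃ i j, h = G.u γ i j}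

/-- Normality in the usual sense: the Hopf *-subalgebra of `Λ` is stable under the left and the
right adjoint action of the Hopf algebra of `Γ`, that is `S(h₁) l h₂` and `h₁ l S(h₂)` are in it
for all `l` in it. -/
def IsAdInvariant (S : Set G.Irr) : Prop :=
  ∀ α i j, ∀ l ∈ G.coeff S,
    ∑ k, star (G.u α k i) * l * G.u α k j ∈ G.coeff S ∧
    ∑ k, G.u α i k * l * star (G.u α j k) ∈ G.coeff S

end CQG

/-- An action of the quantum subgroup `Λ ⊂ Γ` given by `S` on the unital C*-algebra `A`: the
components `α_γ : A → M_{dim γ}(A)`, `γ ∈ S`, of a unital *-homomorphism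
`α : A → M(c₀(Λ) ⊗ A)`, with `(id ⊗ α)α = (Δ ⊗ id)α` and `(ε ⊗ id)α = id`. -/
structure QAction (G : CQG) (S : Set G.Irr) (A : Type) [CStarAlgebra A] where
  comp : (γ : S) → A →⋆ₐ[ℂ] CStarMatrix (Fin (G.dim γ)) (Fin (G.dim γ)) A
  coassoc : ∀ (γ γ' : S) (x : A) i j k l, comp γ' (comp γ x i j) k l =
    G.lin S (fun δ m n => comp δ x m n) (G.u γ i j * G.u γ' k l)
  counit : ∀ (γ : S), (γ : G.Irr) = G.one → ∀ x i j, comp γ x i j = x

variable {G : CQG} {S : Set G.Irr}

/-- Equivariance of a map. -/
def IsEquivariant {A B : Type} [CStarAlgebra A] [CStarAlgebra B] (a : QAction G S A)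
    (b : QAction G S B) (φ : A → B) : Prop :=
  ∀ (γ : S) x i j, φ (a.comp γ x i j) = b.comp γ (φ x) i j

/-- Complete isometry. -/
def IsCompletelyIsometric {A B : Type} [CStarAlgebra A] [PartialOrder A] [StarOrderedRing A]
    [CStarAlgebra B] [PartialOrder B] [StarOrderedRing B] (φ : A → B) : Prop :=
  ∀ (k : ℕ) (M : CStarMatrix (Fin k) (Fin k) A), ‖M.map φ‖ = ‖M‖

/-- `A` is a boundary: all unital completely positive equivariant maps from `A` to (nonzero)
unital C*-algebras with an action are completely isometric. -/
def IsBoundary {A : Type} [CStarAlgebra A] [PartialOrder A] [StarOrderedRing A]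
    (a : QAction G S A) : Prop :=
  ∀ (B : Type) [CStarAlgebra B] [PartialOrder B] [StarOrderedRing B] [Nontrivial B]
    (b : QAction G S B) (φ : A →CP B), φ 1 = 1 → IsEquivariant a b φ →
    IsCompletelyIsometric φ

/-- `A` is injective: unital completely positive equivariant maps to `A` extend along completely
isometric unital completely positive equivariant maps between (nonzero) unital C*-algebras with
an action. -/
def IsInjective {A : Type} [CStarAlgebra A] [PartialOrder A] [StarOrderedRing A]
    (a : QAction G S A) : Prop :=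
  ∀ (B C : Type) [CStarAlgebra B] [PartialOrder B] [StarOrderedRing B] [Nontrivial B]
    [CStarAlgebra C] [PartialOrder C] [StarOrderedRing C] [Nontrivial C] (b : QAction G S B)
    (c : QAction G S C) (ι : B →CP C) (φ : B →CP A), ι 1 = 1 → IsEquivariant b c ι →
    IsCompletelyIsometric ι → φ 1 = 1 → IsEquivariant b a φ →
    ∃ ψ : C →CP A, ψ 1 = 1 ∧ IsEquivariant c a ψ ∧ ∀ x, ψ (ι x) = φ x

end Pool.Agent.Work.MP_88ec28_an
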