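import Pool.Agent.Work.MP_88ec28_an.Rigid

/-!
# A bi-equivariant family of completely positive maps extending the action
-/

namespace Pool.Agent.Work.MP_88ec28_an

open scoped TensorProduct CStarAlgebra ENNReal ComplexOrder
open CQG

variable {G : CQG} {S : Set G.Irr}

section Scalars

variable (A : Type) [CStarAlgebra A] [PartialOrder A] [StarOrderedRing A]

/-- The embedding of the scalars as a completely positive map. -/
noncomputable def scalCP : ℂ →CP A :=
  { ((scalHom A : ℂ →⋆ₐ[ℂ] A) : ℂ →ₗ[ℂ] A) with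
    map_cstarMatrix_nonneg' := fun k M hM => by
      exact CompletelyPositiveMapClass.map_cstarMatrix_nonneg' (scalHom A) k M hM }

lemma scalCP_apply (z : ℂ) : scalCP A z = scalHom A z := rfl

lemma scalCP_one : scalCP A 1 = 1 := map_one (scalHom A)

lemma isCompletelyIsometric_scalCP [Nontrivial A] : IsCompletelyIsometric (scalCP A) := by
  intro k M
  have hinj : Function.Injective (scalHom A) := (algebraMap ℂ A).injective
  set f : CStarMatrix (Fin k) (Fin k) ℂ →⋆ₙₐ[ℂ] CStarMatrix (Fin k) (Fin k) A :=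
    CStarMatrix.mapₙₐ ((scalHom A : ℂ →⋆ₐ[ℂ] A) : ℂ →⋆ₙₐ[ℂ] A) with hf
  have hfa : ∀ M i j, f M i j = scalHom A (M i j) := fun M i j => rfl
  have hfinj : Function.Injective f := by
    intro M M' h
    refine CStarMatrix.ext fun i j => hinj ?_
    rw [← hfa, ← hfa, h]
  exact NonUnitalStarAlgHom.norm_map f hfinj M

end Scalars

variable {E : Type} [CStarAlgebra E] [PartialOrder E] [StarOrderedRing E]

/-- A family of completely positive maps `x ↦ (B x (u γ i j))` extending the action of the
quantum subgroup and linear on both sides over its Hopf *-algebra. -/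
structure Fam (a : QAction G S E) where
  B : E →ₗ[ℂ] G.H →ₗ[ℂ] E
  kp : ∀ {N : Type} [Fintype N] {U : N → N → G.H}, IsUCorep U → KP fun x p q => B x (U p q)
  one : ∀ h, B 1 h = Coalgebra.counit (R := ℂ) h • (1 : E)
  left : ∀ x, ∀ l ∈ G.coeff S, ∀ h, B (a.act x l) h = B x (l * h)
  right : ∀ x h, ∀ l ∈ G.coeff S, a.act (B x h) l = B x (h * l)
  unit : ∀ x, B x 1 = x

lemma eps_univ (h : G.H) : G.eps Set.univ h = Coalgebra.counit (R := ℂ) h := by
  rw [eps_eq, proj_of_mem (mem_coeff_univ h)]

lemma restrict_act {A : Type} [CStarAlgebra A] (b : QAction G Set.univ A)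
    (hS : G.IsQuantumSubgroup S) (x : A) {l : G.H} (hl : l ∈ G.coeff S) :
    (b.restrict hS).act x l = b.act x l := by
  refine coeff_induction (p := fun l => (b.restrict hS).act x l = b.act x l) ?_ ?_ ?_ ?_ hl
  · intro γ hγ i j
    rw [(b.restrict hS).act_u _ ⟨γ, hγ⟩, b.act_u _ ⟨γ, trivial⟩]
    rfl
  · simp
  · intro y z hy hz
    rw [map_add, map_add, hy, hz]
  · intro c y hy
    rw [map_smul, map_smul, hy]

section Exists

variable [Nontrivial E]

instance instNontrivialLinf : Nontrivial (Linf G E) := by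
  refine ⟨1, 0, fun h => ?_⟩
  have h1 : ev (1 : Linf G E) 1 = (1 : E) := by
    rw [ev_one, Bialgebra.counit_one, one_smul]
  have h2 : ev (0 : Linf G E) 1 = (0 : E) := by
    have : ev (0 : Linf G E) = (0 : G.H →ₗ[ℂ] E) := by
      refine hom_ext fun γ i j => ?_
      rw [ev_u]
      rfl
    rw [this]
    rfl
  rw [h, h2] at h1
  exact zero_ne_one h1

lemma phi_act (hS : G.IsQuantumSubgroup S) (a : QAction G S E) (x : E) {l : G.H}
    (hl : l ∈ G.coeff S) : phi hS a (a.act x l) = (transAct G E).act (phi hS a x) l := by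
  refine linf_ext fun γ i j => ?_
  rw [← ev_phi_mul hS a x hl, ev_act]

lemma exists_psi (hS : G.IsQuantumSubgroup S) (a : QAction G S E) (hi : IsInjective a) :
    ∃ ψ : Linf G E →CP E, ψ 1 = 1 ∧ IsEquivariant ((transAct G E).restrict hS) a ψ := by
  obtain ⟨ψ, h1, h2, -⟩ := hi ℂ (Linf G E) (trivAct hS) ((transAct G E).restrict hS)
    (scalCP (Linf G E)) (scalCP E) (scalCP_one _) (scalHom_equivariant hS _)
    (isCompletelyIsometric_scalCP _) (scalCP_one _) (scalHom_equivariant hS _)
  exact ⟨ψ, h1, h2⟩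

/-- Existence of the family. -/
lemma exists_fam (hS : G.IsQuantumSubgroup S) (a : QAction G S E) (hb : IsBoundary a)
    (hi : IsInjective a) : Nonempty (Fam a) := by
  obtain ⟨ψ, hψ1, hψe⟩ := exists_psi hS a hi
  set ψl : Linf G E →ₗ[ℂ] E := (ψ : Linf G E →ₗ[ℂ] E) with hψl
  have hψla : ∀ f, ψl f = ψ f := fun f => rfl
  set B : E →ₗ[ℂ] G.H →ₗ[ℂ] E := ((transAct G E).act ∘ₗ phi hS a).compr₂ ψl with hB
  have hBa : ∀ x h, B x h = ψ ((transAct G E).act (phi hS a x) h) := fun x h => rfl
  have hkp : ∀ {N : Type} [Fintype N] {U : N → N → G.H}, IsUCorep U →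
      KP fun x p q => B x (U p q) := by
    intro N _ U hU
    have h1 : KP fun x (_ _ : Unit) => phiCP hS a x := kp_of_cp (phiCP hS a)
    have h2 : KP fun f p q => (transAct G E).act f (U p q) := kp_act (transAct G E) hU
    have h3 : KP fun f (_ _ : Unit) => ψ f := kp_of_cp ψ
    have h4 := h1.comp_scalar h2
      (fun p q => ⟨((transAct G E).act.flip (U p q)).toAddMonoidHom, fun x => rfl⟩)
    exact h4.scalar_comp h3 ⟨ψl.toAddMonoidHom, fun x => rfl⟩
  have hone : ∀ h, B 1 h = Coalgebra.counit (R := ℂ) h • (1 : E) := by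
    intro h
    have h1 : phi hS a 1 = 1 := phiCP_one hS a
    rw [hBa, h1, (transAct G E).act_one, eps_univ, map_smul, hψ1]
  have hleft : ∀ x, ∀ l ∈ G.coeff S, ∀ h, B (a.act x l) h = B x (l * h) := by
    intro x l hl h
    rw [hBa, hBa, phi_act hS a x hl, (transAct G E).act_mul isQuantumSubgroup_univ _
      (mem_coeff_univ l)]
  have hright : ∀ x h, ∀ l ∈ G.coeff S, a.act (B x h) l = B x (h * l) := by
    intro x h l hl
    have h1 := hψe.map_act (φ := ψl) ((transAct G E).act (phi hS a x) h) l
    rw [restrict_act _ hS _ hl, ← (transAct G E).act_mul isQuantumSubgroup_univ _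
      (mem_coeff_univ h)] at h1
    exact h1.symm
  have hunit : ∀ x, B x 1 = x := by
    intro x
    have hk : KP fun x (_ _ : Unit) => (B.flip 1) x := by
      have h1 : KP fun x (_ _ : Unit) => phiCP hS a x := kp_of_cp (phiCP hS a)
      have h3 : KP fun f (_ _ : Unit) => ψ f := kp_of_cp ψ
      have h4 := h1.scalar_comp h3 ⟨ψl.toAddMonoidHom, fun x => rfl⟩
      have h5 : (fun x (_ _ : Unit) => (B.flip 1) x) =
          fun x (_ _ : Unit) => ψ (phiCP hS a x) := by
        funext x _ _
        rw [LinearMap.flip_apply, hBa, (transAct G E).act_one_right isQuantumSubgroup_univ]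
        rfl
      rw [h5]
      exact h4
    refine hb.rigid (θ := B.flip 1) hk ?_ ?_ x
    · rw [LinearMap.flip_apply, hone, Bialgebra.counit_one, one_smul]
    · intro x l hl
      rw [LinearMap.flip_apply, LinearMap.flip_apply, hleft x l hl, mul_one, hright x 1 l hl,
        one_mul]
  exact ⟨⟨B, hkp, hone, hleft, hright, hunit⟩⟩

end Exists

/-- The family of an extension of the action. -/
noncomputable def famOfExtension {a : QAction G S E} (b : QAction G Set.univ E)
    (hba : ∀ γ : S, b.comp ⟨γ, trivial⟩ = a.comp γ) : Fam a where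
  B := b.act
  kp hU := kp_act b hU
  one h := by rw [b.act_one, eps_univ]
  left x l hl h := by
    have h1 : a.act x l = b.act x l := by
      refine coeff_induction (p := fun l => a.act x l = b.act x l) ?_ ?_ ?_ ?_ hl
      · intro γ hγ i j
        rw [a.act_u _ ⟨γ, hγ⟩, b.act_u _ ⟨γ, trivial⟩, ← hba]
      · simp
      · intro y z hy hz
        rw [map_add, map_add, hy, hz]
      · intro c y hy
        rw [map_smul, map_smul, hy]
    rw [h1, b.act_mul isQuantumSubgroup_univ _ (mem_coeff_univ l)]
  right x h l hl := by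
    have h1 : ∀ x, a.act x l = b.act x l := by
      intro x
      refine coeff_induction (p := fun l => a.act x l = b.act x l) ?_ ?_ ?_ ?_ hl
      · intro γ hγ i j
        rw [a.act_u _ ⟨γ, hγ⟩, b.act_u _ ⟨γ, trivial⟩, ← hba]
      · simp
      · intro y z hy hz
        rw [map_add, map_add, hy, hz]
      · intro c y hy
        rw [map_smul, map_smul, hy]
    rw [h1, b.act_mul isQuantumSubgroup_univ _ (mem_coeff_univ h)]
  unit x := b.act_one_right isQuantumSubgroup_univ x

namespace Fam

variable {a : QAction G S E} (P : Fam a)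

omit [PartialOrder E] [StarOrderedRing E] in
lemma act_eq {l : G.H} (hl : l ∈ G.coeff S) (x : E) : P.B x l = a.act x l := by
  have h := P.right x 1 l hl
  rw [P.unit, one_mul] at h
  exact h.symm

omit [PartialOrder E] [StarOrderedRing E] in
lemma one_u (γ : G.Irr) (i j : Fin (G.dim γ)) : P.B 1 (G.u γ i j) = if i = j then 1 else 0 := by
  rw [P.one, counit_u]
  split_ifs <;> simp

end Fam

end Pool.Agent.Work.MP_88ec28_an
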