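import Pool.Agent.Work.MP_88ec28_an.Relations

/-!
# The extension of the action
-/

namespace Pool.Agent.Work.MP_88ec28_an

open scoped TensorProduct CStarAlgebra ENNReal ComplexOrder
open CQG

variable {G : CQG} {S : Set G.Irr}
variable {E : Type} [CStarAlgebra E] [PartialOrder E] [StarOrderedRing E]

omit [PartialOrder E] [StarOrderedRing E] in
lemma contr_sum {W K : Type} [Fintype W] [Fintype K] (F : W → ℂ) (X : K → W → E) :
    ∑ w, ∑ w', (star (F w) * F w') • ∑ k, (star (X k w) * X k w') =
      ∑ k, star (∑ w, F w • X k w) * ∑ w', F w' • X k w' := by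
  have h : ∀ k, star (∑ w, F w • X k w) * ∑ w', F w' • X k w' =
      ∑ w, ∑ w', (star (F w) * F w') • (star (X k w) * X k w') := by
    intro k
    simp only [star_sum, Finset.sum_mul_sum, star_smul, smul_mul_smul_comm]
  simp only [h, Finset.smul_sum]
  calc _ = ∑ w, ∑ k, ∑ w', (star (F w) * F w') • (star (X k w) * X k w') :=
        Finset.sum_congr rfl fun w _ => Finset.sum_comm
    _ = _ := Finset.sum_comm

namespace Fam

variable {a : QAction G S E} (P Q : Fam a)

/-- Coassociativity on coefficients. -/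
lemma coassoc_u [Nontrivial E] (hb : IsBoundary a) (hN : G.IsAdInvariant S) (α γ : G.Irr) (x : E)
    (i j : Fin (G.dim α)) (m n : Fin (G.dim γ)) :
    P.B (P.B x (G.u α i j)) (G.u γ m n) = P.B x (G.u α i j * G.u γ m n) := by
  -- first step
  have e1 : P.B x (G.u α i j * G.u γ m n) =
      ∑ s, P.B (∑ l, P.B (P.B x (G.u α i j * G.u γ m l)) (star (G.u γ s l)))
        (G.u γ s n) := by
    calc P.B x (G.u α i j * G.u γ m n) = ∑ l, (if l = n then
          P.B x (G.u α i j * G.u γ m l) else 0) := by simp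
      _ = ∑ l, ∑ s, P.B (P.B (P.B x (G.u α i j * G.u γ m l)) (star (G.u γ s l)))
            (G.u γ s n) := by
          refine Finset.sum_congr rfl fun l _ => ?_
          rw [P.relB hb hN γ]
      _ = _ := by
          rw [Finset.sum_comm]
          simp only [map_sum, LinearMap.sum_apply]
  have e2 : ∀ s, (∑ l, P.B (P.B x (G.u α i j * G.u γ m l)) (star (G.u γ s l))) =
      if s = m then P.B x (G.u α i j) else 0 := by
    intro s
    set z : Fin (G.dim α) → E := fun k =>
      ∑ l, P.B (P.B x (G.u α i k * G.u γ m l)) (star (G.u γ s l)) with hz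
    calc z j = ∑ k, (if k = j then z k else 0) := by simp
      _ = ∑ k, ∑ t, P.B (P.B (z k) (star (G.u α t k))) (G.u α t j) := by
          refine Finset.sum_congr rfl fun k _ => ?_
          rw [P.relB hb hN α]
      _ = ∑ t, P.B (∑ k, P.B (z k) (star (G.u α t k))) (G.u α t j) := by
          rw [Finset.sum_comm]
          simp only [map_sum, LinearMap.sum_apply]
      _ = _ := by
          simp only [hz, relC P P hb hN α γ x i]
          by_cases hs : s = m
          · simp only [hs, if_true]
            rw [Finset.sum_eq_single i]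
            · rw [if_pos rfl]
            · intro b _ hb'
              rw [if_neg hb', map_zero, LinearMap.zero_apply]
            · simp
          · simp [hs]
  rw [e1]
  simp only [e2]
  rw [Finset.sum_eq_single m]
  · rw [if_pos rfl]
  · intro b _ hb'
    rw [if_neg hb', map_zero, LinearMap.zero_apply]
  · simp

/-- Multiplicativity of the components. -/
lemma mul_u [Nontrivial E] (hb : IsBoundary a) (hN : G.IsAdInvariant S) (α : G.Irr) (x : Bool → E)
    (r s : Bool) (i n : Fin (G.dim α)) :
    P.B (star (x r) * x s) (G.u α i n) =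
      ∑ m, star (P.B (x r) (G.u α m i)) * P.B (x s) (G.u α m n) := by
  classical
  set c := G.conj α
  obtain ⟨J, hJ, W, hW⟩ := (P.kp (isUCorep_u α)).schwarz (P.one_u α) x
  -- the second factorisation
  obtain ⟨J₁, hJ₁, V, hV⟩ := (P.kp (isUCorep_u c.β)).schwarz (P.one_u c.β)
    (fun w : Bool × Fin (G.dim α) × Fin (G.dim α) => P.B (x w.1) (G.u α w.2.1 w.2.2))
  choose J₂ hJ₂ Z hZ using fun t : J => P.kp (isUCorep_u c.β) (Bool × Fin (G.dim α))
    (fun w => W t w.1 w.2)
  -- the contraction of the left side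
  have hA : ∀ (x : E) (m : Fin (G.dim α)) (p : Fin (G.dim c.β)),
      ∑ j, ∑ q, c.F q j • P.B (P.B x (G.u α m j)) (G.u c.β p q) = c.F p m • x := by
    intro x m p
    rw [P.sum_F ⟨α, c⟩ (fun j => P.B x (G.u α m j)) p]
    simp only [relA P P hb hN α x]
    simp
  have hLHS : ∀ r, ∑ i, ∑ p, ∑ j, ∑ q, (star (c.F p i) * c.F q j) •
      P.B (P.B (star (x r) * x r) (G.u α i j)) (G.u c.β p q) =
      ∑ m, ∑ p, star (c.F p m • x r) * (c.F p m • x r) := by
    intro r
    refine Finset.sum_congr rfl fun i _ => Finset.sum_congr rfl fun p _ => ?_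
    have h1 := congrArg (fun y => star (c.F p i) • y) (hA (star (x r) * x r) i p)
    simp only [Finset.smul_sum, smul_smul] at h1
    rw [h1, star_smul, smul_mul_smul_comm]
  -- zeros
  set ζ : (t : J) → J₂ t → Bool → E := fun t t' r =>
    ∑ j, ∑ q, c.F q j • Z t t' (r, j) q with hζ
  set η : J₁ → Fin (G.dim α) → Bool → E := fun t m r =>
    ∑ j, ∑ q, c.F q j • V t (r, m, j) q with hη
  have hzero : ∀ r t t', ζ t t' r = 0 := by
    intro r
    have h1 := hLHS r
    have h2 : ∀ i p j q, P.B (P.B (star (x r) * x r) (G.u α i j)) (G.u c.β p q) =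
        ∑ m, ∑ l, star (P.B (P.B (x r) (G.u α m i)) (G.u c.β l p)) *
            P.B (P.B (x r) (G.u α m j)) (G.u c.β l q) +
        ∑ m, ∑ t, star (V t (r, m, i) p) * V t (r, m, j) q +
        ∑ t, ∑ t', star (Z t t' (r, i) p) * Z t t' (r, j) q := by
      intro i p j q
      rw [hW r r i j, map_add, LinearMap.add_apply, map_sum, LinearMap.sum_apply, map_sum,
        LinearMap.sum_apply]
      congr 1
      · rw [← Finset.sum_add_distrib]
        refine Finset.sum_congr rfl fun m _ => ?_
        exact hV (r, m, i) (r, m, j) p q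
      · refine Finset.sum_congr rfl fun t _ => ?_
        exact hZ t (r, i) (r, j) p q
    have h3 : ∑ i, ∑ p, ∑ j, ∑ q, (star (c.F p i) * c.F q j) •
        P.B (P.B (star (x r) * x r) (G.u α i j)) (G.u c.β p q) =
        ∑ m, ∑ l, star (c.F l m • x r) * (c.F l m • x r) +
        ∑ m, ∑ t, star (η t m r) * η t m r +
        ∑ t, ∑ t', star (ζ t t' r) * ζ t t' r := by
      have hsw : ∀ {K : Type} [Fintype K] (X : K → Fin (G.dim α) → Fin (G.dim c.β) → E),
          ∑ i, ∑ p, ∑ j, ∑ q, (star (c.F p i) * c.F q j) •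
            ∑ k, (star (X k i p) * X k j q) =
          ∑ k, star (∑ i, ∑ p, c.F p i • X k i p) * ∑ j, ∑ q, c.F q j • X k j q := by
        intro K _ X
        have h := contr_sum (fun w : Fin (G.dim α) × Fin (G.dim c.β) => c.F w.2 w.1)
          (fun k w => X k w.1 w.2)
        simp only [Fintype.sum_prod_type] at h
        exact h
      have hsw1 := hsw (K := Fin (G.dim α) × Fin (G.dim c.β)) (fun k i p =>
        P.B (P.B (x r) (G.u α k.1 i)) (G.u c.β k.2 p))
      have hsw2 := hsw (K := Fin (G.dim α) × J₁) (fun k i p => V k.2 (r, k.1, i) p)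
      have hsw3 := hsw (K := Σ t : J, J₂ t) (fun k i p => Z k.1 k.2 (r, i) p)
      simp only [Fintype.sum_prod_type, Fintype.sum_sigma] at hsw1 hsw2 hsw3
      simp only [h2, smul_add, Finset.sum_add_distrib]
      rw [hsw1, hsw2, hsw3]
      simp only [hA, hζ, hη]
    rw [h1] at h3
    have h4 : ∑ m, ∑ t, star (η t m r) * η t m r + ∑ t, ∑ t', star (ζ t t' r) * ζ t t' r = 0 := by
      rw [add_assoc] at h3
      exact (left_eq_add.1 h3)
    have h5 : 0 ≤ ∑ m, ∑ t, star (η t m r) * η t m r :=
      Finset.sum_nonneg fun m _ => Finset.sum_nonneg fun t _ => star_mul_self_nonneg _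
    have h6 : 0 ≤ ∑ t, ∑ t', star (ζ t t' r) * ζ t t' r :=
      Finset.sum_nonneg fun m _ => Finset.sum_nonneg fun t _ => star_mul_self_nonneg _
    have h7 := ((add_eq_zero_iff_of_nonneg h5 h6).1 h4).2
    intro t t'
    have h8 : ∑ w : (Σ t : J, J₂ t), star (ζ w.1 w.2 r) * ζ w.1 w.2 r = 0 := by
      rw [Fintype.sum_sigma]
      exact h7
    exact sum_star_mul_eq_zero h8 ⟨t, t'⟩
  -- the defect
  set Y : Fin (G.dim α) → Fin (G.dim α) → E := fun i j => ∑ t, star (W t r i) * W t s j with hY
  have h9 : ∀ i p, ∑ j, ∑ q, c.F q j • P.B (Y i j) (G.u c.β p q) = 0 := by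
    intro i p
    have h10 : ∀ j q, P.B (Y i j) (G.u c.β p q) =
        ∑ t, ∑ t', star (Z t t' (r, i) p) * Z t t' (s, j) q := by
      intro j q
      rw [hY]
      beta_reduce
      rw [map_sum, LinearMap.sum_apply]
      refine Finset.sum_congr rfl fun t _ => ?_
      exact hZ t (r, i) (s, j) p q
    calc ∑ j, ∑ q, c.F q j • P.B (Y i j) (G.u c.β p q)
        = ∑ t, ∑ t', star (Z t t' (r, i) p) * ζ t t' s := by
          simp only [h10, hζ, Finset.smul_sum, Finset.mul_sum, mul_smul_comm]
          calc _ = ∑ j, ∑ t, ∑ q, ∑ t', c.F q j • (star (Z t t' (r, i) p) * Z t t' (s, j) q) :=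
                Finset.sum_congr rfl fun j _ => Finset.sum_comm
            _ = ∑ t, ∑ j, ∑ q, ∑ t', c.F q j • (star (Z t t' (r, i) p) * Z t t' (s, j) q) :=
                Finset.sum_comm
            _ = ∑ t, ∑ j, ∑ t', ∑ q, c.F q j • (star (Z t t' (r, i) p) * Z t t' (s, j) q) :=
                Finset.sum_congr rfl fun t _ => Finset.sum_congr rfl fun j _ =>
                  Finset.sum_comm
            _ = _ := Finset.sum_congr rfl fun t _ => Finset.sum_comm
      _ = 0 := by
          simp [hzero]
  have h11 : ∀ i k, ∑ j, P.B (Y i j) (star (G.u α k j)) = 0 := by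
    intro i k
    have h12 : ∀ p, ∑ t, c.F p t • ∑ j, P.B (Y i j) (star (G.u α t j)) = 0 := by
      intro p
      rw [← P.sum_F ⟨α, c⟩ (fun j => Y i j) p]
      exact h9 i p
    have h13 := invert c.F c.F' c.F'F (fun t => ∑ j, P.B (Y i j) (star (G.u α t j))) k 0
      (fun p => by rw [smul_zero]; exact h12 p) k
    simpa using h13
  have h14 : Y i n = 0 := by
    calc Y i n = ∑ j, (if j = n then Y i j else 0) := by simp
      _ = ∑ j, ∑ k, P.B (P.B (Y i j) (star (G.u α k j))) (G.u α k n) := by
          refine Finset.sum_congr rfl fun j _ => ?_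
          rw [P.relB hb hN α]
      _ = ∑ k, P.B (∑ j, P.B (Y i j) (star (G.u α k j))) (G.u α k n) := by
          rw [Finset.sum_comm]
          simp only [map_sum, LinearMap.sum_apply]
      _ = 0 := by
          simp [h11]
  rw [hW r s i n]
  have h15 : ∑ t, star (W t r i) * W t s n = 0 := h14
  rw [h15, add_zero]

omit [PartialOrder E] [StarOrderedRing E] in
lemma star_u_apply (α : G.Irr) (x : E) (i j : Fin (G.dim α)) :
    star (P.B x (G.u α i j)) = P.B (star x) (G.u α j i) :=
  (P.kp (isUCorep_u α)).star_apply x i j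

/-- The components of the extended action. -/
noncomputable def hom [Nontrivial E] (hb : IsBoundary a) (hN : G.IsAdInvariant S) (γ : G.Irr) :
    E →⋆ₐ[ℂ] CStarMatrix (Fin (G.dim γ)) (Fin (G.dim γ)) E where
  toFun x := CStarMatrix.ofMatrix fun i j => P.B x (G.u γ i j)
  map_one' := by
    refine CStarMatrix.ext fun i j => ?_
    rw [CStarMatrix.one_apply]
    exact P.one_u γ i j
  map_mul' x y := by
    refine CStarMatrix.ext fun i j => ?_
    rw [CStarMatrix.mul_apply]
    have h := P.mul_u hb hN γ (fun b => if b then star x else y) true false i j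
    simp only [if_true, Bool.false_eq_true, if_false, star_star] at h
    refine h.trans ?_
    refine Finset.sum_congr rfl fun m _ => ?_
    rw [P.star_u_apply, star_star]
    rfl
  map_zero' := by
    refine CStarMatrix.ext fun i j => ?_
    change P.B 0 (G.u γ i j) = 0
    rw [map_zero, LinearMap.zero_apply]
  map_add' x y := by
    refine CStarMatrix.ext fun i j => ?_
    change P.B (x + y) (G.u γ i j) = P.B x (G.u γ i j) + P.B y (G.u γ i j)
    rw [map_add, LinearMap.add_apply]
  commutes' z := by
    refine CStarMatrix.ext fun i j => ?_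
    rw [CStarMatrix.algebraMap_apply]
    change P.B (algebraMap ℂ E z) (G.u γ i j) = _
    rw [Algebra.algebraMap_eq_smul_one, map_smul, LinearMap.smul_apply, P.one_u]
    split_ifs <;> simp
  map_star' x := by
    refine CStarMatrix.ext fun i j => ?_
    rw [CStarMatrix.star_apply]
    change P.B (star x) (G.u γ i j) = star (P.B x (G.u γ j i))
    rw [P.star_u_apply]

lemma hom_apply [Nontrivial E] (hb : IsBoundary a) (hN : G.IsAdInvariant S) (γ : G.Irr) (x : E)
    (i j : Fin (G.dim γ)) : P.hom hb hN γ x i j = P.B x (G.u γ i j) := rfl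

lemma lin_hom [Nontrivial E] (hb : IsBoundary a) (hN : G.IsAdInvariant S) (x : E) :
    G.lin Set.univ (fun δ m n => P.hom hb hN (δ : G.Irr) x m n) = P.B x := by
  refine hom_ext fun γ i j => ?_
  rw [G.lin_u Set.univ (fun δ m n => P.hom hb hN (δ : G.Irr) x m n) ⟨γ, trivial⟩ i j,
    hom_apply]

/-- The extended action. -/
noncomputable def extension [Nontrivial E] (hb : IsBoundary a) (hN : G.IsAdInvariant S) :
    QAction G Set.univ E where
  comp γ := P.hom hb hN γ
  coassoc γ γ' x i j k l := by
    have h := LinearMap.congr_fun (P.lin_hom hb hN x) (G.u γ i j * G.u γ' k l)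
    rw [h]
    exact P.coassoc_u hb hN γ γ' x i j k l
  counit γ hγ x i j := by
    obtain ⟨γ, hγ'⟩ := γ
    subst hγ
    rw [hom_apply, G.u_one, P.unit]

lemma extension_comp [Nontrivial E] (hb : IsBoundary a) (hN : G.IsAdInvariant S) (γ : S) :
    (P.extension hb hN).comp ⟨γ, trivial⟩ = a.comp γ := by
  refine StarAlgHom.ext fun x => CStarMatrix.ext fun i j => ?_
  have h : (P.extension hb hN).comp ⟨γ, trivial⟩ x i j = P.B x (G.u γ i j) := rfl
  rw [h, P.act_eq (u_mem_coeff γ.2 i j), a.act_u]

/-- Two families extending the action are equal. -/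
lemma unique [Nontrivial E] (hb : IsBoundary a) (hN : G.IsAdInvariant S) (x : E) (γ : G.Irr)
    (i s : Fin (G.dim γ)) :
    P.B x (G.u γ i s) = Q.B x (G.u γ i s) := by
  have h1 : ∑ j, Q.B (∑ k, Q.B (P.B x (G.u γ i k)) (star (G.u γ j k))) (G.u γ j s) =
      Q.B x (G.u γ i s) := by
    simp only [relA P Q hb hN γ x i]
    rw [Finset.sum_eq_single i]
    · rw [if_pos rfl]
    · intro b _ hb'
      rw [if_neg hb', map_zero, LinearMap.zero_apply]
    · simp
  have h2 : ∑ j, Q.B (∑ k, Q.B (P.B x (G.u γ i k)) (star (G.u γ j k))) (G.u γ j s) =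
      P.B x (G.u γ i s) := by
    calc _ = ∑ k, ∑ j, Q.B (Q.B (P.B x (G.u γ i k)) (star (G.u γ j k))) (G.u γ j s) := by
          simp only [map_sum, LinearMap.sum_apply]
          rw [Finset.sum_comm]
      _ = ∑ k, (if k = s then P.B x (G.u γ i k) else 0) := by
          refine Finset.sum_congr rfl fun k _ => ?_
          rw [Q.relB hb hN γ]
      _ = _ := by simp
  rw [← h2, h1]

end Fam

/-- Normality in one of the two senses. -/
lemma isAdInvariant_of_or (h : G.IsConjInvariant S ∨ G.IsAdInvariant S) :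
    G.IsAdInvariant S :=
  h.elim isAdInvariant_of_isConjInvariant id

theorem exists_unique_extension [Nontrivial E] (hS : G.IsQuantumSubgroup S)
    (hN : G.IsConjInvariant S ∨ G.IsAdInvariant S) (a : QAction G S E) (hb : IsBoundary a)
    (hi : IsInjective a) :
    ∃! b : QAction G Set.univ E, ∀ γ : S, b.comp ⟨γ, trivial⟩ = a.comp γ := by
  have hN' := isAdInvariant_of_or hN
  obtain ⟨P⟩ := exists_fam hS a hb hi
  refine ⟨P.extension hb hN', P.extension_comp hb hN', ?_⟩
  intro b hba
  have h1 : ∀ γ : (Set.univ : Set G.Irr), b.comp γ = (P.extension hb hN').comp γ := by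
    rintro ⟨γ, -⟩
    refine StarAlgHom.ext fun x => CStarMatrix.ext fun i j => ?_
    have h2 := Fam.unique P (famOfExtension b hba) hb hN' x γ i j
    have h3 : (famOfExtension b hba).B x (G.u γ i j) = b.comp ⟨γ, trivial⟩ x i j :=
      b.act_u x ⟨γ, trivial⟩ i j
    rw [← h3, ← h2]
    rfl
  obtain ⟨bc, b1, b2⟩ := b
  have h2 : bc = (P.extension hb hN').comp := funext h1
  subst h2
  rfl

end Pool.Agent.Work.MP_88ec28_an
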