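import Pool.Agent.Work.MP_88ec28_an.Act

/-!
# Completely positive maps through factorisable kernels
-/

namespace Pool.Agent.Work.MP_88ec28_an

open scoped TensorProduct CStarAlgebra
open CQG

/-- `T : A → M_N(B)` has factorisable kernels (this is complete positivity). -/
def KP {A B N : Type} [Mul A] [Star A] [AddCommMonoid B] [Mul B] [Star B]
    (T : A → N → N → B) : Prop :=
  ∀ (R : Type) [Fintype R] (x : R → A), ∃ (J : Type) (_ : Fintype J) (Z : J → R → N → B),
    ∀ r s p q, T (star (x r) * x s) p q = ∑ t, star (Z t r p) * Z t s q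

section

variable {A B C N N' : Type} [CStarAlgebra A] [CStarAlgebra B] [CStarAlgebra C]

lemma KP.reindex {T : A → N → N → B} (hT : KP T) (e : N' → N) :
    KP fun x p q => T x (e p) (e q) := by
  intro R _ x
  obtain ⟨J, hJ, Z, hZ⟩ := hT R x
  exact ⟨J, hJ, fun t r p => Z t r (e p), fun r s p q => hZ r s (e p) (e q)⟩

lemma KP.comp [Fintype N] {T : A → N → N → B} {T' : B → N' → N' → C} (hT : KP T)
    (hT' : KP T') (hadd : ∀ p q, ∃ f : B →+ C, ∀ x, T' x p q = f x) :
    KP fun x (p q : N × N') => T' (T x p.1 q.1) p.2 q.2 := by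
  intro R _ x
  obtain ⟨J, hJ, Z, hZ⟩ := hT R x
  choose J' hJ' Z' hZ' using fun t : J => hT' (R × N) (fun rp => Z t rp.1 rp.2)
  refine ⟨Σ t : J, J' t, inferInstance, fun t r p => Z' t.1 t.2 (r, p.1) p.2, ?_⟩
  rintro r s ⟨p, p'⟩ ⟨q, q'⟩
  obtain ⟨f, hf⟩ := hadd p' q'
  simp only [hZ, hf, map_sum, Fintype.sum_sigma]
  refine Finset.sum_congr rfl fun t _ => ?_
  rw [← hf]
  exact hZ' t (r, p) (s, q) p' q'

lemma KP.comp_scalar {f : A → B} {T' : B → N' → N' → C}
    (hf : KP fun x (_ _ : Unit) => f x) (hT' : KP T')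
    (hadd : ∀ p q, ∃ f : B →+ C, ∀ x, T' x p q = f x) : KP fun x => T' (f x) :=
  (hf.comp hT' hadd).reindex fun p => ((), p)

lemma KP.scalar_comp [Fintype N] {T : A → N → N → B} {g : B → C} (hT : KP T)
    (hg : KP fun x (_ _ : Unit) => g x) (hadd : ∃ f : B →+ C, ∀ x, g x = f x) :
    KP fun x p q => g (T x p q) :=
  (hT.comp hg (fun _ _ => hadd)).reindex fun p => (p, ())

lemma KP.compress [Fintype N] {T : A → N → N → B} (hT : KP T) (W : N → N' → ℂ) :
    KP fun x i j => ∑ p, ∑ q, (star (W p i) * W q j) • T x p q := by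
  intro R _ x
  obtain ⟨J, hJ, Z, hZ⟩ := hT R x
  refine ⟨J, hJ, fun t r i => ∑ p, W p i • Z t r p, fun r s i j => ?_⟩
  simp only [hZ, Finset.smul_sum, star_sum, Finset.sum_mul, Finset.mul_sum, star_smul,
    smul_mul_smul_comm]
  calc _ = ∑ p, ∑ t, ∑ q, (star (W p i) * W q j) • (star (Z t r p) * Z t s q) :=
        Finset.sum_congr rfl fun p _ => Finset.sum_comm
    _ = ∑ t, ∑ p, ∑ q, (star (W p i) * W q j) • (star (Z t r p) * Z t s q) :=
        Finset.sum_comm
    _ = _ := Finset.sum_congr rfl fun t _ => Finset.sum_comm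

lemma KP.add {T T' : A → N → N → B} (hT : KP T) (hT' : KP T') :
    KP fun x p q => T x p q + T' x p q := by
  intro R _ x
  obtain ⟨J, hJ, Z, hZ⟩ := hT R x
  obtain ⟨J', hJ', Z', hZ'⟩ := hT' R x
  refine ⟨J ⊕ J', inferInstance, Sum.elim Z Z', fun r s p q => ?_⟩
  simp [hZ, hZ']

lemma KP.zero : KP fun (_ : A) (_ _ : N) => (0 : B) := by
  intro R _ x
  exact ⟨Empty, inferInstance, fun t => t.elim, fun r s p q => by simp⟩

lemma KP.sum {ι : Type} (s : Finset ι) {T : ι → A → N → N → B} (hT : ∀ i ∈ s, KP (T i)) :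
    KP fun x p q => ∑ i ∈ s, T i x p q := by
  classical
  induction s using Finset.induction_on with
  | empty =>
    simp only [Finset.sum_empty]
    exact KP.zero
  | insert i s hi ih =>
    simp only [Finset.sum_insert hi]
    exact (hT i (Finset.mem_insert_self _ _)).add
      (ih fun j hj => hT j (Finset.mem_insert_of_mem hj))

lemma KP.smul {T : A → N → N → B} (hT : KP T) {t : ℝ} (ht : 0 ≤ t) :
    KP fun x p q => (t : ℂ) • T x p q := by
  intro R _ x
  obtain ⟨J, hJ, Z, hZ⟩ := hT R x
  refine ⟨J, hJ, fun j r p => ((Real.sqrt t : ℝ) : ℂ) • Z j r p, fun r s p q => ?_⟩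
  beta_reduce
  rw [hZ, Finset.smul_sum]
  refine Finset.sum_congr rfl fun j _ => ?_
  rw [star_smul, smul_mul_smul_comm]
  congr 1
  have : star ((Real.sqrt t : ℝ) : ℂ) = ((Real.sqrt t : ℝ) : ℂ) := Complex.conj_ofReal _
  rw [this, ← Complex.ofReal_mul, Real.mul_self_sqrt ht]

/-- A map with a factorisable kernel is star preserving. -/
lemma KP.star_apply {T : A → N → N → B} (hT : KP T) (x : A) (p q : N) :
    star (T x p q) = T (star x) q p := by
  obtain ⟨J, hJ, Z, hZ⟩ := hT Bool (fun b => if b then x else 1)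
  have h1 := hZ false true p q
  have h2 := hZ true false q p
  simp only [Bool.false_eq_true, if_false, if_true, star_one, one_mul, mul_one] at h1 h2
  rw [h1, h2]
  simp [star_sum]

/-- The kernel of an action. -/
lemma kp_act {G : CQG} {S : Set G.Irr} (a : QAction G S A) [Fintype N] {U : N → N → G.H}
    (hU : IsUCorep U) : KP fun x p q => a.act x (U p q) := by
  intro R _ x
  refine ⟨N, inferInstance, fun k r i => a.act (x r) (U k i), fun r s p q => ?_⟩
  beta_reduce
  rw [a.act_alg_mul _ _ hU.corep]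
  refine Finset.sum_congr rfl fun k _ => ?_
  rw [a.act_star_corep _ hU]

end

section Order

variable {A B N : Type} [CStarAlgebra A] [PartialOrder A] [StarOrderedRing A]
  [CStarAlgebra B] [PartialOrder B] [StarOrderedRing B]

/-- Sums of squares vanish only if all terms vanish. -/
lemma sum_star_mul_eq_zero {J : Type} [Fintype J] {y : J → B}
    (h : ∑ t, star (y t) * y t = 0) (t : J) : y t = 0 := by
  have h1 := (Finset.sum_eq_zero_iff_of_nonneg
    (fun t _ => star_mul_self_nonneg (y t))).1 h t (Finset.mem_univ _)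
  exact (CStarRing.star_mul_self_eq_zero_iff _).1 h1

/-- The key lemma: a vector state `v` for which `T` is a multiple of the identity is a
multiplicative vector. -/
lemma KP.key [Fintype N] [DecidableEq N] {T : B → N → N → B} (hT : KP T)
    (h1 : ∀ p q, T 1 p q = if p = q then 1 else 0) (v : N → ℂ) (c : ℂ)
    (hv : ∀ x, ∑ p, ∑ q, (star (v p) * v q) • T x p q = c • x) (x : B) (p : N) :
    ∑ q, v q • T x p q = v p • x := by
  obtain ⟨J, hJ, Z, hZ⟩ := hT Bool (fun b => if b then x else 1)
  set ζ : J → Bool → B := fun t b => ∑ q, v q • Z t b q with hζ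
  have hpair : ∀ b b', ∑ p, ∑ q, (star (v p) * v q) •
      (∑ t, star (Z t b p) * Z t b' q) = ∑ t, star (ζ t b) * ζ t b' := by
    intro b b'
    simp only [hζ, Finset.smul_sum, star_sum, Finset.sum_mul, Finset.mul_sum, star_smul,
      smul_mul_smul_comm]
    calc _ = ∑ p, ∑ t, ∑ q, (star (v p) * v q) • (star (Z t b p) * Z t b' q) :=
          Finset.sum_congr rfl fun p _ => Finset.sum_comm
      _ = ∑ t, ∑ p, ∑ q, (star (v p) * v q) • (star (Z t b p) * Z t b' q) :=
          Finset.sum_comm
      _ = _ := Finset.sum_congr rfl fun t _ => Finset.sum_comm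
  have h00 : ∑ t, star (ζ t false) * ζ t false = c • (1 : B) := by
    rw [← hpair, ← hv 1]
    simp only [← hZ]
    simp
  have h01 : ∑ t, star (ζ t false) * ζ t true = c • x := by
    rw [← hpair, ← hv x]
    simp only [← hZ]
    simp
  have h10 : ∑ t, star (ζ t true) * ζ t false = c • star x := by
    rw [← hpair, ← hv (star x)]
    simp only [← hZ]
    simp
  have h11 : ∑ t, star (ζ t true) * ζ t true = c • (star x * x) := by
    rw [← hpair, ← hv (star x * x)]
    simp only [← hZ]
    simp
  have hsum : ∑ t, star (ζ t true - ζ t false * x) * (ζ t true - ζ t false * x) = 0 := by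
    calc ∑ t, star (ζ t true - ζ t false * x) * (ζ t true - ζ t false * x)
        = ∑ t, star (ζ t true) * ζ t true - (∑ t, star (ζ t true) * ζ t false) * x -
            star x * (∑ t, star (ζ t false) * ζ t true) +
            star x * (∑ t, star (ζ t false) * ζ t false) * x := by
          simp only [Finset.sum_mul, Finset.mul_sum, ← Finset.sum_sub_distrib,
            ← Finset.sum_add_distrib]
          refine Finset.sum_congr rfl fun t _ => ?_
          simp only [star_sub, star_mul, mul_sub, sub_mul, mul_assoc]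
          abel
      _ = 0 := by
          rw [h00, h01, h10, h11]
          simp
  have hz : ∀ t, ζ t true = ζ t false * x := fun t =>
    sub_eq_zero.1 (sum_star_mul_eq_zero hsum t)
  have hrow : ∀ b, ∑ q, v q • (∑ t, star (Z t false p) * Z t b q) =
      ∑ t, star (Z t false p) * ζ t b := by
    intro b
    simp only [hζ, Finset.smul_sum, Finset.mul_sum, mul_smul_comm]
    rw [Finset.sum_comm]
  have e1 : ∑ q, v q • T x p q = ∑ t, star (Z t false p) * ζ t true := by
    rw [← hrow]
    simp only [← hZ]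
    simp
  have e2 : v p • (1 : B) = ∑ t, star (Z t false p) * ζ t false := by
    rw [← hrow]
    simp only [← hZ]
    simp [h1]
  rw [e1]
  calc ∑ t, star (Z t false p) * ζ t true = (∑ t, star (Z t false p) * ζ t false) * x := by
        simp only [hz, Finset.sum_mul, mul_assoc]
    _ = v p • x := by
        rw [← e2, smul_mul_assoc, one_mul]

/-- The adjoint version of the key lemma. -/
lemma KP.key' [Fintype N] [DecidableEq N] {T : B → N → N → B} (hT : KP T)
    (h1 : ∀ p q, T 1 p q = if p = q then 1 else 0) (v : N → ℂ) (c : ℂ)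
    (hv : ∀ x, ∑ p, ∑ q, (star (v p) * v q) • T x p q = c • x) (x : B) (q : N) :
    ∑ p, star (v p) • T x p q = star (v q) • x := by
  have h := congrArg star (hT.key h1 v c hv (star x) q)
  rw [star_sum, star_smul, star_star] at h
  rw [← h]
  refine Finset.sum_congr rfl fun p _ => ?_
  rw [star_smul, hT.star_apply, star_star]

/-- A rank one positive matrix. -/
lemma nonneg_rank_one {R : Type} [Fintype R] [DecidableEq R] (x : R → A) :
    0 ≤ (CStarMatrix.ofMatrix (fun r s => star (x r) * x s) : CStarMatrix R R A) := by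
  rcases isEmpty_or_nonempty R with hR | ⟨⟨r₀⟩⟩
  · have : (CStarMatrix.ofMatrix (fun r s => star (x r) * x s) : CStarMatrix R R A) = 0 := by
      ext r
      exact hR.elim r
    rw [this]
  · set Y : CStarMatrix R R A := CStarMatrix.ofMatrix
      (fun r s => if r = r₀ then x s else 0) with hY
    have : (CStarMatrix.ofMatrix (fun r s => star (x r) * x s) : CStarMatrix R R A) =
        star Y * Y := by
      ext r s
      rw [CStarMatrix.mul_apply]
      simp only [CStarMatrix.star_apply]
      have hYa : ∀ a b, Y a b = if a = r₀ then x b else 0 := fun a b => rfl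
      simp only [hYa]
      rw [Finset.sum_eq_single r₀]
      · rw [if_pos rfl, if_pos rfl]
        rfl
      · intro b _ hb
        simp [hb]
      · simp
    rw [this]
    exact star_mul_self_nonneg Y

/-- Positive elements are finite sums of squares. -/
lemma exists_sum_sq {D : Type} [NonUnitalRing D] [StarRing D] [PartialOrder D]
    [StarOrderedRing D] {x : D} (hx : 0 ≤ x) :
    ∃ (J : Type) (_ : Fintype J) (Y : J → D), x = ∑ t, star (Y t) * Y t := by
  rw [StarOrderedRing.nonneg_iff] at hx
  induction hx using AddSubmonoid.closure_induction with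
  | mem x hx =>
    obtain ⟨y, rfl⟩ := hx
    exact ⟨Unit, inferInstance, fun _ => y, by simp⟩
  | zero => exact ⟨Empty, inferInstance, fun t => t.elim, by simp⟩
  | add x y _ _ hx hy =>
    obtain ⟨J, hJ, Y, rfl⟩ := hx
    obtain ⟨J', hJ', Y', rfl⟩ := hy
    exact ⟨J ⊕ J', inferInstance, Sum.elim Y Y', by simp⟩

omit [PartialOrder A] [StarOrderedRing A] in
lemma cstarMatrix_sum_apply {R ι : Type} (s : Finset ι) (f : ι → CStarMatrix R R A) (i j : R) :
    (∑ c ∈ s, f c) i j = ∑ c ∈ s, f c i j := Matrix.sum_apply i j s f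

/-- Completely positive maps have factorisable kernels. -/
lemma kp_of_cp (φ : A →CP B) : KP fun x (_ _ : Unit) => φ x := by
  classical
  intro R _ x
  have h1 := CompletelyPositiveMap.map_cstarMatrix_nonneg φ _ (nonneg_rank_one x)
  obtain ⟨J, hJ, Y, hY⟩ := exists_sum_sq h1
  refine ⟨J × R, inferInstance, fun t r _ => Y t.1 t.2 r, fun r s _ _ => ?_⟩
  have h2 := congrFun (congrFun hY r) s
  rw [cstarMatrix_sum_apply] at h2
  simp only [CStarMatrix.mul_apply, CStarMatrix.star_apply] at h2
  rw [Fintype.sum_prod_type]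
  exact h2

/-- Linear maps with factorisable kernels are completely positive. -/
lemma cp_of_kp (φ : A →ₗ[ℂ] B) (h : KP fun x (_ _ : Unit) => φ x) (k : ℕ)
    (M : CStarMatrix (Fin k) (Fin k) A) (hM : 0 ≤ M) : 0 ≤ M.map φ := by
  obtain ⟨I, hI, Y, hY⟩ := exists_sum_sq hM
  choose J hJ Z hZ using fun c : I × Fin k => h (Fin k) (fun r => Y c.1 c.2 r)
  have : M.map φ = ∑ c, ∑ t, (CStarMatrix.ofMatrix
      (fun r s => star (Z c t r ()) * Z c t s ()) : CStarMatrix (Fin k) (Fin k) B) := by
    ext r s
    rw [CStarMatrix.map_apply, hY, cstarMatrix_sum_apply]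
    simp only [CStarMatrix.mul_apply, CStarMatrix.star_apply, map_sum, cstarMatrix_sum_apply]
    rw [Fintype.sum_prod_type]
    refine Finset.sum_congr rfl fun c _ => Finset.sum_congr rfl fun d _ => ?_
    exact hZ (c, d) r s () ()
  rw [this]
  exact Finset.sum_nonneg fun c _ => Finset.sum_nonneg fun t _ => nonneg_rank_one _

/-- The completely positive map given by a linear map with factorisable kernels. -/
noncomputable def cpOfKP (φ : A →ₗ[ℂ] B) (h : KP fun x (_ _ : Unit) => φ x) : A →CP B :=
  { φ with map_cstarMatrix_nonneg' := cp_of_kp φ h }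

@[simp]
lemma cpOfKP_apply (φ : A →ₗ[ℂ] B) (h : KP fun x (_ _ : Unit) => φ x) (x : A) :
    cpOfKP φ h x = φ x := rfl

end Order

end Pool.Agent.Work.MP_88ec28_an
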