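import Pool.Agent.Work.MP_88ec28_an.KP

/-!
# Bounded families in C*-algebras
-/

namespace Pool.Agent.Work.MP_88ec28_an

open scoped TensorProduct CStarAlgebra ENNReal
open CQG

section Generic

variable {D : Type} [CStarAlgebra D] [PartialOrder D] [StarOrderedRing D]

lemma norm_le_of_star_mul_le {y : D} {c : ℝ} (hc : 0 ≤ c)
    (h : star y * y ≤ algebraMap ℝ D (c ^ 2)) : ‖y‖ ≤ c := by
  have h1 : ‖star y * y‖ ≤ ‖algebraMap ℝ D (c ^ 2)‖ :=
    CStarAlgebra.norm_le_norm_of_nonneg_of_le (star_mul_self_nonneg y) h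
  rw [CStarRing.norm_star_mul_self] at h1
  rcases subsingleton_or_nontrivial D with hD | hD
  · have : y = 0 := Subsingleton.elim _ _
    rw [this, norm_zero]
    exact hc
  · rw [norm_algebraMap', Real.norm_of_nonneg (by positivity)] at h1
    nlinarith [norm_nonneg y]

lemma norm_sq_le_of_star_mul_le {y z : D} (h : star y * y ≤ z) : ‖y‖ ^ 2 ≤ ‖z‖ := by
  have h1 : ‖star y * y‖ ≤ ‖z‖ :=
    CStarAlgebra.norm_le_norm_of_nonneg_of_le (star_mul_self_nonneg y) h
  rw [CStarRing.norm_star_mul_self] at h1
  rw [sq]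
  exact h1

lemma exists_star_mul_self {x : D} (hx : 0 ≤ x) : ∃ y : D, x = star y * y := by
  obtain ⟨y, hy⟩ := CStarAlgebra.nonneg_iff_eq_star_mul_self.1 hx
  exact ⟨y, hy⟩

lemma star_mul_self_le_norm_sq (x : D) : star x * x ≤ algebraMap ℝ D (‖x‖ ^ 2) := by
  have h := CStarAlgebra.star_mul_le_algebraMap_norm_sq (a := x)
  exact h

end Generic

section Linf

variable {I : Type} {B : I → Type} [∀ i, Nontrivial (B i)] [∀ i, CStarAlgebra (B i)]
  [∀ i, PartialOrder (B i)] [∀ i, StarOrderedRing (B i)]

noncomputable instance instCStarAlgebraLp : CStarAlgebra (lp B ∞) where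

variable [PartialOrder (lp B ∞)] [StarOrderedRing (lp B ∞)]

/-- A matrix over bounded families is positive if it is positive componentwise. -/
lemma nonneg_of_blocks {k : ℕ} (N : CStarMatrix (Fin k) (Fin k) (lp B ∞))
    (hN : ∀ i, 0 ≤ (N.map (fun f : lp B ∞ => f i) : CStarMatrix (Fin k) (Fin k) (B i))) :
    0 ≤ N := by
  choose Q hQ using fun i => exists_star_mul_self (hN i)
  have hentry : ∀ i r s, (N r s : lp B ∞) i = ∑ t, star (Q i t r) * Q i t s := by
    intro i r s
    have h := congrFun (congrFun (hQ i) r) s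
    rw [CStarMatrix.mul_apply] at h
    simp only [CStarMatrix.star_apply] at h
    exact h
  have hbound : ∀ i t s, ‖Q i t s‖ ^ 2 ≤ ‖N s s‖ := by
    intro i t s
    have h1 : star (Q i t s) * Q i t s ≤ (N s s : lp B ∞) i := by
      rw [hentry]
      exact Finset.single_le_sum (f := fun t => star (Q i t s) * Q i t s)
        (fun t _ => star_mul_self_nonneg _) (Finset.mem_univ t)
    exact (norm_sq_le_of_star_mul_le h1).trans (lp.norm_apply_le_norm (by simp) _ _)
  have hmem : ∀ t s, Memℓp (fun i => Q i t s) ∞ := by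
    intro t s
    refine memℓp_infty ⟨‖N s s‖ + 1, ?_⟩
    rintro _ ⟨i, rfl⟩
    have := hbound i t s
    have h2 := norm_nonneg (N s s)
    nlinarith [norm_nonneg (Q i t s)]
  set Y : CStarMatrix (Fin k) (Fin k) (lp B ∞) :=
    CStarMatrix.ofMatrix fun t s => ⟨fun i => Q i t s, hmem t s⟩ with hY
  have hYa : ∀ t s i, (Y t s : lp B ∞) i = Q i t s := fun t s i => rfl
  have : N = star Y * Y := by
    ext r s i
    rw [hentry, CStarMatrix.mul_apply, lp.coeFn_sum, Finset.sum_apply]
    refine Finset.sum_congr rfl fun t _ => ?_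
    rw [lp.infty_coeFn_mul, Pi.mul_apply, CStarMatrix.star_apply, lp.star_apply, hYa, hYa]
  rw [this]
  exact star_mul_self_nonneg Y

end Linf

section UCP

variable {E N : Type} [CStarAlgebra E] [PartialOrder E] [StarOrderedRing E] [Fintype N]
  [DecidableEq N]

omit [PartialOrder E] [StarOrderedRing E] in
/-- Schwarz inequality: the defect of multiplicativity has a factorisation. -/
lemma KP.schwarz {T : E → N → N → E} (hT : KP T) (h1 : ∀ p q, T 1 p q = if p = q then 1 else 0)
    {R : Type} [Fintype R] (x : R → E) : ∃ (J : Type) (_ : Fintype J) (W : J → R → N → E),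
    ∀ r s p q, T (star (x r) * x s) p q =
      ∑ m, star (T (x r) m p) * T (x s) m q + ∑ t, star (W t r p) * W t s q := by
  obtain ⟨J, hJ, Z, hZ⟩ := hT (Option R) (fun o => o.elim 1 x)
  have hss : ∀ r s p q, T (star (x r) * x s) p q =
      ∑ t, star (Z t (some r) p) * Z t (some s) q := fun r s => hZ (some r) (some s)
  have h0s : ∀ s p q, T (x s) p q = ∑ t, star (Z t none p) * Z t (some s) q := by
    intro s p q
    have := hZ none (some s) p q
    simpa using this
  have hs0 : ∀ s p q, star (T (x s) q p) = ∑ t, star (Z t (some s) p) * Z t none q := by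
    intro s p q
    rw [h0s]
    simp [star_sum]
  have h00 : ∀ p q, (∑ t, star (Z t none p) * Z t none q) = if p = q then 1 else 0 := by
    intro p q
    have := hZ none none p q
    rw [← h1]
    simpa using this.symm
  refine ⟨J, hJ, fun t r p => Z t (some r) p - ∑ m, Z t none m * T (x r) m p, ?_⟩
  intro r s p q
  have e1 : ∑ t, star (Z t (some r) p) * ∑ m, Z t none m * T (x s) m q =
      ∑ m, star (T (x r) m p) * T (x s) m q := by
    simp only [hs0, Finset.mul_sum, Finset.sum_mul, mul_assoc]
    rw [Finset.sum_comm]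
  have e2 : ∑ t, star (∑ m, Z t none m * T (x r) m p) * Z t (some s) q =
      ∑ m, star (T (x r) m p) * T (x s) m q := by
    simp only [star_sum, star_mul, Finset.sum_mul, mul_assoc]
    rw [Finset.sum_comm]
    refine Finset.sum_congr rfl fun m _ => ?_
    rw [← Finset.mul_sum, ← h0s]
  have e3 : ∑ t, star (∑ m, Z t none m * T (x r) m p) * ∑ m, Z t none m * T (x s) m q =
      ∑ m, star (T (x r) m p) * T (x s) m q := by
    calc ∑ t, star (∑ m, Z t none m * T (x r) m p) * ∑ m, Z t none m * T (x s) m q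
        = ∑ m, ∑ m', star (T (x r) m p) * ((∑ t, star (Z t none m) * Z t none m') *
            T (x s) m' q) := by
          simp only [star_sum, star_mul, Finset.sum_mul, Finset.mul_sum, mul_assoc]
          calc _ = ∑ t, ∑ m', ∑ m, star (T (x r) m' p) * (star (Z t none m') *
                (Z t none m * T (x s) m q)) := Finset.sum_congr rfl fun t _ => Finset.sum_comm
            _ = ∑ m', ∑ t, ∑ m, star (T (x r) m' p) * (star (Z t none m') *
                (Z t none m * T (x s) m q)) := Finset.sum_comm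
            _ = _ := Finset.sum_congr rfl fun m' _ => Finset.sum_comm
      _ = _ := by
          simp [h00]
  have e4 : ∑ t, star (Z t (some r) p - ∑ m, Z t none m * T (x r) m p) *
      (Z t (some s) q - ∑ m, Z t none m * T (x s) m q) =
      ∑ t, star (Z t (some r) p) * Z t (some s) q -
        ∑ m, star (T (x r) m p) * T (x s) m q := by
    have : ∀ t, star (Z t (some r) p - ∑ m, Z t none m * T (x r) m p) *
        (Z t (some s) q - ∑ m, Z t none m * T (x s) m q) =
        star (Z t (some r) p) * Z t (some s) q -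
        star (Z t (some r) p) * (∑ m, Z t none m * T (x s) m q) -
        star (∑ m, Z t none m * T (x r) m p) * Z t (some s) q +
        star (∑ m, Z t none m * T (x r) m p) * (∑ m, Z t none m * T (x s) m q) := by
      intro t
      rw [star_sub, sub_mul, mul_sub, mul_sub]
      abel
    simp only [this, Finset.sum_add_distrib, Finset.sum_sub_distrib, e1, e2, e3]
    abel
  beta_reduce
  rw [e4, hss]
  abel

/-- Unital maps with factorisable kernels are contractive. -/
lemma KP.norm_le {T : E → N → N → E} (hT : KP T)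
    (h1 : ∀ p q, T 1 p q = if p = q then 1 else 0)
    (hadd : ∀ p q, ∃ f : E →ₗ[ℂ] E, ∀ x, T x p q = f x) (x : E) :
    ‖(CStarMatrix.ofMatrix (T x) : CStarMatrix N N E)‖ ≤ ‖x‖ := by
  obtain ⟨J, hJ, W, hW⟩ := hT.schwarz h1 (fun _ : Unit => x)
  refine norm_le_of_star_mul_le (norm_nonneg _) ?_
  -- first inequality
  have h2 : star (CStarMatrix.ofMatrix (T x) : CStarMatrix N N E) * CStarMatrix.ofMatrix (T x) ≤
      CStarMatrix.ofMatrix (T (star x * x)) := by
    have h3 : (CStarMatrix.ofMatrix (T (star x * x)) : CStarMatrix N N E) =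
        star (CStarMatrix.ofMatrix (T x) : CStarMatrix N N E) * CStarMatrix.ofMatrix (T x) +
          ∑ t, (CStarMatrix.ofMatrix (fun p q => star (W t () p) * W t () q) :
            CStarMatrix N N E) := by
      ext p q
      rw [CStarMatrix.add_apply, CStarMatrix.mul_apply, cstarMatrix_sum_apply]
      simp only [CStarMatrix.star_apply]
      exact hW () () p q
    rw [h3]
    exact le_add_of_nonneg_right (Finset.sum_nonneg fun t _ => nonneg_rank_one _)
  refine h2.trans ?_
  -- second inequality
  obtain ⟨J', hJ', Y, hY⟩ := exists_sum_sq (sub_nonneg.2 (star_mul_self_le_norm_sq x))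
  choose J'' hJ'' Z hZ using fun t : J' => hT Unit (fun _ => Y t)
  have h4 : (CStarMatrix.ofMatrix (T (algebraMap ℝ E (‖x‖ ^ 2) - star x * x)) :
      CStarMatrix N N E) = ∑ t, ∑ t', (CStarMatrix.ofMatrix
        (fun p q => star (Z t t' () p) * Z t t' () q) : CStarMatrix N N E) := by
    ext p q
    simp only [cstarMatrix_sum_apply]
    obtain ⟨f, hf⟩ := hadd p q
    have : (CStarMatrix.ofMatrix (T (algebraMap ℝ E (‖x‖ ^ 2) - star x * x)) :
      CStarMatrix N N E) p q = f (algebraMap ℝ E (‖x‖ ^ 2) - star x * x) := hf _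
    rw [this, hY, map_sum]
    refine Finset.sum_congr rfl fun t _ => ?_
    rw [← hf]
    exact hZ t () () p q
  have h5 : (CStarMatrix.ofMatrix (T (algebraMap ℝ E (‖x‖ ^ 2) - star x * x)) :
      CStarMatrix N N E) = algebraMap ℝ (CStarMatrix N N E) (‖x‖ ^ 2) -
        CStarMatrix.ofMatrix (T (star x * x)) := by
    ext p q
    obtain ⟨f, hf⟩ := hadd p q
    have e1 : (CStarMatrix.ofMatrix (T (algebraMap ℝ E (‖x‖ ^ 2) - star x * x)) :
      CStarMatrix N N E) p q = f (algebraMap ℝ E (‖x‖ ^ 2) - star x * x) := hf _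
    have e2 : (CStarMatrix.ofMatrix (T (star x * x)) : CStarMatrix N N E) p q =
      f (star x * x) := hf _
    have e3 : f (algebraMap ℝ E (‖x‖ ^ 2)) = if p = q then algebraMap ℝ E (‖x‖ ^ 2) else 0 := by
      have e4 : algebraMap ℝ E (‖x‖ ^ 2) = ((‖x‖ ^ 2 : ℝ) : ℂ) • (1 : E) := by
        rw [Algebra.algebraMap_eq_smul_one]
        exact (Complex.coe_smul _ _).symm
      rw [e4, map_smul, ← hf, h1]
      split_ifs <;> simp
    rw [e1, map_sub, e3, CStarMatrix.sub_apply, e2]
    congr 1
  have h7 : 0 ≤ (CStarMatrix.ofMatrix (T (algebraMap ℝ E (‖x‖ ^ 2) - star x * x)) :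
      CStarMatrix N N E) := by
    rw [h4]
    exact Finset.sum_nonneg fun t _ => Finset.sum_nonneg fun t' _ => nonneg_rank_one _
  exact sub_nonneg.1 (le_of_le_of_eq h7 h5)

end UCP

end Pool.Agent.Work.MP_88ec28_an
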