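import Pool.Agent.Work.MP_88ec28_an.Trans

/-!
# The equivariant unital completely positive map to the bounded families
-/

namespace Pool.Agent.Work.MP_88ec28_an

open scoped TensorProduct CStarAlgebra ENNReal
open CQG

variable {G : CQG} {S : Set G.Irr} {E : Type} [CStarAlgebra E] [PartialOrder E]
  [StarOrderedRing E] [Nontrivial E]

section Rep

variable (S)

/-- The representations in the left coset of `γ`. -/
def cosetSet (γ : G.Irr) : Set G.Irr := {α | kap S (G.conj α) γ ≠ 0}

open Classical in
/-- A choice of an element of a set. -/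
noncomputable def pick (G : CQG) (T : Set G.Irr) : G.Irr :=
  if h : T.Nonempty then h.some else G.one

/-- The representative of the left coset of `γ`. -/
noncomputable def rep (γ : G.Irr) : G.Irr := pick G (cosetSet S γ)

variable {S}

lemma kap_rep_ne (hS : G.IsQuantumSubgroup S) (γ : G.Irr) :
    kap S (G.conj (rep S γ)) γ ≠ 0 := by
  have h : (cosetSet S γ).Nonempty := ⟨γ, kap_self_ne hS _⟩
  have h1 : rep S γ = h.some := by
    rw [rep, pick, dif_pos h]
  have h2 : h.some ∈ cosetSet S γ := h.some_mem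
  rw [← h1] at h2
  exact h2

lemma rep_eq (hS : G.IsQuantumSubgroup S) {l : G.H} (hl : l ∈ G.coeff S) (γ : G.Irr)
    (i j : Fin (G.dim γ)) (γ' : G.Irr) (m n : Fin (G.dim γ'))
    (hne : G.basis.coord ⟨γ', (m, n)⟩ (l * G.u γ i j) ≠ 0) : rep S γ' = rep S γ := by
  have : cosetSet S γ' = cosetSet S γ := by
    ext α
    rw [cosetSet, cosetSet, Set.mem_ofPred_eq, Set.mem_ofPred_eq,
      kap_coset hS (G.conj α) hl γ i j γ' m n hne]
  rw [rep, rep, this]

end Rep

/-- The map before normalisation. -/
noncomputable def pre (a : QAction G S E) {α : G.Irr} (c : Conj G α) :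
    E →ₗ[ℂ] G.H →ₗ[ℂ] E where
  toFun x := ∑ p, ∑ q, c.ρ q p • (a.act x ∘ₗ LinearMap.mulRight ℂ (G.u c.β p q))
  map_add' x y := by
    refine LinearMap.ext fun h => ?_
    simp only [LinearMap.sum_apply, LinearMap.smul_apply, LinearMap.comp_apply,
      LinearMap.add_apply, map_add, smul_add, Finset.sum_add_distrib]
  map_smul' t x := by
    refine LinearMap.ext fun h => ?_
    simp only [LinearMap.sum_apply, LinearMap.smul_apply, LinearMap.comp_apply,
      map_smul, RingHom.id_apply, Finset.smul_sum]
    refine Finset.sum_congr rfl fun p _ => Finset.sum_congr rfl fun q _ => ?_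
    rw [smul_comm]

omit [PartialOrder E] [StarOrderedRing E] [Nontrivial E] in
lemma pre_apply (a : QAction G S E) {α : G.Irr} (c : Conj G α) (x : E) (h : G.H) :
    pre a c x h = ∑ p, ∑ q, c.ρ q p • a.act x (h * G.u c.β p q) := by
  simp [pre]

omit [PartialOrder E] [StarOrderedRing E] [Nontrivial E] in
lemma pre_mul (hS : G.IsQuantumSubgroup S) (a : QAction G S E) {α : G.Irr} (c : Conj G α)
    (x : E) {l : G.H} (hl : l ∈ G.coeff S) (h : G.H) :
    pre a c x (l * h) = pre a c (a.act x l) h := by
  simp only [pre_apply, mul_assoc, a.act_mul hS x hl]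

omit [PartialOrder E] [StarOrderedRing E] [Nontrivial E] in
lemma pre_one (a : QAction G S E) {α : G.Irr} (c : Conj G α) (h : G.H) :
    pre a c 1 h = cf S c h • (1 : E) := by
  simp only [pre_apply, a.act_one, cf_apply, smul_smul, Finset.sum_smul]

omit [PartialOrder E] [StarOrderedRing E] [Nontrivial E] in
lemma kp_pre (a : QAction G S E) {α : G.Irr} (c : Conj G α) (γ : G.Irr) :
    KP fun x i j => pre a c x (G.u γ i j) := by
  classical
  have hU := isUCorep_tens (isUCorep_u γ) (isUCorep_u c.β)
  have h1 : ∀ k : Fin (G.dim α), KP fun x (i j : Fin (G.dim γ)) =>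
      ∑ p, ∑ q, (star (if p.1 = i then star (c.F' k p.2) else 0) *
        (if q.1 = j then star (c.F' k q.2) else 0)) •
          a.act x (G.tens (G.u γ) (G.u c.β) p q) := fun k =>
    (kp_act a hU).compress
      (fun (p : Fin (G.dim γ) × Fin (G.dim c.β)) j => if p.1 = j then star (c.F' k p.2) else 0)
  have h2 := KP.sum Finset.univ (fun k _ => h1 k)
  have h3 : (fun x (i j : Fin (G.dim γ)) => pre a c x (G.u γ i j)) =
      fun x i j => ∑ k : Fin (G.dim α), ∑ p : Fin (G.dim γ) × Fin (G.dim c.β),
        ∑ q : Fin (G.dim γ) × Fin (G.dim c.β),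
        (star (if p.1 = i then star (c.F' k p.2) else 0) *
        (if q.1 = j then star (c.F' k q.2) else 0)) •
          a.act x (G.tens (G.u γ) (G.u c.β) p q) := by
    funext x i j
    rw [pre_apply]
    simp only [Conj.ρ, Finset.sum_smul, Fintype.sum_prod_type]
    calc _ = ∑ p, ∑ k, ∑ q, (c.F' k p * star (c.F' k q)) •
          a.act x (G.u γ i j * G.u c.β p q) :=
          Finset.sum_congr rfl fun p _ => Finset.sum_comm
      _ = ∑ k, ∑ p, ∑ q, (c.F' k p * star (c.F' k q)) •
          a.act x (G.u γ i j * G.u c.β p q) := Finset.sum_comm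
      _ = _ := by
          refine Finset.sum_congr rfl fun k _ => ?_
          symm
          rw [Finset.sum_eq_single i]
          · refine Finset.sum_congr rfl fun p _ => ?_
            rw [Finset.sum_eq_single j]
            · refine Finset.sum_congr rfl fun q _ => ?_
              simp [tens]
            · intro b _ hb
              simp [hb]
            · simp
          · intro b _ hb
            simp [hb]
          · simp
  rw [h3]
  exact h2

/-- The normalised coefficients. -/
noncomputable def phiCoeff (a : QAction G S E) (γ : G.Irr) : E →ₗ[ℂ] G.H →ₗ[ℂ] E :=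
  (kap S (G.conj (rep S γ)) γ)⁻¹ • pre a (G.conj (rep S γ))

/-- The normalised block. -/
noncomputable def phiLin (a : QAction G S E) (γ : G.Irr) : E →ₗ[ℂ] Blk G E γ where
  toFun x := CStarMatrix.ofMatrix fun i j => phiCoeff a γ x (G.u γ i j)
  map_add' x y := by
    refine CStarMatrix.ext fun i j => ?_
    exact LinearMap.congr_fun (map_add (phiCoeff a γ) x y) (G.u γ i j)
  map_smul' t x := by
    refine CStarMatrix.ext fun i j => ?_
    exact LinearMap.congr_fun (map_smul (phiCoeff a γ) t x) (G.u γ i j)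

omit [PartialOrder E] [StarOrderedRing E] [Nontrivial E] in
lemma phiLin_apply (a : QAction G S E) (γ : G.Irr) (x : E) (i j : Fin (G.dim γ)) :
    phiLin a γ x i j =
      (kap S (G.conj (rep S γ)) γ)⁻¹ • pre a (G.conj (rep S γ)) x (G.u γ i j) := rfl

lemma kp_phiLin (a : QAction G S E) (γ : G.Irr) :
    KP fun x i j => phiLin a γ x i j := by
  obtain ⟨t, ht, hk⟩ := kap_nonneg (S := S) (G.conj (rep S γ)) γ
  have h := (kp_pre a (G.conj (rep S γ)) γ).smul (inv_nonneg.2 ht)
  have h2 : (fun x (i j : Fin (G.dim γ)) => phiLin a γ x i j) = fun x i j =>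
      ((t⁻¹ : ℝ) : ℂ) • pre a (G.conj (rep S γ)) x (G.u γ i j) := by
    funext x i j
    rw [phiLin_apply, hk]
    push_cast
    rfl
  rw [h2]
  exact h

lemma phiLin_one (hS : G.IsQuantumSubgroup S) (a : QAction G S E) (γ : G.Irr)
    (i j : Fin (G.dim γ)) : phiLin a γ 1 i j = if i = j then 1 else 0 := by
  rw [phiLin_apply, pre_one, cf_u]
  by_cases hij : i = j
  · rw [if_pos hij, if_pos hij, smul_smul, inv_mul_cancel₀ (kap_rep_ne hS γ), one_smul]
  · rw [if_neg hij, if_neg hij, zero_smul, smul_zero]

lemma norm_phiLin_le (hS : G.IsQuantumSubgroup S) (a : QAction G S E) (γ : G.Irr) (x : E) :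
    ‖phiLin a γ x‖ ≤ ‖x‖ := by
  refine (kp_phiLin a γ).norm_le (phiLin_one hS a γ) (fun p q => ?_) x
  exact ⟨(kap S (G.conj (rep S γ)) γ)⁻¹ • (LinearMap.applyₗ (G.u γ p q) ∘ₗ
    pre a (G.conj (rep S γ))), fun x => rfl⟩

/-- The map to the bounded families. -/
noncomputable def phi (hS : G.IsQuantumSubgroup S) (a : QAction G S E) :
    E →ₗ[ℂ] Linf G E where
  toFun x := ⟨fun γ => phiLin a γ x, memℓp_infty ⟨‖x‖, by
    rintro _ ⟨γ, rfl⟩
    exact norm_phiLin_le hS a γ x⟩⟩
  map_add' x y := by
    refine lp.ext (funext fun γ => ?_)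
    exact map_add (phiLin a γ) x y
  map_smul' t x := by
    refine lp.ext (funext fun γ => ?_)
    exact map_smul (phiLin a γ) t x

lemma phi_apply (hS : G.IsQuantumSubgroup S) (a : QAction G S E) (x : E) (γ : G.Irr) :
    phi hS a x γ = phiLin a γ x := rfl

omit [PartialOrder E] [StarOrderedRing E] [Nontrivial E] in
lemma eq_on_support {f g : G.H →ₗ[ℂ] E} (y : G.H)
    (h : ∀ γ m n, G.basis.coord ⟨γ, (m, n)⟩ y ≠ 0 → f (G.u γ m n) = g (G.u γ m n)) :
    f y = g y := by
  rw [← G.basis.linearCombination_repr y, Finsupp.linearCombination_apply, Finsupp.sum,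
    map_sum, map_sum]
  refine Finset.sum_congr rfl fun b hb => ?_
  rw [map_smul, map_smul, G.basis_apply]
  obtain ⟨γ, m, n⟩ := b
  rw [h γ m n]
  rw [Module.Basis.coord_apply]
  exact Finsupp.mem_support_iff.1 hb

lemma ev_phi_mul (hS : G.IsQuantumSubgroup S) (a : QAction G S E) (x : E) {l : G.H}
    (hl : l ∈ G.coeff S) (h : G.H) :
    ev (phi hS a x) (l * h) = ev (phi hS a (a.act x l)) h := by
  have : ev (phi hS a x) ∘ₗ LinearMap.mulLeft ℂ l = ev (phi hS a (a.act x l)) := by
    refine hom_ext fun γ i j => ?_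
    rw [LinearMap.comp_apply, LinearMap.mulLeft_apply]
    have h1 : ev (phi hS a x) (l * G.u γ i j) =
        ((kap S (G.conj (rep S γ)) γ)⁻¹ • pre a (G.conj (rep S γ)) x) (l * G.u γ i j) := by
      refine eq_on_support _ fun γ' m n hne => ?_
      rw [ev_u, phi_apply, phiLin_apply, LinearMap.smul_apply, rep_eq hS hl γ i j γ' m n hne,
        kap_coset hS _ hl γ i j γ' m n hne]
    rw [h1, LinearMap.smul_apply, pre_mul hS a _ x hl, ev_u, phi_apply, phiLin_apply]
  exact LinearMap.congr_fun this h

omit [Nontrivial E] in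
/-- Matrix valued linear maps with factorisable kernels are completely positive. -/
lemma cp_of_kp_matrix {N : Type} [Fintype N] [DecidableEq N] [Nonempty N]
    (T : E →ₗ[ℂ] CStarMatrix N N E) (hT : KP fun x i j => T x i j) (k : ℕ)
    (M : CStarMatrix (Fin k) (Fin k) E) (hM : 0 ≤ M) : 0 ≤ M.map T := by
  obtain ⟨I, hI, Y, hY⟩ := exists_sum_sq hM
  choose J hJ Z hZ using fun c : I × Fin k => hT (Fin k) (fun r => Y c.1 c.2 r)
  obtain ⟨i₀⟩ := (inferInstance : Nonempty N)
  set W : (c : I × Fin k) → J c → Fin k → CStarMatrix N N E := fun c t s =>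
    CStarMatrix.ofMatrix fun i j => if i = i₀ then Z c t s j else 0 with hW
  have hWW : ∀ c t r s, star (W c t r) * W c t s =
      CStarMatrix.ofMatrix (fun i j => star (Z c t r i) * Z c t s j) := by
    intro c t r s
    refine CStarMatrix.ext fun i j => ?_
    rw [CStarMatrix.mul_apply]
    simp only [CStarMatrix.star_apply]
    have hWa : ∀ s a b, W c t s a b = if a = i₀ then Z c t s b else 0 := fun s a b => rfl
    simp only [hWa]
    rw [Finset.sum_eq_single i₀]
    · rw [if_pos rfl, if_pos rfl]
      rfl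
    · intro b _ hb
      rw [if_neg hb, if_neg hb, mul_zero]
    · intro hb
      exact absurd (Finset.mem_univ _) hb
  have : M.map T = ∑ c, ∑ t, (CStarMatrix.ofMatrix
      (fun r s => star (W c t r) * W c t s) :
        CStarMatrix (Fin k) (Fin k) (CStarMatrix N N E)) := by
    refine CStarMatrix.ext fun r s => ?_
    rw [CStarMatrix.map_apply, hY, cstarMatrix_sum_apply]
    simp only [CStarMatrix.mul_apply, CStarMatrix.star_apply, map_sum, cstarMatrix_sum_apply]
    rw [Fintype.sum_prod_type]
    refine Finset.sum_congr rfl fun c _ => Finset.sum_congr rfl fun d _ => ?_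
    refine CStarMatrix.ext fun i j => ?_
    rw [cstarMatrix_sum_apply]
    refine (hZ (c, d) r s i j).trans ?_
    refine Finset.sum_congr rfl fun t _ => ?_
    have h1 : (CStarMatrix.ofMatrix (fun r s => star (W (c, d) t r) * W (c, d) t s) :
        CStarMatrix (Fin k) (Fin k) (CStarMatrix N N E)) r s =
        star (W (c, d) t r) * W (c, d) t s := rfl
    rw [h1, hWW]
    rfl
  rw [this]
  exact Finset.sum_nonneg fun c _ => Finset.sum_nonneg fun t _ => nonneg_rank_one _

/-- The completely positive map to the bounded families. -/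
noncomputable def phiCP (hS : G.IsQuantumSubgroup S) (a : QAction G S E) : E →CP Linf G E :=
  { phi hS a with
    map_cstarMatrix_nonneg' := by
      intro k M hM
      refine nonneg_of_blocks _ fun γ => ?_
      have : Nonempty (Fin (G.dim γ)) := ⟨⟨0, G.dim_pos γ⟩⟩
      exact cp_of_kp_matrix (phiLin a γ) (kp_phiLin a γ) k M hM }

lemma phiCP_apply (hS : G.IsQuantumSubgroup S) (a : QAction G S E) (x : E) :
    phiCP hS a x = phi hS a x := rfl

lemma phiCP_one (hS : G.IsQuantumSubgroup S) (a : QAction G S E) : phiCP hS a 1 = 1 := by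
  refine linf_ext fun γ i j => ?_
  rw [phiCP_apply, ev_u, phi_apply, phiLin_one hS, ev_one, counit_u]
  split_ifs <;> simp

lemma phiCP_equivariant (hS : G.IsQuantumSubgroup S) (a : QAction G S E) :
    IsEquivariant a ((transAct G E).restrict hS) (phiCP hS a) := by
  intro γ x i j
  refine linf_ext fun δ m n => ?_
  have h1 : ev (phiCP hS a (a.comp γ x i j)) (G.u δ m n) =
      ev (phi hS a (a.act x (G.u γ i j))) (G.u δ m n) := by
    rw [a.act_u]
    rfl
  have h2 : ev (((transAct G E).restrict hS).comp γ (phiCP hS a x) i j) (G.u δ m n) =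
      ev (transU (γ : G.Irr) i j (phi hS a x)) (G.u δ m n) := rfl
  rw [h1, h2, ev_transU, ev_phi_mul hS a x (u_mem_coeff γ.2 _ _)]

end Pool.Agent.Work.MP_88ec28_an
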