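import Pool.Agent.Work.MP_88ec28_an.Family

/-!
# The relations satisfied by the family
-/

namespace Pool.Agent.Work.MP_88ec28_an

open scoped TensorProduct CStarAlgebra ENNReal ComplexOrder
open CQG

variable {G : CQG} {S : Set G.Irr}
variable {E : Type} [CStarAlgebra E] [PartialOrder E] [StarOrderedRing E]

/-- Rigidity and the key lemma. -/
lemma IsBoundary.key [Nontrivial E] {a : QAction G S E} (hb : IsBoundary a) {N : Type} [Fintype N]
    [DecidableEq N] {T : E → N → N → E} (hT : KP T) (f : N → N → E →ₗ[ℂ] E)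
    (hf : ∀ x p q, T x p q = f p q x) (h1 : ∀ p q, T 1 p q = if p = q then 1 else 0)
    (v : N → ℂ) (he : Eqv a (∑ p, ∑ q, (star (v p) * v q) • f p q)) :
    (∀ x p, ∑ q, v q • T x p q = v p • x) ∧
      (∀ x q, ∑ p, star (v p) • T x p q = star (v q) • x) := by
  by_cases hv : v = 0
  · subst hv
    simp
  obtain ⟨p₀, hp₀⟩ : ∃ p, v p ≠ 0 := by
    by_contra h
    push Not at h
    exact hv (funext h)
  set c : ℝ := ∑ p, ‖v p‖ ^ 2 with hc
  have hcpos : 0 < c :=
    lt_of_lt_of_le (by positivity) (Finset.single_le_sum (f := fun p => ‖v p‖ ^ 2)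
      (fun p _ => by positivity) (Finset.mem_univ p₀))
  have hc0 : (c : ℂ) ≠ 0 := by exact_mod_cast hcpos.ne'
  have hsum : ∑ p, star (v p) * v p = (c : ℂ) := by
    rw [hc]
    push_cast
    refine Finset.sum_congr rfl fun p _ => ?_
    exact Complex.conj_mul' (v p)
  set θ : E →ₗ[ℂ] E := ((c⁻¹ : ℝ) : ℂ) • ∑ p, ∑ q, (star (v p) * v q) • f p q with hθ
  have hθa : ∀ x, θ x = ((c⁻¹ : ℝ) : ℂ) • ∑ p, ∑ q, (star (v p) * v q) • T x p q := by
    intro x
    simp only [hθ, LinearMap.smul_apply, LinearMap.sum_apply, hf]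
  have hk : KP fun x (_ _ : Unit) => θ x := by
    have h2 := (hT.compress (fun p (_ : Unit) => v p)).smul (t := c⁻¹) (by positivity)
    have h3 : (fun x (_ _ : Unit) => θ x) = fun x (_ _ : Unit) =>
        ((c⁻¹ : ℝ) : ℂ) • ∑ p, ∑ q, (star (v p) * v q) • T x p q := by
      funext x _ _
      exact hθa x
    rw [h3]
    exact h2
  have hθ1 : θ 1 = 1 := by
    rw [hθa]
    simp only [h1]
    have : ∑ p, ∑ q, (star (v p) * v q) • (if p = q then (1 : E) else 0) = (c : ℂ) • 1 := by
      simp only [smul_ite, smul_zero, Finset.sum_ite_eq, Finset.mem_univ, if_true]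
      rw [← Finset.sum_smul, hsum]
    rw [this, smul_smul]
    push_cast
    rw [inv_mul_cancel₀ hc0, one_smul]
  have hrig := fun x => hb.rigid hk hθ1 (he.smul _) x
  have hall : ∀ x, ∑ p, ∑ q, (star (v p) * v q) • T x p q = (c : ℂ) • x := by
    intro x
    have h4 := hrig x
    rw [hθa] at h4
    have h5 := congrArg (fun y => (c : ℂ) • y) h4
    simp only [smul_smul] at h5
    rw [← h5]
    push_cast
    rw [mul_inv_cancel₀ hc0, one_smul]
  exact ⟨fun x p => hT.key h1 v c hall x p, fun x q => hT.key' h1 v c hall x q⟩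

omit [PartialOrder E] [StarOrderedRing E] in
/-- Inversion of a matrix of scalars. -/
lemma invert {N N' : Type} [Fintype N] [Fintype N'] [DecidableEq N] (F : N' → N → ℂ)
    (F' : N → N' → ℂ) (hF : ∀ k l, ∑ p, F' k p * F p l = if k = l then 1 else 0)
    (X : N → E) (i : N) (y : E) (h : ∀ t, ∑ s, F t s • X s = F t i • y) (k : N) :
    X k = if k = i then y else 0 := by
  have h1 : X k = ∑ s, (∑ t, F' k t * F t s) • X s := by
    simp [hF]
  have h2 : ∑ s, (∑ t, F' k t * F t s) • X s = ∑ t, F' k t • ∑ s, F t s • X s := by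
    simp only [Finset.sum_smul, Finset.smul_sum, smul_smul]
    rw [Finset.sum_comm]
  rw [h1, h2]
  simp only [h, smul_smul, ← Finset.sum_smul, hF]
  split_ifs <;> simp

namespace Fam

variable {a : QAction G S E} (P Q : Fam a)

omit [PartialOrder E] [StarOrderedRing E] in
lemma sum_F (c : Σ α : G.Irr, Conj G α) (y : Fin (G.dim c.1) → E) (p : Fin (G.dim c.2.β)) :
    ∑ k, ∑ q, c.2.F q k • P.B (y k) (G.u c.2.β p q) =
      ∑ t, c.2.F p t • ∑ k, P.B (y k) (star (G.u c.1 t k)) := by
  calc _ = ∑ k, P.B (y k) (∑ q, c.2.F q k • G.u c.2.β p q) := by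
        simp only [map_sum, map_smul]
    _ = ∑ k, ∑ t, c.2.F p t • P.B (y k) (star (G.u c.1 t k)) := by
        simp only [c.2.u_F, map_sum, map_smul]
    _ = _ := by
        rw [Finset.sum_comm]
        simp only [Finset.smul_sum]

omit [PartialOrder E] [StarOrderedRing E] in
lemma sum_F' {α : G.Irr} (c : Conj G α) (x : E) (q : Fin (G.dim c.β)) (j : Fin (G.dim α)) :
    ∑ i, ∑ p, c.F' i p • P.B (P.B x (G.u c.β p q)) (G.u α i j) =
      ∑ l, c.F' l q • ∑ i, P.B (P.B x (star (G.u α i l))) (G.u α i j) := by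
  calc _ = ∑ i, P.B (P.B x (∑ p, c.F' i p • G.u c.β p q)) (G.u α i j) := by
        simp only [map_sum, map_smul, LinearMap.sum_apply, LinearMap.smul_apply]
    _ = ∑ i, ∑ l, c.F' l q • P.B (P.B x (star (G.u α i l))) (G.u α i j) := by
        simp only [c.F'_u, map_sum, map_smul, LinearMap.sum_apply, LinearMap.smul_apply]
    _ = _ := by
        rw [Finset.sum_comm]
        simp only [Finset.smul_sum]

/-- A family of maps with the commutation properties of `h ↦ (x ↦ B x h)`. -/
structure _root_.Pool.Agent.Work.MP_88ec28_an.Good (a : QAction G S E)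
    (Ω : G.H →ₗ[ℂ] E →ₗ[ℂ] E) : Prop where
  right : ∀ h x, ∀ r ∈ G.coeff S, a.act (Ω h x) r = Ω (h * r) x
  left : ∀ h x, ∀ r ∈ G.coeff S, Ω (r * h) x = Ω h (a.act x r)

omit [PartialOrder E] [StarOrderedRing E] in
lemma good : Good a P.B.flip := ⟨fun h x r hr => P.right x h r hr,
  fun h x r hr => (P.left x r hr h).symm⟩

/-- The step. -/
noncomputable def step (Ω : G.H →ₗ[ℂ] E →ₗ[ℂ] E) (α : G.Irr) (i k : Fin (G.dim α)) :
    G.H →ₗ[ℂ] E →ₗ[ℂ] E :=
  LinearMap.mk₂ ℂ (fun h x => ∑ j, P.B (Ω (h * G.u α i j) x) (star (G.u α k j)))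
    (fun h h' x => by simp only [add_mul, map_add, LinearMap.add_apply, Finset.sum_add_distrib])
    (fun t h x => by simp only [smul_mul_assoc, map_smul, LinearMap.smul_apply,
      Finset.smul_sum])
    (fun h x x' => by simp only [map_add, LinearMap.add_apply, Finset.sum_add_distrib])
    (fun t h x => by simp only [map_smul, LinearMap.smul_apply, Finset.smul_sum])

omit [PartialOrder E] [StarOrderedRing E] in
lemma step_apply (Ω : G.H →ₗ[ℂ] E →ₗ[ℂ] E) (α : G.Irr) (i k : Fin (G.dim α)) (h : G.H)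
    (x : E) : P.step Ω α i k h x = ∑ j, P.B (Ω (h * G.u α i j) x) (star (G.u α k j)) := rfl

omit [PartialOrder E] [StarOrderedRing E] in
lemma good_step (hN : G.IsAdInvariant S) {Ω : G.H →ₗ[ℂ] E →ₗ[ℂ] E} (hΩ : Good a Ω)
    (α : G.Irr) (i k : Fin (G.dim α)) : Good a (P.step Ω α i k) := by
  constructor
  · intro h x r hr
    set rr : Fin (G.dim α) → Fin (G.dim α) → G.H := fun j s =>
      ∑ m, star (G.u α m j) * r * G.u α m s with hrr
    have hrm : ∀ j s, rr j s ∈ G.coeff S := fun j s => (hN α j s r hr).1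
    have e1 : ∀ j, star (G.u α k j) * r = ∑ s, rr j s * star (G.u α k s) := by
      intro j
      simp only [hrr, Finset.sum_mul]
      rw [Finset.sum_comm]
      calc star (G.u α k j) * r = ∑ m, star (G.u α m j) * r *
            (if m = k then 1 else 0) := by simp
        _ = _ := by
            refine Finset.sum_congr rfl fun m _ => ?_
            rw [← sum_u_mul_star, Finset.mul_sum]
            simp only [mul_assoc]
    have e2 : ∀ s, ∑ j, G.u α i j * rr j s = r * G.u α i s := by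
      intro s
      simp only [hrr, Finset.mul_sum]
      rw [Finset.sum_comm]
      calc _ = ∑ m, (∑ j, G.u α i j * star (G.u α m j)) * r * G.u α m s := by
            simp only [Finset.sum_mul, mul_assoc]
        _ = _ := by simp [sum_u_mul_star]
    rw [step_apply, step_apply, map_sum, LinearMap.sum_apply]
    calc ∑ j, a.act (P.B (Ω (h * G.u α i j) x) (star (G.u α k j))) r
        = ∑ j, ∑ s, P.B (Ω (h * (G.u α i j * rr j s)) x) (star (G.u α k s)) := by
          refine Finset.sum_congr rfl fun j _ => ?_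
          rw [P.right _ _ r hr, e1, map_sum]
          refine Finset.sum_congr rfl fun s _ => ?_
          rw [← P.left _ _ (hrm j s), hΩ.right _ _ _ (hrm j s), mul_assoc]
      _ = ∑ s, P.B (Ω (h * ∑ j, (G.u α i j * rr j s)) x) (star (G.u α k s)) := by
          rw [Finset.sum_comm]
          simp only [Finset.mul_sum, map_sum, LinearMap.sum_apply]
      _ = _ := by
          simp only [e2, mul_assoc]
  · intro h x r hr
    rw [step_apply, step_apply]
    refine Finset.sum_congr rfl fun j _ => ?_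
    rw [mul_assoc, hΩ.left _ _ r hr]

omit [PartialOrder E] [StarOrderedRing E] in
lemma _root_.Pool.Agent.Work.MP_88ec28_an.Good.eqv {Ω : G.H →ₗ[ℂ] E →ₗ[ℂ] E}
    (hΩ : Good a Ω) : Eqv a (Ω 1) := by
  intro x l hl
  rw [← hΩ.left 1 x l hl, hΩ.right 1 x l hl, mul_one, one_mul]

/-- The map of relation C. -/
noncomputable def C (α γ : G.Irr) (i t : Fin (G.dim α)) (m s : Fin (G.dim γ)) : E →ₗ[ℂ] E :=
  Q.step (Q.step P.B.flip γ m s) α i t 1

omit [PartialOrder E] [StarOrderedRing E] in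
lemma C_apply (α γ : G.Irr) (i t : Fin (G.dim α)) (m s : Fin (G.dim γ)) (x : E) :
    C P Q α γ i t m s x = ∑ k, Q.B (∑ l, Q.B (P.B x (G.u α i k * G.u γ m l))
      (star (G.u γ s l))) (star (G.u α t k)) := by
  rw [C, step_apply]
  refine Finset.sum_congr rfl fun k _ => ?_
  rw [step_apply]
  simp only [one_mul, LinearMap.flip_apply]

omit [PartialOrder E] [StarOrderedRing E] in
lemma eqv_C (hN : G.IsAdInvariant S) (α γ : G.Irr) (i t : Fin (G.dim α))
    (m s : Fin (G.dim γ)) : Eqv a (C P Q α γ i t m s) :=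
  (Q.good_step hN (Q.good_step hN P.good γ m s) α i t).eqv

/-- The map of relation B. -/
noncomputable def Ψ (α : G.Irr) (l j : Fin (G.dim α)) : E →ₗ[ℂ] E :=
  ∑ i, P.B.flip (G.u α i j) ∘ₗ P.B.flip (star (G.u α i l))

omit [PartialOrder E] [StarOrderedRing E] in
lemma Ψ_apply (α : G.Irr) (l j : Fin (G.dim α)) (x : E) :
    P.Ψ α l j x = ∑ i, P.B (P.B x (star (G.u α i l))) (G.u α i j) := by
  simp only [Ψ, LinearMap.sum_apply, LinearMap.comp_apply, LinearMap.flip_apply]

omit [PartialOrder E] [StarOrderedRing E] in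
lemma eqv_Ψ (hN : G.IsAdInvariant S) (α : G.Irr) (l j : Fin (G.dim α)) :
    Eqv a (P.Ψ α l j) := by
  intro x r hr
  set rr : Fin (G.dim α) → Fin (G.dim α) → G.H := fun m k =>
    ∑ n, G.u α m n * r * star (G.u α k n) with hrr
  have hrm : ∀ m k, rr m k ∈ G.coeff S := fun m k => (hN α m k r hr).2
  have e1 : ∀ k, r * star (G.u α k l) = ∑ m, star (G.u α m l) * rr m k := by
    intro k
    simp only [hrr, Finset.mul_sum]
    rw [Finset.sum_comm]
    calc r * star (G.u α k l) = ∑ n, (if l = n then 1 else 0) * r * star (G.u α k n) := by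
          simp
      _ = _ := by
          refine Finset.sum_congr rfl fun n _ => ?_
          rw [← sum_star_mul_u, Finset.sum_mul, Finset.sum_mul]
          simp only [mul_assoc]
  have e2 : ∀ m, ∑ k, rr m k * G.u α k j = G.u α m j * r := by
    intro m
    simp only [hrr, Finset.sum_mul]
    rw [Finset.sum_comm]
    calc _ = ∑ n, G.u α m n * r * ∑ k, star (G.u α k n) * G.u α k j := by
          simp only [Finset.mul_sum, mul_assoc]
      _ = _ := by simp [sum_star_mul_u]
  rw [Ψ_apply, Ψ_apply, map_sum, LinearMap.sum_apply]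
  calc ∑ k, P.B (P.B (a.act x r) (star (G.u α k l))) (G.u α k j)
      = ∑ k, ∑ m, P.B (P.B x (star (G.u α m l))) (rr m k * G.u α k j) := by
        refine Finset.sum_congr rfl fun k _ => ?_
        rw [P.left _ _ hr, e1, map_sum, map_sum, LinearMap.sum_apply]
        refine Finset.sum_congr rfl fun m _ => ?_
        rw [← P.right _ _ _ (hrm m k), P.left _ _ (hrm m k)]
    _ = ∑ m, P.B (P.B x (star (G.u α m l))) (∑ k, rr m k * G.u α k j) := by
        rw [Finset.sum_comm]
        simp only [map_sum]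
    _ = _ := by
        refine Finset.sum_congr rfl fun m _ => ?_
        rw [e2, P.right _ _ _ hr]

/-- Relation B. -/
lemma relB [Nontrivial E] (hb : IsBoundary a) (hN : G.IsAdInvariant S) (α : G.Irr) (x : E)
    (l j : Fin (G.dim α)) :
    ∑ i, P.B (P.B x (star (G.u α i l))) (G.u α i j) = if l = j then x else 0 := by
  set c := G.conj α
  set T : E → Fin (G.dim c.β) × Fin (G.dim α) → Fin (G.dim c.β) × Fin (G.dim α) → E :=
    fun x p q => P.B (P.B x (G.u c.β p.1 q.1)) (G.u α p.2 q.2) with hT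
  have hk : KP T := (P.kp (isUCorep_u c.β)).comp (P.kp (isUCorep_u α))
    (fun p q => ⟨(P.B.flip (G.u α p q)).toAddMonoidHom, fun x => rfl⟩)
  set f : Fin (G.dim c.β) × Fin (G.dim α) → Fin (G.dim c.β) × Fin (G.dim α) → E →ₗ[ℂ] E :=
    fun p q => P.B.flip (G.u α p.2 q.2) ∘ₗ P.B.flip (G.u c.β p.1 q.1) with hf
  have h1 : ∀ p q, T 1 p q = if p = q then 1 else 0 := by
    rintro ⟨p, i⟩ ⟨q, j⟩
    simp only [hT, P.one_u]
    by_cases h : p = q
    · subst h
      simp [P.one_u]
    · simp [h]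
  set v : Fin (G.dim c.β) × Fin (G.dim α) → ℂ := fun p => star (c.F' p.2 p.1) with hv
  have hcol : ∀ (x : E) q, ∑ p, star (v p) • T x p q = ∑ l, c.F' l q.1 • P.Ψ α l q.2 x := by
    intro x q
    have h2 := P.sum_F' c x q.1 q.2
    simp only [Ψ_apply]
    rw [← h2, Fintype.sum_prod_type, Finset.sum_comm]
    simp only [hv, hT, star_star]
  have he : Eqv a (∑ p, ∑ q, (star (v p) * v q) • f p q) := by
    have h3 : (∑ p, ∑ q, (star (v p) * v q) • f p q) =
        ∑ q, v q • ∑ l, c.F' l q.1 • P.Ψ α l q.2 := by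
      rw [Finset.sum_comm]
      refine Finset.sum_congr rfl fun q _ => ?_
      refine LinearMap.ext fun x => ?_
      have h4 := hcol x q
      simp only [LinearMap.sum_apply, LinearMap.smul_apply]
      rw [← h4, Finset.smul_sum]
      refine Finset.sum_congr rfl fun p _ => ?_
      rw [smul_smul, mul_comm]
      rfl
    rw [h3]
    exact Eqv.sum _ fun q _ => (Eqv.sum _ fun l _ => (P.eqv_Ψ hN α l q.2).smul _).smul _
  have hkey := (hb.key hk f (fun x p q => rfl) h1 v he).2 x
  have h5 : ∀ q, ∑ l, c.F' l q • P.Ψ α l j x = c.F' j q • x := by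
    intro q
    have h6 := hkey (q, j)
    rw [hcol] at h6
    simpa only [hv, star_star] using h6
  have h7 := invert (fun q l => c.F' l q) (fun l q => c.F q l) (fun k l => by
    have h8 := c.F'F l k
    simp only [mul_comm (c.F _ _)]
    rw [h8]
    simp [eq_comm]) (fun l => P.Ψ α l j x) j x h5 l
  rw [Ψ_apply] at h7
  exact h7

/-- Relation C. -/
lemma relC [Nontrivial E] (hb : IsBoundary a) (hN : G.IsAdInvariant S) (α γ : G.Irr) (x : E)
    (i t : Fin (G.dim α)) (m s : Fin (G.dim γ)) :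
    ∑ k, Q.B (∑ l, Q.B (P.B x (G.u α i k * G.u γ m l)) (star (G.u γ s l)))
      (star (G.u α t k)) = if s = m then (if t = i then x else 0) else 0 := by
  set c1 := G.conj α
  set c2 := G.conj γ
  set T : E → ((Fin (G.dim α) × Fin (G.dim γ)) × Fin (G.dim c2.β)) × Fin (G.dim c1.β) →
      ((Fin (G.dim α) × Fin (G.dim γ)) × Fin (G.dim c2.β)) × Fin (G.dim c1.β) → E :=
    fun x p q => Q.B (Q.B (P.B x (G.tens (G.u α) (G.u γ) p.1.1 q.1.1))
      (G.u c2.β p.1.2 q.1.2)) (G.u c1.β p.2 q.2) with hT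
  have hk : KP T := ((P.kp (isUCorep_tens (isUCorep_u α) (isUCorep_u γ))).comp
    (Q.kp (isUCorep_u c2.β))
      (fun p q => ⟨(Q.B.flip (G.u c2.β p q)).toAddMonoidHom, fun x => rfl⟩)).comp
    (Q.kp (isUCorep_u c1.β))
      (fun p q => ⟨(Q.B.flip (G.u c1.β p q)).toAddMonoidHom, fun x => rfl⟩)
  set f : ((Fin (G.dim α) × Fin (G.dim γ)) × Fin (G.dim c2.β)) × Fin (G.dim c1.β) →
      ((Fin (G.dim α) × Fin (G.dim γ)) × Fin (G.dim c2.β)) × Fin (G.dim c1.β) → E →ₗ[ℂ] E :=
    fun p q => Q.B.flip (G.u c1.β p.2 q.2) ∘ₗ Q.B.flip (G.u c2.β p.1.2 q.1.2) ∘ₗ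
      P.B.flip (G.tens (G.u α) (G.u γ) p.1.1 q.1.1) with hf
  have h1 : ∀ p q, T 1 p q = if p = q then 1 else 0 := by
    rintro ⟨⟨⟨i, m⟩, s⟩, t⟩ ⟨⟨⟨i', m'⟩, s'⟩, t'⟩
    simp only [hT, tens, P.one, Bialgebra.counit_mul, counit_u]
    by_cases hi : i = i'
    · by_cases hm : m = m'
      · by_cases hs : s = s'
        · subst hi hm hs
          simp [Q.one_u]
        · subst hi hm
          simp [Q.one_u, hs]
      · simp [hm]
    · simp [hi]
  set v : ((Fin (G.dim α) × Fin (G.dim γ)) × Fin (G.dim c2.β)) × Fin (G.dim c1.β) → ℂ :=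
    fun p => c1.F p.2 p.1.1.1 * c2.F p.1.2 p.1.1.2 with hv
  have hrow : ∀ (x : E) i m s t, ∑ q, v q • T x (((i, m), s), t) q =
      ∑ t', c1.F t t' • ∑ s', c2.F s s' • C P Q α γ i t' m s' x := by
    intro x i m s t
    have h2 := Q.sum_F ⟨α, c1⟩ (fun k => ∑ l, ∑ q, c2.F q l •
      Q.B (P.B x (G.u α i k * G.u γ m l)) (G.u c2.β s q)) t
    have h3 : ∀ k, (∑ l, ∑ q, c2.F q l •
        Q.B (P.B x (G.u α i k * G.u γ m l)) (G.u c2.β s q)) =
        ∑ s', c2.F s s' • ∑ l, Q.B (P.B x (G.u α i k * G.u γ m l)) (star (G.u γ s' l)) :=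
      fun k => Q.sum_F ⟨γ, c2⟩ (fun l => P.B x (G.u α i k * G.u γ m l)) s
    have h4 : ∑ t', c1.F t t' • ∑ s', c2.F s s' • C P Q α γ i t' m s' x =
        ∑ t', c1.F t t' • ∑ k, Q.B (∑ l, ∑ q, c2.F q l •
          Q.B (P.B x (G.u α i k * G.u γ m l)) (G.u c2.β s q)) (star (G.u α t' k)) := by
      refine Finset.sum_congr rfl fun t' _ => ?_
      congr 1
      simp only [h3, C_apply]
      simp only [map_sum, map_smul, LinearMap.sum_apply, LinearMap.smul_apply,
        Finset.smul_sum]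
      rw [Finset.sum_comm]
    rw [h4]
    refine Eq.trans ?_ h2
    simp only [Fintype.sum_prod_type, hv, hT, tens]
    refine Finset.sum_congr rfl fun k _ => ?_
    simp only [map_sum, map_smul, LinearMap.sum_apply, LinearMap.smul_apply,
      Finset.smul_sum, smul_smul]
    calc _ = ∑ l, ∑ t', ∑ s', (c1.F t' k * c2.F s' l) •
          Q.B (Q.B (P.B x (G.u α i k * G.u γ m l)) (G.u c2.β s s')) (G.u c1.β t t') :=
          Finset.sum_congr rfl fun l _ => Finset.sum_comm
      _ = _ := Finset.sum_comm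
  have he : Eqv a (∑ p, ∑ q, (star (v p) * v q) • f p q) := by
    refine Eqv.sum _ fun p _ => ?_
    obtain ⟨⟨⟨i, m⟩, s⟩, t⟩ := p
    have h3 : (∑ q, (star (v (((i, m), s), t)) * v q) • f (((i, m), s), t) q) =
        star (v (((i, m), s), t)) • ∑ t', c1.F t t' • ∑ s', c2.F s s' •
          C P Q α γ i t' m s' := by
      refine LinearMap.ext fun x => ?_
      have h4 := hrow x i m s t
      simp only [LinearMap.sum_apply, LinearMap.smul_apply]
      rw [← h4, Finset.smul_sum]
      refine Finset.sum_congr rfl fun q _ => ?_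
      rw [smul_smul]
      rfl
    rw [h3]
    exact (Eqv.sum _ fun t' _ => (Eqv.sum _ fun s' _ =>
      (eqv_C P Q hN α γ i t' m s').smul _).smul _).smul _
  have hkey := (hb.key hk f (fun x p q => rfl) h1 v he).1 x
  have h5 : ∀ s t, ∑ t', c1.F t t' • ∑ s', c2.F s s' • C P Q α γ i t' m s' x =
      c1.F t i • (c2.F s m • x) := by
    intro s t
    have h6 := hkey (((i, m), s), t)
    rw [hrow] at h6
    rw [h6, smul_smul]
  have h7 : ∀ s, ∑ s', c2.F s s' • C P Q α γ i t m s' x =
      c2.F s m • (if t = i then x else 0) := by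
    intro s
    have h8 := invert c1.F c1.F' c1.F'F
      (fun t' => ∑ s', c2.F s s' • C P Q α γ i t' m s' x) i (c2.F s m • x) (h5 s) t
    beta_reduce at h8
    rw [h8]
    split_ifs <;> simp
  have h9 := invert c2.F c2.F' c2.F'F (fun s' => C P Q α γ i t m s' x) m _ h7 s
  beta_reduce at h9
  rw [C_apply] at h9
  exact h9

/-- Relation A. -/
lemma relA [Nontrivial E] (hb : IsBoundary a) (hN : G.IsAdInvariant S) (α : G.Irr) (x : E)
    (i t : Fin (G.dim α)) :
    ∑ k, Q.B (P.B x (G.u α i k)) (star (G.u α t k)) = if t = i then x else 0 := by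
  have h := relC P Q hb hN α G.one x i t ⟨0, G.dim_pos _⟩ ⟨0, G.dim_pos _⟩
  simp only [G.u_one, mul_one, star_one, Q.unit, Finset.sum_const, Finset.card_univ,
    Fintype.card_fin, G.dim_one, one_smul, if_true] at h
  exact h

end Fam

end Pool.Agent.Work.MP_88ec28_an
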