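import Pool.Agent.Work.MP_88ec28_an.Phi

/-!
# Rigidity and the existence of a bi-equivariant family
-/

namespace Pool.Agent.Work.MP_88ec28_an

open scoped TensorProduct CStarAlgebra ENNReal ComplexOrder
open CQG

variable {G : CQG} {S : Set G.Irr}

section Norm

variable {A B : Type} [CStarAlgebra A] [PartialOrder A] [StarOrderedRing A]
  [CStarAlgebra B] [PartialOrder B] [StarOrderedRing B]

/-- The embedding of `A` as one by one matrices. -/
noncomputable def oneHom (A : Type) [CStarAlgebra A] :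
    A →⋆ₙₐ[ℂ] CStarMatrix (Fin 1) (Fin 1) A where
  toFun x := CStarMatrix.ofMatrix (fun _ _ => x)
  map_smul' _ _ := rfl
  map_zero' := rfl
  map_add' _ _ := rfl
  map_mul' x y := by
    refine CStarMatrix.ext fun i j => ?_
    rw [CStarMatrix.mul_apply]
    simp
  map_star' x := by
    refine CStarMatrix.ext fun i j => ?_
    rw [CStarMatrix.star_apply]
    rfl

lemma norm_oneByOne (x : A) :
    ‖(CStarMatrix.ofMatrix (fun _ _ => x) : CStarMatrix (Fin 1) (Fin 1) A)‖ = ‖x‖ := by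
  have hinj : Function.Injective (oneHom A) := fun x y h =>
    congrFun (congrFun (congrArg (fun M : CStarMatrix (Fin 1) (Fin 1) A =>
      (fun i j => M i j)) h) 0) 0
  exact NonUnitalStarAlgHom.norm_map (oneHom A) hinj x

lemma norm_eq_of_isCompletelyIsometric {φ : A → B} (h : IsCompletelyIsometric φ) (x : A) :
    ‖φ x‖ = ‖x‖ := by
  have h1 := h 1 (CStarMatrix.ofMatrix (fun _ _ => x))
  rw [norm_oneByOne] at h1
  rw [← h1, ← norm_oneByOne (φ x)]
  rfl

end Norm

variable {E : Type} [CStarAlgebra E] [PartialOrder E] [StarOrderedRing E]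

/-- Equivariance of a linear self map. -/
def Eqv (a : QAction G S E) (θ : E →ₗ[ℂ] E) : Prop :=
  ∀ x, ∀ l ∈ G.coeff S, θ (a.act x l) = a.act (θ x) l

omit [PartialOrder E] [StarOrderedRing E] in
lemma Eqv.isEquivariant {a : QAction G S E} {θ : E →ₗ[ℂ] E} (h : Eqv a θ) :
    IsEquivariant a a θ := by
  intro γ x i j
  have := h x _ (u_mem_coeff γ.2 i j)
  rwa [a.act_u, a.act_u] at this

omit [PartialOrder E] [StarOrderedRing E] in
lemma Eqv.comp {a : QAction G S E} {θ θ' : E →ₗ[ℂ] E} (h : Eqv a θ) (h' : Eqv a θ') :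
    Eqv a (θ ∘ₗ θ') := by
  intro x l hl
  rw [LinearMap.comp_apply, h' x l hl, h _ l hl]
  rfl

omit [PartialOrder E] [StarOrderedRing E] in
lemma Eqv.smul {a : QAction G S E} {θ : E →ₗ[ℂ] E} (h : Eqv a θ) (c : ℂ) :
    Eqv a (c • θ) := by
  intro x l hl
  rw [LinearMap.smul_apply, LinearMap.smul_apply, h x l hl, map_smul]
  rfl

omit [PartialOrder E] [StarOrderedRing E] in
lemma Eqv.sum {a : QAction G S E} {ι : Type} (s : Finset ι) {θ : ι → E →ₗ[ℂ] E}
    (h : ∀ i ∈ s, Eqv a (θ i)) : Eqv a (∑ i ∈ s, θ i) := by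
  intro x l hl
  rw [LinearMap.sum_apply, LinearMap.sum_apply, map_sum, LinearMap.sum_apply]
  exact Finset.sum_congr rfl fun i hi => h i hi x l hl

omit [PartialOrder E] [StarOrderedRing E] in
lemma eqv_id {a : QAction G S E} : Eqv a LinearMap.id := fun _ _ _ => rfl

lemma IsBoundary.norm_eq [Nontrivial E] {a : QAction G S E} (hb : IsBoundary a) {θ : E →ₗ[ℂ] E}
    (hk : KP fun x (_ _ : Unit) => θ x) (h1 : θ 1 = 1) (he : Eqv a θ) (x : E) :
    ‖θ x‖ = ‖x‖ :=
  norm_eq_of_isCompletelyIsometric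
    (hb E a (cpOfKP θ hk) h1 he.isEquivariant) x

omit [PartialOrder E] [StarOrderedRing E] in
lemma kp_pow {θ : E →ₗ[ℂ] E} (hk : KP fun x (_ _ : Unit) => θ x) (n : ℕ) :
    KP fun x (_ _ : Unit) => (θ ^ n) x := by
  induction n with
  | zero =>
    intro R _ x
    exact ⟨Unit, inferInstance, fun _ r _ => x r, fun r s _ _ => by simp⟩
  | succ n ih =>
    have h := hk.comp_scalar ih (fun _ _ => ⟨(θ ^ n).toAddMonoidHom, fun x => rfl⟩)
    have h2 : (fun x (_ _ : Unit) => (θ ^ (n + 1)) x) = fun x (_ _ : Unit) => (θ ^ n) (θ x) := by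
      funext x _ _
      rw [pow_succ]
      rfl
    rw [h2]
    exact h

/-- Rigidity of a boundary. -/
lemma IsBoundary.rigid [Nontrivial E] {a : QAction G S E} (hb : IsBoundary a) {θ : E →ₗ[ℂ] E}
    (hk : KP fun x (_ _ : Unit) => θ x) (h1 : θ 1 = 1) (he : Eqv a θ) (x : E) :
    θ x = x := by
  have hpow1 : ∀ n : ℕ, (θ ^ n) 1 = 1 := by
    intro n
    induction n with
    | zero => simp
    | succ n ih => rw [pow_succ, Module.End.mul_apply, h1, ih]
  have hpowe : ∀ n : ℕ, Eqv a (θ ^ n) := by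
    intro n
    induction n with
    | zero => exact eqv_id
    | succ n ih => rw [pow_succ]; exact ih.comp he
  have key : ∀ n : ℕ, 0 < n → (n : ℝ) * ‖x - θ x‖ ≤ 2 * ‖x‖ := by
    intro n hn
    set sn : E →ₗ[ℂ] E := ∑ i ∈ Finset.range n, θ ^ i with hsn
    have hn0 : (n : ℂ) ≠ 0 := by exact_mod_cast hn.ne'
    set τ : E →ₗ[ℂ] E := (((n : ℝ)⁻¹ : ℝ) : ℂ) • sn with hτ
    have hτk : KP fun x (_ _ : Unit) => τ x := by
      have h2 := (KP.sum (Finset.range n) (fun i _ => kp_pow hk i)).smul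
        (t := (n : ℝ)⁻¹) (by positivity)
      have h3 : (fun x (_ _ : Unit) => τ x) = fun x (_ _ : Unit) =>
          (((n : ℝ)⁻¹ : ℝ) : ℂ) • ∑ i ∈ Finset.range n, (θ ^ i) x := by
        funext x _ _
        simp [hτ, hsn]
      rw [h3]
      exact h2
    have hτ1 : τ 1 = 1 := by
      have h4 : sn 1 = (n : ℂ) • (1 : E) := by
        rw [hsn, LinearMap.sum_apply]
        simp only [hpow1]
        simp [Nat.cast_smul_eq_nsmul]
      rw [hτ, LinearMap.smul_apply, h4, smul_smul]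
      push_cast
      rw [inv_mul_cancel₀ hn0, one_smul]
    have hτe : Eqv a τ := (Eqv.sum _ fun i _ => hpowe i).smul _
    have h5 := hb.norm_eq hτk hτ1 hτe (x - θ x)
    have h6 : sn (x - θ x) = x - (θ ^ n) x := by
      have h7 := geom_sum_mul_neg (θ : Module.End ℂ E) n
      have h8 := LinearMap.congr_fun h7 x
      exact h8
    rw [hτ, LinearMap.smul_apply, h6, norm_smul, Complex.norm_real, norm_inv] at h5
    have h9 : ‖x - (θ ^ n) x‖ ≤ 2 * ‖x‖ := by
      have h10 := hb.norm_eq (kp_pow hk n) (hpow1 n) (hpowe n) x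
      calc ‖x - (θ ^ n) x‖ ≤ ‖x‖ + ‖(θ ^ n) x‖ := norm_sub_le _ _
        _ = 2 * ‖x‖ := by rw [h10]; ring
    rw [← h5, Real.norm_natCast]
    have hn' : (0 : ℝ) < n := by exact_mod_cast hn
    rw [← mul_assoc, mul_inv_cancel₀ hn'.ne', one_mul]
    exact h9
  have h0 : ‖x - θ x‖ = 0 := by
    by_contra hne
    have hpos : 0 < ‖x - θ x‖ := lt_of_le_of_ne (norm_nonneg _) (Ne.symm hne)
    obtain ⟨n, hn⟩ := exists_nat_gt (2 * ‖x‖ / ‖x - θ x‖)
    have hn0 : 0 < n := by
      by_contra h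
      have : n = 0 := by omega
      rw [this] at hn
      have : 0 ≤ 2 * ‖x‖ / ‖x - θ x‖ := by positivity
      push_cast at hn
      linarith
    rw [div_lt_iff₀ hpos] at hn
    exact absurd (key n hn0) (not_le.2 hn)
  exact (sub_eq_zero.1 (norm_eq_zero.1 h0)).symm

section Triv

/-- The trivial action on the complex numbers. -/
noncomputable def trivAct (hS : G.IsQuantumSubgroup S) : QAction G S ℂ where
  comp γ := ⟨Algebra.ofId ℂ (CStarMatrix (Fin (G.dim γ)) (Fin (G.dim γ)) ℂ), fun z => by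
    refine CStarMatrix.ext fun i j => ?_
    rw [CStarMatrix.star_apply]
    change algebraMap ℂ (CStarMatrix (Fin (G.dim γ)) (Fin (G.dim γ)) ℂ) (star z) i j =
      star (algebraMap ℂ (CStarMatrix (Fin (G.dim γ)) (Fin (G.dim γ)) ℂ) z j i)
    rw [CStarMatrix.algebraMap_apply, CStarMatrix.algebraMap_apply]
    by_cases hij : i = j
    · rw [if_pos hij, if_pos hij.symm]
      rfl
    · rw [if_neg hij, if_neg (Ne.symm hij), star_zero]⟩
  coassoc γ γ' z i j k l := by
    have h1 : G.lin S (fun δ m n => (algebraMap ℂ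
        (CStarMatrix (Fin (G.dim δ)) (Fin (G.dim δ)) ℂ) z) m n) = z • G.eps S := by
      refine hom_ext fun δ m n => ?_
      by_cases hδ : δ ∈ S
      · rw [G.lin_u S (fun δ m n => (algebraMap ℂ
          (CStarMatrix (Fin (G.dim δ)) (Fin (G.dim δ)) ℂ) z) m n) ⟨δ, hδ⟩ m n,
          LinearMap.smul_apply, eps_u hδ, CStarMatrix.algebraMap_apply]
        split_ifs <;> simp
      · rw [G.lin_u_not S _ hδ, LinearMap.smul_apply, eps_u_not hδ, smul_zero]
    have h2 : G.eps S (G.u γ i j * G.u γ' k l) =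
        (if i = j then 1 else 0) * (if k = l then 1 else 0) := by
      rw [eps_mul hS (u_mem_coeff γ.2 _ _), counit_u, eps_u γ'.2]
    have h3 : ∀ (w : ℂ), (algebraMap ℂ (CStarMatrix (Fin (G.dim γ')) (Fin (G.dim γ')) ℂ) w) k l =
        if k = l then w else 0 := fun w => CStarMatrix.algebraMap_apply
    have h4 : (algebraMap ℂ (CStarMatrix (Fin (G.dim γ)) (Fin (G.dim γ)) ℂ) z) i j =
        if i = j then z else 0 := CStarMatrix.algebraMap_apply
    change (algebraMap ℂ (CStarMatrix (Fin (G.dim γ')) (Fin (G.dim γ')) ℂ)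
      ((algebraMap ℂ (CStarMatrix (Fin (G.dim γ)) (Fin (G.dim γ)) ℂ) z) i j)) k l =
      G.lin S (fun δ m n => (algebraMap ℂ
        (CStarMatrix (Fin (G.dim δ)) (Fin (G.dim δ)) ℂ) z) m n) (G.u γ i j * G.u γ' k l)
    rw [h1, h3, h4, LinearMap.smul_apply, h2]
    split_ifs <;> simp
  counit γ hγ z i j := by
    obtain ⟨γ, hγ'⟩ := γ
    subst hγ
    have hij : i = j := by
      have h1 : (i : ℕ) < G.dim G.one := i.2
      have h2 : (j : ℕ) < G.dim G.one := j.2
      have h3 := G.dim_one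
      exact Fin.ext (by omega)
    change (algebraMap ℂ (CStarMatrix (Fin (G.dim G.one)) (Fin (G.dim G.one)) ℂ) z) i j = z
    rw [CStarMatrix.algebraMap_apply, if_pos hij]
    rfl

variable {A : Type} [CStarAlgebra A] [PartialOrder A] [StarOrderedRing A]

/-- The embedding of the scalars. -/
noncomputable def scalHom (A : Type) [CStarAlgebra A] : ℂ →⋆ₐ[ℂ] A :=
  ⟨Algebra.ofId ℂ A, fun z => by
    change algebraMap ℂ A (star z) = star (algebraMap ℂ A z)
    rw [algebraMap_star_comm]⟩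

lemma scalHom_equivariant (hS : G.IsQuantumSubgroup S) (a : QAction G S A) :
    IsEquivariant (trivAct hS) a (scalHom A) := by
  intro γ z i j
  have h1 : scalHom A z = z • (1 : A) := Algebra.algebraMap_eq_smul_one z
  rw [h1, map_smul, map_one]
  change algebraMap ℂ A ((algebraMap ℂ (CStarMatrix (Fin (G.dim γ)) (Fin (G.dim γ)) ℂ) z) i j) =
    z • ((1 : CStarMatrix (Fin (G.dim γ)) (Fin (G.dim γ)) A) i j)
  rw [CStarMatrix.algebraMap_apply, CStarMatrix.one_apply]
  split_ifs
  · exact Algebra.algebraMap_eq_smul_one z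
  · simp

end Triv

end Pool.Agent.Work.MP_88ec28_an
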