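import Pool.Agent.Work.MP_88ec28_an.Family

/-!
# Sanity check: the trivial action on the complex numbers is a boundary
-/

namespace Pool.Agent.Work.MP_88ec28_an

open scoped TensorProduct CStarAlgebra ENNReal ComplexOrder
open CQG

variable {G : CQG} {S : Set G.Irr}

/-- The trivial action on the complex numbers is always a boundary. -/
lemma isBoundary_trivAct (hS : G.IsQuantumSubgroup S) : IsBoundary (trivAct hS) := by
  intro B _ _ _ _ b φ h1 _
  have h2 : (φ : ℂ → B) = (scalCP B : ℂ → B) := by
    funext z
    have h3 : φ z = z • φ 1 := by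
      rw [← map_smul, smul_eq_mul, mul_one]
    rw [h3, h1, scalCP_apply]
    exact (Algebra.algebraMap_eq_smul_one z).symm
  rw [h2]
  exact isCompletelyIsometric_scalCP B

end Pool.Agent.Work.MP_88ec28_an
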