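import Pool.Agent.Work.MP_88ec28_an.Linf

/-!
# The action of `Γ` by translation on the bounded families with values in a C*-algebra
-/

namespace Pool.Agent.Work.MP_88ec28_an

open scoped TensorProduct CStarAlgebra ENNReal
open CQG

variable (G : CQG) (E : Type) [CStarAlgebra E] [PartialOrder E] [StarOrderedRing E]
  [Nontrivial E]

/-- The matrix blocks. -/
abbrev Blk (γ : G.Irr) : Type := CStarMatrix (Fin (G.dim γ)) (Fin (G.dim γ)) E

instance instNontrivialBlk (γ : G.Irr) : Nontrivial (Blk G E γ) := by
  have : Nonempty (Fin (G.dim γ)) := ⟨⟨0, G.dim_pos γ⟩⟩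
  infer_instance

/-- The C*-algebra of bounded families. -/
abbrev Linf : Type := lp (Blk G E) ∞

noncomputable instance instCStarAlgebraLinf : CStarAlgebra (Linf G E) := instCStarAlgebraLp

noncomputable instance instPartialOrderLinf : PartialOrder (Linf G E) :=
  CStarAlgebra.spectralOrder _

instance instStarOrderedRingLinf : StarOrderedRing (Linf G E) :=
  CStarAlgebra.spectralOrderedRing _

variable {G E}

/-- The linear map `H → E` given by a bounded family. -/
noncomputable def ev (f : Linf G E) : G.H →ₗ[ℂ] E :=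
  G.lin Set.univ fun γ i j => (f : (γ : G.Irr) → Blk G E γ) γ i j

omit [Nontrivial E] in
lemma ev_u (f : Linf G E) (γ : G.Irr) (i j : Fin (G.dim γ)) : ev f (G.u γ i j) = f γ i j :=
  G.lin_u Set.univ (fun γ i j => (f : (γ : G.Irr) → Blk G E γ) γ i j) ⟨γ, trivial⟩ i j

omit [Nontrivial E] in
lemma linf_ext {f g : Linf G E} (h : ∀ γ i j, ev f (G.u γ i j) = ev g (G.u γ i j)) :
    f = g := by
  refine lp.ext (funext fun γ => ?_)
  ext i j
  rw [← ev_u, ← ev_u, h]

omit [Nontrivial E] in
lemma ev_add (f g : Linf G E) : ev (f + g) = ev f + ev g := by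
  refine hom_ext fun γ i j => ?_
  rw [LinearMap.add_apply, ev_u, ev_u, ev_u]
  rfl

lemma ev_smul (c : ℂ) (f : Linf G E) : ev (c • f) = c • ev f := by
  refine hom_ext fun γ i j => ?_
  rw [LinearMap.smul_apply, ev_u, ev_u]
  rfl

omit [Nontrivial E] in
lemma ev_mul (f g : Linf G E) {N : Type} [Fintype N] {U : N → N → G.H} (hU : IsCorep U)
    (p q : N) : ev (f * g) (U p q) = ∑ r, ev f (U p r) * ev g (U r q) := by
  have : ev (f * g) = cut ((LinearMap.mul ℂ E).compl₁₂ (ev f) (ev g)) := by
    refine hom_ext fun γ i j => ?_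
    rw [cut_corep _ (isCorep_u γ)]
    simp only [LinearMap.compl₁₂_apply, LinearMap.mul_apply', ev_u]
    rw [lp.infty_coeFn_mul]
    rfl
  rw [this, cut_corep _ hU]
  simp only [LinearMap.compl₁₂_apply, LinearMap.mul_apply']

lemma ev_one (h : G.H) : ev (1 : Linf G E) h = Coalgebra.counit (R := ℂ) h • (1 : E) := by
  have : ev (1 : Linf G E) = (Coalgebra.counit (R := ℂ)).smulRight (1 : E) := by
    refine hom_ext fun γ i j => ?_
    rw [LinearMap.smulRight_apply, counit_u, ev_u, lp.infty_coeFn_one]
    rw [Pi.one_apply, CStarMatrix.one_apply]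
    split_ifs <;> simp
  rw [this, LinearMap.smulRight_apply]

omit [Nontrivial E] in
lemma ev_star (f : Linf G E) (h : G.H) : ev (star f) h = star (ev f (dag h)) := by
  refine induction_u (p := fun h => ev (star f) h = star (ev f (dag h))) ?_ ?_ ?_ ?_ h
  · intro γ i j
    rw [dag_u, ev_u, ev_u, lp.star_apply, CStarMatrix.star_apply]
  · simp [dag]
  · intro y z hy hz
    rw [dag_add, map_add, map_add, hy, hz, star_add]
  · intro c y hy
    rw [dag_smul, map_smul, map_smul, hy, star_smul, star_star]

lemma counit_corep {N : Type} [Fintype N] [DecidableEq N] {U : N → N → G.H}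
    (hc : ∀ p q, Coalgebra.counit (R := ℂ) (U p q) = if p = q then 1 else 0) (p q : N) :
    ev (1 : Linf G E) (U p q) = if p = q then 1 else 0 := by
  rw [ev_one, hc]
  split_ifs <;> simp

/-- The *-homomorphism given by a unitary corepresentation. -/
noncomputable def evHom {N : Type} [Fintype N] [DecidableEq N] {U : N → N → G.H}
    (hU : IsUCorep U) : Linf G E →⋆ₙₐ[ℂ] CStarMatrix N N E where
  toFun f := CStarMatrix.ofMatrix fun p q => ev f (U p q)
  map_smul' c f := by
    ext p q
    exact LinearMap.congr_fun (ev_smul c f) _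
  map_zero' := by
    ext p q
    have : ev (0 : Linf G E) = 0 := by
      have h := ev_smul (0 : ℂ) (0 : Linf G E)
      rwa [zero_smul, zero_smul] at h
    exact LinearMap.congr_fun this _
  map_add' f g := by
    ext p q
    exact LinearMap.congr_fun (ev_add f g) _
  map_mul' f g := by
    ext p q
    rw [CStarMatrix.mul_apply]
    exact ev_mul f g hU.corep p q
  map_star' f := by
    ext p q
    rw [CStarMatrix.star_apply]
    exact (ev_star f _).trans (by rw [hU.dag_eq]; rfl)

lemma evHom_apply {N : Type} [Fintype N] [DecidableEq N] {U : N → N → G.H}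
    (hU : IsUCorep U) (f : Linf G E) (p q : N) : evHom hU f p q = ev f (U p q) := rfl

lemma norm_evHom_le {N : Type} [Fintype N] [DecidableEq N] {U : N → N → G.H}
    (hU : IsUCorep U) (f : Linf G E) : ‖evHom (E := E) hU f‖ ≤ ‖f‖ :=
  NonUnitalStarAlgHom.norm_apply_le (evHom (E := E) hU) f

/-- Matrices over matrices. -/
noncomputable def unflat (N M : Type) [Fintype N] [DecidableEq N] [Fintype M] [DecidableEq M] :
    CStarMatrix (N × M) (N × M) E →⋆ₙₐ[ℂ] CStarMatrix N N (CStarMatrix M M E) where
  toFun X := CStarMatrix.ofMatrix fun i j => CStarMatrix.ofMatrix fun k l => X (i, k) (j, l)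
  map_smul' c f := by
    ext p q
    rfl
  map_zero' := by
    ext p q
    rfl
  map_add' f g := by
    ext p q
    rfl
  map_mul' f g := by
    ext i j k l
    rw [CStarMatrix.mul_apply, cstarMatrix_sum_apply]
    simp only [CStarMatrix.mul_apply]
    have : (f * g) (i, k) (j, l) = ∑ r, f (i, k) r * g r (j, l) := rfl
    change (f * g) (i, k) (j, l) = _
    rw [this, Fintype.sum_prod_type]
    rfl
  map_star' f := by
    ext i j k l
    rfl

omit [Nontrivial E] in
lemma norm_unflat_le (N M : Type) [Fintype N] [DecidableEq N] [Fintype M] [DecidableEq M]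
    (X : CStarMatrix (N × M) (N × M) E) : ‖unflat N M X‖ ≤ ‖X‖ :=
  NonUnitalStarAlgHom.norm_apply_le (unflat N M) X

/-- The block of a translate. -/
noncomputable def transBlk (α : G.Irr) (i j : Fin (G.dim α)) (f : Linf G E) (γ : G.Irr) :
    Blk G E γ :=
  CStarMatrix.ofMatrix fun k l => ev f (G.u α i j * G.u γ k l)

lemma norm_transBlk_le (α : G.Irr) (i j : Fin (G.dim α)) (f : Linf G E) (γ : G.Irr) :
    ‖transBlk α i j f γ‖ ≤ ‖f‖ := by
  have hU := isUCorep_tens (isUCorep_u α) (isUCorep_u γ)
  have h1 : transBlk α i j f γ =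
      unflat (Fin (G.dim α)) (Fin (G.dim γ)) (evHom (E := E) hU f) i j := rfl
  rw [h1]
  exact (CStarMatrix.norm_entry_le_norm).trans ((norm_unflat_le _ _ _).trans
    (norm_evHom_le hU f))

/-- The translate of a bounded family by a matrix coefficient. -/
noncomputable def transU (α : G.Irr) (i j : Fin (G.dim α)) (f : Linf G E) : Linf G E :=
  ⟨transBlk α i j f, memℓp_infty ⟨‖f‖, by
    rintro _ ⟨γ, rfl⟩
    exact norm_transBlk_le α i j f γ⟩⟩

lemma ev_transU (α : G.Irr) (i j : Fin (G.dim α)) (f : Linf G E) (h : G.H) :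
    ev (transU α i j f) h = ev f (G.u α i j * h) := by
  have : ev (transU α i j f) = ev f ∘ₗ LinearMap.mulLeft ℂ (G.u α i j) := by
    refine hom_ext fun γ k l => ?_
    rw [ev_u]
    rfl
  rw [this]
  rfl

/-- The components of the translation action. -/
noncomputable def transHom (α : G.Irr) :
    Linf G E →⋆ₐ[ℂ] CStarMatrix (Fin (G.dim α)) (Fin (G.dim α)) (Linf G E) where
  toFun f := CStarMatrix.ofMatrix fun i j => transU α i j f
  map_one' := by
    refine CStarMatrix.ext fun i j => linf_ext fun γ k l => ?_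
    have h1 : ev ((CStarMatrix.ofMatrix fun i j => transU α i j (1 : Linf G E) :
        CStarMatrix (Fin (G.dim α)) (Fin (G.dim α)) (Linf G E)) i j) (G.u γ k l) =
        ev (transU α i j (1 : Linf G E)) (G.u γ k l) := rfl
    rw [h1, ev_transU, ev_one, Bialgebra.counit_mul, counit_u, counit_u, CStarMatrix.one_apply]
    by_cases hij : i = j
    · rw [if_pos hij, if_pos hij, ev_one, counit_u, one_mul]
    · rw [if_neg hij, if_neg hij, zero_mul, zero_smul]
      have h2 : ev (0 : Linf G E) (G.u γ k l) = 0 := by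
        rw [ev_u]
        rfl
      rw [h2]
  map_mul' f g := by
    refine CStarMatrix.ext fun i j => linf_ext fun γ k l => ?_
    have h1 : ev ((CStarMatrix.ofMatrix fun i j => transU α i j (f * g) :
        CStarMatrix (Fin (G.dim α)) (Fin (G.dim α)) (Linf G E)) i j) (G.u γ k l) =
        ev (transU α i j (f * g)) (G.u γ k l) := rfl
    rw [h1, ev_transU, CStarMatrix.mul_apply]
    have hU := isUCorep_tens (isUCorep_u α) (isUCorep_u γ)
    have h2 := ev_mul f g hU.corep (i, k) (j, l)
    rw [Fintype.sum_prod_type] at h2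
    have h3 : G.tens (G.u α) (G.u γ) (i, k) (j, l) = G.u α i j * G.u γ k l := rfl
    rw [← h3, h2, ev_u, lp.coeFn_sum, Finset.sum_apply, cstarMatrix_sum_apply]
    refine Finset.sum_congr rfl fun a _ => ?_
    rw [lp.infty_coeFn_mul, Pi.mul_apply, CStarMatrix.mul_apply]
    rfl
  map_zero' := by
    refine CStarMatrix.ext fun i j => linf_ext fun γ k l => ?_
    have h1 : ev ((CStarMatrix.ofMatrix fun i j => transU α i j (0 : Linf G E) :
        CStarMatrix (Fin (G.dim α)) (Fin (G.dim α)) (Linf G E)) i j) (G.u γ k l) =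
        ev (transU α i j (0 : Linf G E)) (G.u γ k l) := rfl
    have h2 : ev (0 : Linf G E) = 0 := by
      have h := ev_smul (0 : ℂ) (0 : Linf G E)
      rwa [zero_smul, zero_smul] at h
    rw [h1, ev_transU, h2, CStarMatrix.zero_apply, h2]
    rfl
  map_add' f g := by
    refine CStarMatrix.ext fun i j => linf_ext fun γ k l => ?_
    have h1 : ev ((CStarMatrix.ofMatrix fun i j => transU α i j (f + g) :
        CStarMatrix (Fin (G.dim α)) (Fin (G.dim α)) (Linf G E)) i j) (G.u γ k l) =
        ev (transU α i j (f + g)) (G.u γ k l) := rfl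
    rw [h1, ev_transU, ev_add, CStarMatrix.add_apply, ev_add, LinearMap.add_apply,
      LinearMap.add_apply, ← ev_transU, ← ev_transU]
    rfl
  commutes' c := by
    refine CStarMatrix.ext fun i j => linf_ext fun γ k l => ?_
    have h0 : ∀ c : ℂ, (algebraMap ℂ (Linf G E) c) = c • (1 : Linf G E) := fun c =>
      Algebra.algebraMap_eq_smul_one c
    have h1 : ev ((CStarMatrix.ofMatrix fun i j => transU α i j (algebraMap ℂ (Linf G E) c) :
        CStarMatrix (Fin (G.dim α)) (Fin (G.dim α)) (Linf G E)) i j) (G.u γ k l) =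
        ev (transU α i j (algebraMap ℂ (Linf G E) c)) (G.u γ k l) := rfl
    rw [h1, ev_transU, CStarMatrix.algebraMap_apply, h0, ev_smul, LinearMap.smul_apply, ev_one,
      Bialgebra.counit_mul, counit_u, counit_u]
    by_cases hij : i = j
    · rw [if_pos hij, if_pos hij, ev_smul, LinearMap.smul_apply, ev_one, counit_u, one_mul]
    · rw [if_neg hij, if_neg hij, zero_mul, zero_smul, smul_zero]
      have h2 : ev (0 : Linf G E) (G.u γ k l) = 0 := by
        rw [ev_u]
        rfl
      rw [h2]
  map_star' f := by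
    refine CStarMatrix.ext fun i j => linf_ext fun γ k l => ?_
    have h1 : ev ((CStarMatrix.ofMatrix fun i j => transU α i j (star f) :
        CStarMatrix (Fin (G.dim α)) (Fin (G.dim α)) (Linf G E)) i j) (G.u γ k l) =
        ev (transU α i j (star f)) (G.u γ k l) := rfl
    rw [h1, ev_transU, CStarMatrix.star_apply, ev_star, dag_mul, dag_u, dag_u, ev_star, dag_u,
      ← ev_transU]
    rfl

lemma transHom_apply (α : G.Irr) (f : Linf G E) (i j : Fin (G.dim α)) :
    transHom α f i j = transU α i j f := rfl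

lemma lin_transU (f : Linf G E) (h h' : G.H) :
    ev (G.lin Set.univ (fun δ m n => transU (δ : G.Irr) m n f) h) h' = ev f (h * h') := by
  refine induction_u (p := fun h =>
    ev (G.lin Set.univ (fun δ m n => transU (δ : G.Irr) m n f) h) h' = ev f (h * h'))
    ?_ ?_ ?_ ?_ h
  · intro γ i j
    rw [G.lin_u Set.univ (fun δ m n => transU (δ : G.Irr) m n f) ⟨γ, trivial⟩ i j, ev_transU]
  · rw [map_zero, zero_mul, map_zero]
    have h2 : ev (0 : Linf G E) = 0 := by
      have h := ev_smul (0 : ℂ) (0 : Linf G E)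
      rwa [zero_smul, zero_smul] at h
    rw [h2]
    rfl
  · intro x y hx hy
    rw [map_add, ev_add, LinearMap.add_apply, hx, hy, add_mul, map_add]
  · intro c x hx
    rw [map_smul, ev_smul, LinearMap.smul_apply, hx, smul_mul_assoc, map_smul]

/-- The translation action of `Γ` on the bounded families. -/
noncomputable def transAct (G : CQG) (E : Type) [CStarAlgebra E] [PartialOrder E]
    [StarOrderedRing E] [Nontrivial E] : QAction G Set.univ (Linf G E) where
  comp := fun γ => transHom (G := G) (E := E) (γ : G.Irr)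
  coassoc := by
    intro γ γ' f i j k l
    refine linf_ext fun δ a b => ?_
    have h1 := lin_transU f (G.u γ i j * G.u γ' k l) (G.u δ a b)
    have h2 : ev (transHom (γ' : G.Irr) (transHom (γ : G.Irr) f i j) k l) (G.u δ a b) =
        ev f (G.u γ i j * (G.u γ' k l * G.u δ a b)) := by
      rw [transHom_apply, ev_transU, transHom_apply, ev_transU]
    rw [h2, ← mul_assoc, ← h1]
    rfl
  counit := by
    intro γ hγ f i j
    obtain ⟨γ, hγ'⟩ := γ
    subst hγ
    refine linf_ext fun δ a b => ?_
    rw [transHom_apply, ev_transU, G.u_one, one_mul]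

/-- The restriction of an action of `Γ` to a quantum subgroup. -/
noncomputable def QAction.restrict {A : Type} [CStarAlgebra A] (b : QAction G Set.univ A)
    {S : Set G.Irr} (hS : G.IsQuantumSubgroup S) : QAction G S A where
  comp γ := b.comp ⟨γ, trivial⟩
  coassoc γ γ' x i j k l := by
    rw [b.coassoc]
    have key : ∀ h ∈ G.coeff S, G.lin Set.univ (fun δ m n => b.comp δ x m n) h =
        G.lin S (fun δ m n => b.comp ⟨δ, trivial⟩ x m n) h := by
      intro h hh
      refine coeff_induction (p := fun h => G.lin Set.univ (fun δ m n => b.comp δ x m n) h =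
        G.lin S (fun δ m n => b.comp ⟨δ, trivial⟩ x m n) h) ?_ ?_ ?_ ?_ hh
      · intro δ hδ m n
        rw [G.lin_u Set.univ (fun δ m n => b.comp δ x m n) ⟨δ, trivial⟩ m n,
          G.lin_u S (fun δ m n => b.comp ⟨δ, trivial⟩ x m n) ⟨δ, hδ⟩ m n]
      · simp
      · intro y z hy hz
        rw [map_add, map_add, hy, hz]
      · intro c y hy
        rw [map_smul, map_smul, hy]
    exact key _ (mul_mem_coeff hS (u_mem_coeff γ.2 _ _) (u_mem_coeff γ'.2 _ _))
  counit γ hγ x i j := b.counit ⟨γ, trivial⟩ hγ x i j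

lemma isQuantumSubgroup_univ : G.IsQuantumSubgroup Set.univ :=
  ⟨trivial, fun _ _ _ _ => trivial, fun _ _ _ _ _ _ => trivial⟩

lemma ev_act (f : Linf G E) (h h' : G.H) :
    ev ((transAct G E).act f h) h' = ev f (h * h') := lin_transU f h h'

end Pool.Agent.Work.MP_88ec28_an
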